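import Mathlib

/-!
# Elementary matrices: Suslin's normality theorem and finite quotients

For a commutative ring `D` and `n ≥ 3` the group generated by the elementary matrices is normalised by
`SL_n(D)`; relative version for an ideal of finite index, and finiteness of the quotient of the
elementary group by a normal subgroup containing the elementary matrices of an ideal of finite index.
-/

set_option autoImplicit false
set_option linter.unusedSectionVars false

namespace Pool.Agent.Y328

open Matrix

variable {ι : Type*} [Fintype ι] [DecidableEq ι] {D : Type*} [CommRing D]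

/-- The elementary subgroup of `SL_ι(D)`. -/
def Elem (ι D : Type*) [Fintype ι] [DecidableEq ι] [CommRing D] :
    Subgroup (SpecialLinearGroup ι D) :=
  Subgroup.closure {x | ∃ (i j : ι) (h : i ≠ j) (a : D), x = SpecialLinearGroup.transvection h a}

theorem trans_mem {i j : ι} (h : i ≠ j) (a : D) :
    SpecialLinearGroup.transvection h a ∈ Elem ι D :=
  Subgroup.subset_closure ⟨i, j, h, a, rfl⟩

/-- matrices in the elementary group -/
def InE (A : Matrix ι ι D) : Prop := ∃ s ∈ Elem ι D, (s : Matrix ι ι D) = A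

theorem InE.mul {A B : Matrix ι ι D} (hA : InE A) (hB : InE B) : InE (A * B) := by
  obtain ⟨s, hs, rfl⟩ := hA
  obtain ⟨t, ht, rfl⟩ := hB
  exact ⟨s * t, mul_mem hs ht, rfl⟩

theorem InE.one : InE (1 : Matrix ι ι D) := ⟨1, one_mem _, rfl⟩

theorem InE.single {i j : ι} (h : i ≠ j) (a : D) :
    InE (1 + vecMulVec (Pi.single i 1) (Pi.single j a)) := by
  refine ⟨_, trans_mem h a, ?_⟩
  rw [SpecialLinearGroup.transvection_coe]
  congr 1
  ext x y
  rw [vecMulVec_apply, Matrix.single_apply, Pi.single_apply, Pi.single_apply]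
  by_cases hx : i = x
  · by_cases hy : j = y
    · subst hx hy; simp
    · simp [hx, hy, eq_comm]
  · simp [hx, eq_comm]

theorem vec_mul (a b c d : ι → D) :
    vecMulVec a b * vecMulVec c d = (b ⬝ᵥ c) • vecMulVec a d := by
  rw [vecMulVec_mul_vecMulVec, vecMulVec_smul]

theorem one_add_mul_one_add (X Y : Matrix ι ι D) : (1 + X) * (1 + Y) = 1 + (X + Y) + X * Y := by
  rw [add_mul, one_mul, mul_add, mul_one]
  abel

theorem one_add_mul_one_add_of_zero {X Y : Matrix ι ι D} (h : X * Y = 0) :
    (1 + X) * (1 + Y) = 1 + (X + Y) := by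
  rw [one_add_mul_one_add, h, add_zero]

theorem InE.sum_right {κ : Type*} (s : Finset κ) (v : ι → D) (f : κ → ι → D)
    (h0 : ∀ k ∈ s, f k ⬝ᵥ v = 0) (h : ∀ k ∈ s, InE (1 + vecMulVec v (f k))) :
    InE (1 + vecMulVec v (∑ k ∈ s, f k)) := by
  classical
  induction s using Finset.induction_on with
  | empty => rw [Finset.sum_empty, vecMulVec_zero, add_zero]; exact InE.one
  | insert k s hk ih =>
    rw [Finset.sum_insert hk]
    have h1 := (h k (Finset.mem_insert_self k s)).mul
      (ih (fun l hl => h0 l (Finset.mem_insert_of_mem hl)) fun l hl => h l (Finset.mem_insert_of_mem hl))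
    rw [one_add_mul_one_add_of_zero (by
      rw [vec_mul, h0 k (Finset.mem_insert_self k s), zero_smul])] at h1
    rw [vecMulVec_add]
    exact h1

theorem InE.sum_left {κ : Type*} (s : Finset κ) (w : ι → D) (f : κ → ι → D)
    (h0 : ∀ k ∈ s, w ⬝ᵥ f k = 0) (h : ∀ k ∈ s, InE (1 + vecMulVec (f k) w)) :
    InE (1 + vecMulVec (∑ k ∈ s, f k) w) := by
  classical
  induction s using Finset.induction_on with
  | empty => rw [Finset.sum_empty, zero_vecMulVec, add_zero]; exact InE.one
  | insert k s hk ih =>
    rw [Finset.sum_insert hk]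
    have hs : w ⬝ᵥ (∑ l ∈ s, f l) = 0 := by
      rw [dotProduct_sum]
      exact Finset.sum_eq_zero fun l hl => h0 l (Finset.mem_insert_of_mem hl)
    have h1 := (h k (Finset.mem_insert_self k s)).mul
      (ih (fun l hl => h0 l (Finset.mem_insert_of_mem hl)) fun l hl => h l (Finset.mem_insert_of_mem hl))
    rw [one_add_mul_one_add_of_zero (by rw [vec_mul, hs, zero_smul])] at h1
    rw [add_vecMulVec]
    exact h1

theorem InE.row (l : ι) (w : ι → D) (hw : w l = 0) : InE (1 + vecMulVec (Pi.single l 1) w) := by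
  have h1 : w = ∑ k ∈ Finset.univ.erase l, Pi.single k (w k) := by
    rw [← Finset.univ_sum_single w, ← Finset.add_sum_erase _ _ (Finset.mem_univ l)]
    simp [hw]
  rw [h1]
  refine InE.sum_right _ _ _ ?_ ?_
  · intro k hk
    rw [single_dotProduct, Pi.single_eq_of_ne (Finset.ne_of_mem_erase hk), mul_zero]
  · intro k hk
    exact InE.single (Finset.ne_of_mem_erase hk).symm _

theorem InE.col (l : ι) (x : ι → D) (hx : x l = 0) : InE (1 + vecMulVec x (Pi.single l 1)) := by
  have h1 : x = ∑ k ∈ Finset.univ.erase l, Pi.single k (x k) := by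
    rw [← Finset.univ_sum_single x, ← Finset.add_sum_erase _ _ (Finset.mem_univ l)]
    simp [hx]
  rw [h1]
  refine InE.sum_left _ _ _ ?_ ?_
  · intro k hk
    rw [single_dotProduct, Pi.single_eq_of_ne (Finset.ne_of_mem_erase hk).symm, mul_zero]
  · intro k hk
    have h2 : vecMulVec (Pi.single k (x k)) (Pi.single l (1 : D)) =
        vecMulVec (Pi.single k 1) (Pi.single l (x k)) := by
      have e1 : (Pi.single k (x k) : ι → D) = x k • Pi.single k 1 := by
        rw [← Pi.single_smul, smul_eq_mul, mul_one]
      have e2 : (Pi.single l (x k) : ι → D) = x k • Pi.single l 1 := by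
        rw [← Pi.single_smul, smul_eq_mul, mul_one]
      rw [e1, e2, smul_vecMulVec, vecMulVec_smul]
    rw [h2]
    exact InE.single (Finset.ne_of_mem_erase hk) _

theorem InE.zero_coord (l : ι) (v w : ι → D) (hw : w l = 0) (hwv : w ⬝ᵥ v = 0) :
    InE (1 + vecMulVec v w) := by
  let x : ι → D := v - Pi.single l (v l)
  have hx : x l = 0 := by simp [x]
  have hwx : w ⬝ᵥ x = 0 := by
    simp only [x]
    rw [dotProduct_sub, hwv, dotProduct_single, hw, zero_mul, sub_zero]
  have hxl : x ⬝ᵥ Pi.single l 1 = 0 := by rw [dotProduct_single, hx, zero_mul]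
  have hlx : Pi.single l (1 : D) ⬝ᵥ x = 0 := by rw [single_dotProduct, hx, mul_zero]
  have hwl : w ⬝ᵥ Pi.single l 1 = 0 := by rw [dotProduct_single, hw, zero_mul]
  have hll : Pi.single l (1 : D) ⬝ᵥ Pi.single l 1 = 1 := by simp
  have hneg : -x = -x := rfl
  have hxn : (-x) l = 0 := by rw [Pi.neg_apply, hx, neg_zero]
  have hwn : (-w) l = 0 := by rw [Pi.neg_apply, hw, neg_zero]
  have hc := (((InE.col l x hx).mul (InE.row l w hw)).mul (InE.col l (-x) hxn)).mul
    (InE.row l (-w) hwn)
  have e : ((1 + vecMulVec x (Pi.single l 1)) * (1 + vecMulVec (Pi.single l 1) w) *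
      (1 + vecMulVec (-x) (Pi.single l 1)) * (1 + vecMulVec (Pi.single l 1) (-w)) :
        Matrix ι ι D) = 1 + vecMulVec x w := by
    have e1 : vecMulVec x (Pi.single l 1) * vecMulVec (Pi.single l 1) w = vecMulVec x w := by
      rw [vec_mul, hll, one_smul]
    have e2 : vecMulVec (Pi.single l 1) w * vecMulVec x (Pi.single l 1) = 0 := by
      rw [vec_mul, hwx, zero_smul]
    have e3 : vecMulVec x (Pi.single l 1) * vecMulVec x (Pi.single l 1) = 0 := by
      rw [vec_mul, hlx, zero_smul]
    have e4 : vecMulVec (Pi.single l 1) w * vecMulVec (Pi.single l 1) w = 0 := by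
      rw [vec_mul, hwl, zero_smul]
    rw [neg_vecMulVec, vecMulVec_neg]
    generalize vecMulVec x (Pi.single l 1) = P at *
    generalize vecMulVec (Pi.single l 1) w = Q at *
    rw [← e1]
    have e5 : (1 + P) * (1 + Q) * (1 + -P) * (1 + -Q) =
        1 + P * Q - P * P - (Q * P) - P * (Q * P) - Q * Q + P * P * Q + Q * P * Q + P * (Q * P) * Q
          - P * (Q * Q) := by
      noncomm_ring
    rw [e5, e2, e3, e4]
    simp
  rw [e] at hc
  have hr : InE (1 + vecMulVec (Pi.single l 1) (v l • w) : Matrix ι ι D) :=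
    InE.row l _ (by rw [Pi.smul_apply, hw, smul_zero])
  have h2 := hc.mul hr
  rw [one_add_mul_one_add_of_zero (by rw [vec_mul, hwl, zero_smul])] at h2
  convert h2 using 1
  have h3 : v = x + Pi.single l (v l) := by simp [x]
  have h4 : vecMulVec v w = vecMulVec x w + vecMulVec (Pi.single l 1) (v l • w) := by
    conv_lhs => rw [h3]
    rw [add_vecMulVec, vecMulVec_smul]
    congr 1
    rw [← smul_vecMulVec, ← Pi.single_smul, smul_eq_mul, mul_one]
  rw [h4]

/-- **Suslin**: `1 + v ⊗ w` is elementary if `v` is unimodular and `w · v = 0`. -/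
theorem suslin (hn : 3 ≤ Fintype.card ι) (u v w : ι → D) (huv : u ⬝ᵥ v = 1) (hwv : w ⬝ᵥ v = 0) :
    InE (1 + vecMulVec v w) := by
  let f : ι × ι → ι → D := fun q =>
    (w q.1 * u q.2) • (Pi.single q.1 (v q.2) - Pi.single q.2 (v q.1))
  have hsum : w = ∑ q : ι × ι, f q := by
    rw [Fintype.sum_prod_type]
    have h1 : ∀ i, ∑ j, f (i, j) = Pi.single i (w i) - w i • ∑ j, Pi.single j (u j * v i) := by
      intro i
      simp only [f, smul_sub, Finset.sum_sub_distrib]
      congr 1
      · have : ∀ j, (w i * u j) • (Pi.single i (v j) : ι → D) = Pi.single i (w i * (u j * v j)) := by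
          intro j
          rw [← Pi.single_smul, smul_eq_mul, mul_assoc]
        simp only [this]
        have hs1 : ∑ j, (Pi.single i (w i * (u j * v j)) : ι → D) =
            Pi.single i (∑ j, w i * (u j * v j)) := by
          ext x
          rw [Finset.sum_apply]
          by_cases hx : x = i
          · subst hx; simp
          · simp [Pi.single_eq_of_ne hx]
        rw [hs1, ← Finset.mul_sum]
        have : ∑ j, u j * v j = 1 := huv
        rw [this, mul_one]
      · rw [Finset.smul_sum]
        refine Finset.sum_congr rfl fun j _ => ?_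
        rw [← Pi.single_smul, ← Pi.single_smul, smul_eq_mul, smul_eq_mul, mul_assoc]
    simp only [h1, Finset.sum_sub_distrib]
    rw [Finset.univ_sum_single]
    have h2 : ∑ i, w i • ∑ j, Pi.single j (u j * v i) = (0 : ι → D) := by
      have : ∀ i, w i • ∑ j, (Pi.single j (u j * v i) : ι → D) = (w i * v i) • u := by
        intro i
        rw [Finset.univ_sum_single (fun j => u j * v i)]
        ext j
        simp only [Pi.smul_apply, smul_eq_mul]
        ring
      simp only [this]
      rw [← Finset.sum_smul]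
      have : ∑ i, w i * v i = 0 := hwv
      rw [this, zero_smul]
    rw [h2, sub_zero]
  have h0 : ∀ q ∈ (Finset.univ : Finset (ι × ι)), f q ⬝ᵥ v = 0 := by
    intro q _
    simp only [f, smul_dotProduct, sub_dotProduct, single_dotProduct, smul_eq_mul]
    ring
  rw [hsum]
  refine InE.sum_right _ _ _ h0 fun q hq => ?_
  obtain ⟨l, hl⟩ : ∃ l, l ∉ ({q.1, q.2} : Finset ι) := by
    by_contra hcon
    push Not at hcon
    have h1 : (Finset.univ : Finset ι) ⊆ {q.1, q.2} := fun l _ => hcon l
    have h2 := (Finset.card_le_card h1).trans Finset.card_le_two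
    rw [Finset.card_univ] at h2
    omega
  rw [Finset.mem_insert, Finset.mem_singleton, not_or] at hl
  refine InE.zero_coord l v (f q) ?_ (h0 q hq)
  simp [f, Pi.single_eq_of_ne hl.1, Pi.single_eq_of_ne hl.2]

end Pool.Agent.Y328
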