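import Pool.Agent.Y328.GEl

/-!
# Normality of the elementary group, relative version, and finite quotients
-/

set_option autoImplicit false
set_option linter.unusedSectionVars false

namespace Pool.Agent.Y328
open Matrix
variable {ι : Type*} [Fintype ι] [DecidableEq ι] {D : Type*} [CommRing D]

theorem mem_of_inE {x : SpecialLinearGroup ι D} (h : InE (x : Matrix ι ι D)) : x ∈ Elem ι D := by
  obtain ⟨s, hs, e⟩ := h
  have : s = x := Subtype.ext e
  rwa [← this]

theorem trans_coe_vec {i j : ι} (h : i ≠ j) (a : D) :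
    ((SpecialLinearGroup.transvection h a : SpecialLinearGroup ι D) : Matrix ι ι D) =
      1 + vecMulVec (Pi.single i 1) (Pi.single j a) := by
  rw [SpecialLinearGroup.transvection_coe]
  congr 1
  ext x y
  rw [vecMulVec_apply, Matrix.single_apply, Pi.single_apply, Pi.single_apply]
  by_cases hx : i = x
  · by_cases hy : j = y
    · subst hx hy; simp
    · simp [hx, hy, eq_comm]
  · simp [hx, eq_comm]

theorem conj_mem (hn : 3 ≤ Fintype.card ι) (γ : SpecialLinearGroup ι D) {i j : ι} (h : i ≠ j)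
    (a : D) : γ * SpecialLinearGroup.transvection h a * γ⁻¹ ∈ Elem ι D := by
  apply mem_of_inE
  have hγ : ((γ⁻¹ : SpecialLinearGroup ι D) : Matrix ι ι D) * (γ : Matrix ι ι D) = 1 :=
    congrArg Subtype.val (inv_mul_cancel γ)
  have hγ' : (γ : Matrix ι ι D) * ((γ⁻¹ : SpecialLinearGroup ι D) : Matrix ι ι D) = 1 :=
    congrArg Subtype.val (mul_inv_cancel γ)
  have h1 : ((γ * SpecialLinearGroup.transvection h a * γ⁻¹ : SpecialLinearGroup ι D) :
      Matrix ι ι D) = 1 + vecMulVec ((γ : Matrix ι ι D) *ᵥ Pi.single i 1)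
        (Pi.single j a ᵥ* ((γ⁻¹ : SpecialLinearGroup ι D) : Matrix ι ι D)) := by
    change (γ : Matrix ι ι D) * ((SpecialLinearGroup.transvection h a : SpecialLinearGroup ι D) :
      Matrix ι ι D) * ((γ⁻¹ : SpecialLinearGroup ι D) : Matrix ι ι D) = _
    rw [trans_coe_vec, mul_add, mul_one, add_mul, hγ', mul_vecMulVec, vecMulVec_mul]
  rw [h1]
  have hdot : ∀ x y : ι → D, (x ᵥ* ((γ⁻¹ : SpecialLinearGroup ι D) : Matrix ι ι D)) ⬝ᵥ
      ((γ : Matrix ι ι D) *ᵥ y) = x ⬝ᵥ y := by
    intro x y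
    rw [← dotProduct_mulVec, mulVec_mulVec, hγ, one_mulVec]
  refine suslin hn (Pi.single i 1 ᵥ* ((γ⁻¹ : SpecialLinearGroup ι D) : Matrix ι ι D)) _ _ ?_ ?_
  · rw [hdot]; simp
  · rw [hdot, single_dotProduct, Pi.single_eq_of_ne h.symm, mul_zero]

/-- the double ring -/
def Dbl (I : Ideal D) : Subring (D × D) where
  carrier := {x | x.2 - x.1 ∈ I}
  mul_mem' := fun {x y} hx hy => by
    change x.2 * y.2 - x.1 * y.1 ∈ I
    have : x.2 * y.2 - x.1 * y.1 = x.2 * (y.2 - y.1) + y.1 * (x.2 - x.1) := by ring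
    rw [this]
    exact I.add_mem (I.mul_mem_left _ hy) (I.mul_mem_left _ hx)
  one_mem' := by
    change (1 : D) - 1 ∈ I
    rw [sub_self]; exact I.zero_mem
  add_mem' := fun {x y} hx hy => by
    change (x.2 + y.2) - (x.1 + y.1) ∈ I
    have : (x.2 + y.2) - (x.1 + y.1) = (x.2 - x.1) + (y.2 - y.1) := by ring
    rw [this]
    exact I.add_mem hx hy
  zero_mem' := by
    change (0 : D) - 0 ∈ I
    rw [sub_self]; exact I.zero_mem
  neg_mem' := fun {x} hx => by
    change -x.2 - -x.1 ∈ I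
    have : -x.2 - -x.1 = -(x.2 - x.1) := by ring
    rw [this]
    exact I.neg_mem hx

/-- the projections of the double ring -/
def pr1 (I : Ideal D) : Dbl I →+* D := (RingHom.fst D D).comp (Dbl I).subtype
def pr2 (I : Ideal D) : Dbl I →+* D := (RingHom.snd D D).comp (Dbl I).subtype

theorem map_trans {R S : Type*} [CommRing R] [CommRing S] (f : R →+* S) {i j : ι} (h : i ≠ j)
    (a : R) : SpecialLinearGroup.map f (SpecialLinearGroup.transvection h a) =
      SpecialLinearGroup.transvection h (f a) := by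
  apply Subtype.ext
  rw [SpecialLinearGroup.transvection_coe]
  ext x y
  rw [SpecialLinearGroup.map_apply_coe, RingHom.mapMatrix_apply, Matrix.map_apply,
    SpecialLinearGroup.transvection_coe, Matrix.add_apply, Matrix.add_apply, map_add,
    Matrix.single_apply, Matrix.single_apply, Matrix.one_apply, Matrix.one_apply]
  split_ifs <;> simp

/-- the relative version -/
theorem rel_comm (hn : 3 ≤ Fintype.card ι) (I : Ideal D) {Q : Type*} [Group Q]
    (π : Elem ι D →* Q)
    (hπ : ∀ (i j : ι) (h : i ≠ j), ∀ z ∈ I, π ⟨_, trans_mem h z⟩ = 1)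
    (γ : Elem ι D) (hγ : ∀ i j, (γ.1 : Matrix ι ι D) i j - (1 : Matrix ι ι D) i j ∈ I)
    (i j : ι) (h : i ≠ j) (a : D) :
    π γ * π ⟨_, trans_mem h a⟩ = π ⟨_, trans_mem h a⟩ * π γ := by
  let T' : Subgroup (Elem ι D × Elem ι D) :=
    MonoidHom.eqLocus (π.comp (MonoidHom.fst _ _)) (π.comp (MonoidHom.snd _ _))
  let T : Subgroup (SpecialLinearGroup ι D × SpecialLinearGroup ι D) :=
    T'.map ((Elem ι D).subtype.prodMap (Elem ι D).subtype)
  let Φ : SpecialLinearGroup ι (Dbl I) →* SpecialLinearGroup ι D × SpecialLinearGroup ι D :=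
    (SpecialLinearGroup.map (pr1 I)).prod (SpecialLinearGroup.map (pr2 I))
  have hΦ : ∀ x ∈ Elem ι (Dbl I), Φ x ∈ T := by
    intro x hx
    unfold Elem at hx
    induction hx using Subgroup.closure_induction with
    | mem x hx =>
      obtain ⟨i, j, h, d, rfl⟩ := hx
      refine ⟨(⟨_, trans_mem h (pr1 I d)⟩, ⟨_, trans_mem h (pr2 I d)⟩), ?_, ?_⟩
      · change π ⟨_, trans_mem h (pr1 I d)⟩ = π ⟨_, trans_mem h (pr2 I d)⟩
        have h1 := hπ i j h (pr2 I d - pr1 I d) d.2
        have h2 : (⟨_, trans_mem h (pr2 I d)⟩ : Elem ι D) =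
            ⟨_, trans_mem h (pr1 I d)⟩ * ⟨_, trans_mem h (pr2 I d - pr1 I d)⟩ := by
          apply Subtype.ext
          change SpecialLinearGroup.transvection h (pr2 I d) =
            SpecialLinearGroup.transvection h (pr1 I d) *
              SpecialLinearGroup.transvection h (pr2 I d - pr1 I d)
          rw [← SpecialLinearGroup.transvection_add]
          congr 1
          ring
        rw [h2, map_mul, h1, mul_one]
      · exact Prod.ext (map_trans (pr1 I) h d).symm (map_trans (pr2 I) h d).symm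
    | one => rw [map_one]; exact one_mem _
    | mul x y _ _ hx hy => rw [map_mul]; exact mul_mem hx hy
    | inv x _ hx => rw [map_inv]; exact inv_mem hx
  let Mt : Matrix ι ι (Dbl I) := fun i j => ⟨((1 : Matrix ι ι D) i j, (γ.1 : Matrix ι ι D) i j), hγ i j⟩
  have hM1 : (pr1 I).mapMatrix Mt = 1 := rfl
  have hM2 : (pr2 I).mapMatrix Mt = (γ.1 : Matrix ι ι D) := rfl
  have hdet : Mt.det = 1 := by
    have h1 : pr1 I Mt.det = 1 := by rw [RingHom.map_det, hM1, det_one]
    have h2 : pr2 I Mt.det = 1 := by rw [RingHom.map_det, hM2]; exact γ.1.2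
    exact Subtype.ext (Prod.ext h1 h2)
  let γt : SpecialLinearGroup ι (Dbl I) := ⟨Mt, hdet⟩
  let at' : Dbl I := ⟨(a, a), by change a - a ∈ I; rw [sub_self]; exact I.zero_mem⟩
  have hγ1 : SpecialLinearGroup.map (pr1 I) γt = 1 := Subtype.ext hM1
  have hγ2 : SpecialLinearGroup.map (pr2 I) γt = γ.1 := Subtype.ext hM2
  obtain ⟨⟨s', t'⟩, hst, e⟩ := hΦ _ (conj_mem hn γt h at')
  have e1 : s'.1 = SpecialLinearGroup.transvection h a := by
    have h3 := congrArg Prod.fst e
    change s'.1 = SpecialLinearGroup.map (pr1 I) (γt * SpecialLinearGroup.transvection h at' * γt⁻¹) at h3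
    rw [map_mul, map_mul, map_inv, hγ1, map_trans, one_mul, inv_one, mul_one] at h3
    exact h3
  have e2 : t'.1 = γ.1 * SpecialLinearGroup.transvection h a * γ.1⁻¹ := by
    have h3 := congrArg Prod.snd e
    change t'.1 = SpecialLinearGroup.map (pr2 I) (γt * SpecialLinearGroup.transvection h at' * γt⁻¹) at h3
    rw [map_mul, map_mul, map_inv, hγ2, map_trans] at h3
    exact h3
  have e3 : s' = ⟨_, trans_mem h a⟩ := Subtype.ext e1
  have e4 : t' = γ * ⟨_, trans_mem h a⟩ * γ⁻¹ := Subtype.ext e2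
  have h5 : π s' = π t' := hst
  rw [e3, e4, map_mul, map_mul, map_inv] at h5
  rw [eq_mul_inv_iff_mul_eq] at h5
  exact h5.symm

theorem finite_commutatorSet {Q : Type*} [Group Q] (h : (Subgroup.center Q).index ≠ 0) :
    Finite (commutatorSet Q) := by
  have hfi : (Subgroup.center Q).FiniteIndex := ⟨h⟩
  have hf : Finite (Q ⧸ Subgroup.center Q) := inferInstance
  let F : (Q ⧸ Subgroup.center Q) × (Q ⧸ Subgroup.center Q) → Q := fun x =>
    x.1.out * x.2.out * x.1.out⁻¹ * x.2.out⁻¹
  have hsub : commutatorSet Q ⊆ Set.range F := by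
    rintro _ ⟨a, b, rfl⟩
    refine ⟨(QuotientGroup.mk a, QuotientGroup.mk b), ?_⟩
    obtain ⟨z, hz⟩ := QuotientGroup.mk_out_eq_mul (Subgroup.center Q) a
    obtain ⟨w, hw⟩ := QuotientGroup.mk_out_eq_mul (Subgroup.center Q) b
    simp only [F, hz, hw, commutatorElement_def, _root_.mul_inv_rev]
    have hz1 : ∀ x : Q, (z : Q) * x = x * z := fun x => (Subgroup.mem_center_iff.1 z.2 x).symm
    have hw1 : ∀ x : Q, (w : Q) * x = x * w := fun x => (Subgroup.mem_center_iff.1 w.2 x).symm
    calc a * z * (b * w) * ((z : Q)⁻¹ * a⁻¹) * ((w : Q)⁻¹ * b⁻¹)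
        = a * (z * (b * w)) * (z : Q)⁻¹ * a⁻¹ * (w : Q)⁻¹ * b⁻¹ := by group
      _ = a * (b * w * z) * (z : Q)⁻¹ * a⁻¹ * (w : Q)⁻¹ * b⁻¹ := by rw [hz1]
      _ = a * b * (w * a⁻¹) * (w : Q)⁻¹ * b⁻¹ := by group
      _ = a * b * (a⁻¹ * w) * (w : Q)⁻¹ * b⁻¹ := by rw [hw1]
      _ = a * b * a⁻¹ * b⁻¹ := by group
  exact (Set.finite_range F).subset hsub

theorem elem_closure {Q : Type*} [Group Q] (π : Elem ι D →* Q) (S : Subgroup Q)
    (hS : ∀ (i j : ι) (h : i ≠ j) (a : D), π ⟨_, trans_mem h a⟩ ∈ S) (x : Elem ι D) : π x ∈ S := by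
  obtain ⟨x, hx⟩ := x
  refine Subgroup.closure_induction (p := fun x hx => π ⟨x, hx⟩ ∈ S) ?_ ?_ ?_ ?_ hx
  · rintro _ ⟨i, j, h, a, rfl⟩
    exact hS i j h a
  · have : (⟨1, one_mem _⟩ : Elem ι D) = 1 := rfl
    exact this ▸ (map_one π).symm ▸ one_mem _
  · intro x y hx hy ihx ihy
    have : (⟨x * y, mul_mem hx hy⟩ : Elem ι D) = ⟨x, hx⟩ * ⟨y, hy⟩ := rfl
    change π (⟨x, hx⟩ * ⟨y, hy⟩) ∈ S
    rw [map_mul]
    exact mul_mem ihx ihy
  · intro x hx ihx
    change π (⟨x, hx⟩⁻¹) ∈ S
    rw [map_inv]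
    exact inv_mem ihx

theorem trans_commutator {i j l : ι} (hij : i ≠ j) (hil : i ≠ l) (hlj : l ≠ j) (a b : D) :
    (SpecialLinearGroup.transvection hil a * SpecialLinearGroup.transvection hlj b :
      SpecialLinearGroup ι D) = SpecialLinearGroup.transvection hij (a * b) *
      (SpecialLinearGroup.transvection hlj b * SpecialLinearGroup.transvection hil a) := by
  apply Subtype.ext
  change (1 + Matrix.single i l a) * (1 + Matrix.single l j b) =
    (1 + Matrix.single i j (a * b)) * ((1 + Matrix.single l j b) * (1 + Matrix.single i l a))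
  simp only [add_mul, mul_add, one_mul, mul_one, single_mul_single_same,
    single_mul_single_of_ne _ _ _ _ hij.symm, single_mul_single_of_ne _ _ _ _ hlj.symm, mul_zero,
    add_zero]
  abel_nf

/-- A quotient of the elementary group in which the elementary matrices of an ideal of finite index
are trivial is finite. -/
theorem finite_quotient (hn : 3 ≤ Fintype.card ι) (I : Ideal D) [Finite (D ⧸ I)]
    {Q : Type*} [Group Q] (π : Elem ι D →* Q) (hsurj : Function.Surjective π)
    (hπ : ∀ (i j : ι) (h : i ≠ j), ∀ z ∈ I, π ⟨_, trans_mem h z⟩ = 1) : Finite Q := by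
  classical
  let ρ : Elem ι D →* SpecialLinearGroup ι (D ⧸ I) :=
    (SpecialLinearGroup.map (Ideal.Quotient.mk I)).comp (Elem ι D).subtype
  have hfin : Finite (SpecialLinearGroup ι (D ⧸ I)) := by
    have : Finite (Matrix ι ι (D ⧸ I)) := inferInstanceAs (Finite (ι → ι → D ⧸ I))
    exact Subtype.finite
  have hK : ρ.ker.index ≠ 0 := by
    rw [Subgroup.index_ker]
    exact Nat.card_pos.ne'
  have hgen : ∀ (S : Subgroup Q), (∀ (i j : ι) (h : i ≠ j) (a : D), π ⟨_, trans_mem h a⟩ ∈ S) →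
      S = ⊤ := by
    intro S hS
    rw [eq_top_iff]
    intro q _
    obtain ⟨x, rfl⟩ := hsurj q
    exact elem_closure π S hS x
  have hcen : ρ.ker.map π ≤ Subgroup.center Q := by
    rintro _ ⟨γ, hγ, rfl⟩
    have hγ' : ∀ i j, (γ.1 : Matrix ι ι D) i j - (1 : Matrix ι ι D) i j ∈ I := by
      intro i j
      rw [← Ideal.Quotient.eq]
      have h1 : SpecialLinearGroup.map (Ideal.Quotient.mk I) γ.1 = 1 := hγ
      have h2 := congrArg (fun s : SpecialLinearGroup ι (D ⧸ I) => (s : Matrix ι ι (D ⧸ I)) i j) h1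
      change Ideal.Quotient.mk I ((γ.1 : Matrix ι ι D) i j) = (1 : Matrix ι ι (D ⧸ I)) i j at h2
      rw [h2, Matrix.one_apply, Matrix.one_apply]
      split_ifs <;> simp
    have h3 := hgen (Subgroup.centralizer {π γ}) (by
      intro i j h a
      rw [Subgroup.mem_centralizer_singleton_iff]
      exact (rel_comm hn I π hπ γ hγ' i j h a).symm)
    rw [Subgroup.mem_center_iff]
    intro q
    have h4 : q ∈ Subgroup.centralizer {π γ} := by rw [h3]; exact Subgroup.mem_top q
    exact Subgroup.mem_centralizer_singleton_iff.1 h4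
  have hidx : (Subgroup.center Q).index ≠ 0 := by
    have h1 : (ρ.ker.map π).index ∣ ρ.ker.index := Subgroup.index_map_dvd _ hsurj
    have h2 : (ρ.ker.map π).index ≠ 0 := fun h0 => hK (Nat.eq_zero_of_zero_dvd (h0 ▸ h1))
    intro h3
    exact h2 (Nat.eq_zero_of_zero_dvd (h3 ▸ Subgroup.index_dvd_of_le hcen))
  have hfc := finite_commutatorSet hidx
  have htop : commutator Q = ⊤ := by
    refine hgen _ fun i j h a => ?_
    obtain ⟨l, hl⟩ : ∃ l, l ∉ ({i, j} : Finset ι) := by
      by_contra hcon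
      push Not at hcon
      have h1 : (Finset.univ : Finset ι) ⊆ {i, j} := fun l _ => hcon l
      have h2 := (Finset.card_le_card h1).trans Finset.card_le_two
      rw [Finset.card_univ] at h2
      omega
    rw [Finset.mem_insert, Finset.mem_singleton, not_or] at hl
    have hil : i ≠ l := fun h => hl.1 h.symm
    have hlj : l ≠ j := hl.2
    have h1 := trans_commutator (D := D) h hil hlj a 1
    rw [mul_one] at h1
    have h2 : (⟨_, trans_mem h a⟩ : Elem ι D) = ⟨_, trans_mem hil a⟩ * ⟨_, trans_mem hlj (1 : D)⟩ *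
        (⟨_, trans_mem hil a⟩)⁻¹ * (⟨_, trans_mem hlj (1 : D)⟩)⁻¹ := by
      apply Subtype.ext
      change SpecialLinearGroup.transvection h a = SpecialLinearGroup.transvection hil a *
        SpecialLinearGroup.transvection hlj 1 * (SpecialLinearGroup.transvection hil a)⁻¹ *
        (SpecialLinearGroup.transvection hlj 1)⁻¹
      rw [h1]
      group
    rw [h2, map_mul, map_mul, map_mul, map_inv, map_inv]
    exact Subgroup.commutator_mem_commutator (H₁ := (⊤ : Subgroup Q)) (H₂ := ⊤)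
      (Subgroup.mem_top _) (Subgroup.mem_top _)
  have hfin2 : Finite (commutator Q) := inferInstance
  rw [htop] at hfin2
  exact Subgroup.topEquiv.toEquiv.finite_iff.1 hfin2

end Pool.Agent.Y328
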