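import Mathlib

/-!
# Steinberg families over a finite dimensional commutative algebra have small isotropy only if trivial

`F` a field of characteristic zero, `K` a finite dimensional commutative `F`-algebra all of whose
nonzero quotients have dimension at least `e`.  If a Steinberg family `X i j a` (`i ≠ j` in a set with
`n ≥ 3` elements, `a ∈ K`) acts on an `F`-vector space `E`, and if the vectors `X v₀` and `[X, Y] v₀` lie
in a subspace of dimension less than `e (n - 1)`, then all `X i j a` kill `v₀`.
-/

set_option autoImplicit false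
set_option linter.unusedSectionVars false

namespace Pool.Agent.Y328

open Module

/-- Steinberg relations in an associative algebra. -/
structure Stb {ι K R : Type*} [Mul K] [Ring R] (X : ι → ι → K → R) : Prop where
  comm3 : ∀ i j k (a b : K), i ≠ j → j ≠ k → i ≠ k →
    X i j a * X j k b - X j k b * X i j a = X i k (a * b)
  comm0 : ∀ i j k l (a b : K), i ≠ j → k ≠ l → j ≠ k → i ≠ l →
    X i j a * X k l b = X k l b * X i j a

section LemC

variable {F K E ι : Type*} [Field F] [CharZero F] [CommRing K] [Algebra F K]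
  [FiniteDimensional F K] [AddCommGroup E] [Module F E] [Fintype ι] [DecidableEq ι]

/-- the bracket in an associative ring -/
def br {R : Type*} [Ring R] (x y : R) : R := x * y - y * x

theorem br_add_right {R : Type*} [Ring R] (x y z : R) : br x (y + z) = br x y + br x z := by
  unfold br; noncomm_ring

theorem br_sub_right {R : Type*} [Ring R] (x y z : R) : br x (y - z) = br x y - br x z := by
  unfold br; noncomm_ring

theorem br_add_left {R : Type*} [Ring R] (x y z : R) : br (x + y) z = br x z + br y z := by
  unfold br; noncomm_ring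

theorem br_zero_right {R : Type*} [Ring R] (x : R) : br x 0 = 0 := by
  unfold br; simp

theorem br_zero_left {R : Type*} [Ring R] (x : R) : br 0 x = 0 := by
  unfold br; simp

theorem br_skew {R : Type*} [Ring R] (x y : R) : br x y = - br y x := by
  unfold br; noncomm_ring

theorem br_sum_right {R α : Type*} [Ring R] (s : Finset α) (x : R) (f : α → R) :
    br x (∑ i ∈ s, f i) = ∑ i ∈ s, br x (f i) := by
  classical
  induction s using Finset.induction_on with
  | empty => simp [br_zero_right]
  | insert a s ha ih => rw [Finset.sum_insert ha, Finset.sum_insert ha, br_add_right, ih]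

theorem br_sum_left {R α : Type*} [Ring R] (s : Finset α) (x : R) (f : α → R) :
    br (∑ i ∈ s, f i) x = ∑ i ∈ s, br (f i) x := by
  classical
  induction s using Finset.induction_on with
  | empty => simp [br_zero_left]
  | insert a s ha ih => rw [Finset.sum_insert ha, Finset.sum_insert ha, br_add_left, ih]

theorem jacobi {R : Type*} [Ring R] (x y z : R) : br x (br y z) = br (br x y) z + br y (br x z) := by
  unfold br; noncomm_ring

theorem br_smul_right {R : Type*} [Ring R] [Algebra F R] (c : F) (x y : R) :
    br x (c • y) = c • br x y := by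
  unfold br; rw [mul_smul_comm, smul_mul_assoc, smul_sub]

variable {R : Type*} [Ring R] [Algebra F R] (X : ι → ι → K →ₗ[F] R)

theorem H_off (h : Stb (fun i j a => X i j a)) {o k j : ι} (hk : k ≠ o) (hj : j ≠ o) (hkj : j ≠ k)
    (a b : K) :
    br (X o j b) (br (X o k a) (X k o 1)) = - X o j (a * b) := by
  have h1 : br (X o j b) (X o k a) = 0 := by
    unfold br
    rw [sub_eq_zero]
    exact h.comm0 o j o k b a hj.symm hk.symm hj hk.symm
  have h2 : br (X k o 1) (X o j b) = X k j (1 * b) := by
    unfold br
    exact h.comm3 k o j 1 b hk hj.symm hkj.symm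
  rw [jacobi, h1, br_zero_left, zero_add, br_skew (X o j b), h2, one_mul]
  have h3 : br (X o k a) (X k j b) = X o j (a * b) := by
    unfold br
    exact h.comm3 o k j a b hk.symm hkj.symm hj.symm
  rw [← h3]
  unfold br; noncomm_ring

theorem H_diag (h : Stb (fun i j a => X i j a)) {o k l : ι} (hk : k ≠ o) (hl : l ≠ o) (hkl : l ≠ k)
    (a b : K) :
    br (X o k b) (br (X o k a) (X k o 1)) = - (2 : F) • X o k (a * b) := by
  have e1 : X o k b = br (X o l b) (X l k 1) := by
    unfold br
    rw [h.comm3 o l k b 1 hl.symm hkl hk.symm, mul_one]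
  have h1 : br (X o l b) (br (X o k a) (X k o 1)) = - X o l (a * b) := H_off X h hk hl hkl a b
  have h2 : br (X l k 1) (br (X o k a) (X k o 1)) = - X l k a := by
    have h3 : br (X l k 1) (X o k a) = 0 := by
      unfold br
      rw [sub_eq_zero]
      exact h.comm0 l k o k 1 a hkl hk.symm hk hkl
    have h4 : br (X l k 1) (X k o 1) = X l o (1 * 1) := by
      unfold br
      exact h.comm3 l k o 1 1 hkl hk hl
    rw [jacobi, h3, br_zero_left, zero_add, h4, one_mul, br_skew]
    have h5 : br (X l o 1) (X o k a) = X l k (1 * a) := by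
      unfold br
      exact h.comm3 l o k 1 a hl hk.symm hkl
    rw [h5, one_mul]
  have h6 : br (X o l (a * b)) (X l k 1) = X o k (a * b) := by
    unfold br
    rw [h.comm3 o l k (a * b) 1 hl.symm hkl hk.symm, mul_one]
  have h7 : br (X o l b) (X l k a) = X o k (a * b) := by
    unfold br
    rw [h.comm3 o l k b a hl.symm hkl hk.symm, mul_comm]
  have h8 : ∀ x y z : R, br (br x y) z = br x (br y z) - br y (br x z) := by
    intro x y z; unfold br; noncomm_ring
  rw [e1, h8, h2, h1]
  have h9 : br (X o l b) (-X l k a) = - X o k (a * b) := by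
    rw [← h7]; unfold br; noncomm_ring
  have h10 : br (X l k 1) (-X o l (a * b)) = X o k (a * b) := by
    rw [← h6]; unfold br; noncomm_ring
  rw [h9, h10, neg_smul, two_smul]
  abel

/-- the row element -/
def row (o : ι) (ν : {j // j ≠ o} → K) : R := ∑ j : {j // j ≠ o}, X o j (ν j)

/-- the Cartan type element -/
def Hc (o k : ι) (a : K) : R := br (X o k a) (X k o 1)

/-- the column element; `l ≠ o` -/
noncomputable def col (o : ι) (l : {j // j ≠ o}) (c : {j // j ≠ o} → K) : R :=
  (∑ k : {j // j ≠ o}, if k = l then 0 else X k l (c k)) - Hc X o l (c l) +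
    ((Fintype.card ι : F)⁻¹) • ∑ k : {j // j ≠ o}, Hc X o k (c l)

theorem row_add (o : ι) (u v : {j // j ≠ o} → K) : row X o (u + v) = row X o u + row X o v := by
  unfold row
  rw [← Finset.sum_add_distrib]
  exact Finset.sum_congr rfl fun j _ => by rw [Pi.add_apply, map_add]

theorem row_smul (o : ι) (t : F) (u : {j // j ≠ o} → K) : row X o (t • u) = t • row X o u := by
  unfold row
  rw [Finset.smul_sum]
  exact Finset.sum_congr rfl fun j _ => by rw [Pi.smul_apply, map_smul]

theorem Hc_add (o k : ι) (a b : K) : Hc X o k (a + b) = Hc X o k a + Hc X o k b := by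
  unfold Hc
  rw [map_add, br_add_left]

theorem Hc_smul (o k : ι) (t : F) (a : K) : Hc X o k (t • a) = t • Hc X o k a := by
  unfold Hc br
  rw [map_smul, mul_smul_comm, smul_mul_assoc, smul_sub]

theorem col_add (o : ι) (l : {j // j ≠ o}) (u v : {j // j ≠ o} → K) :
    col X o l (u + v) = col X o l u + col X o l v := by
  unfold col
  simp only [Pi.add_apply, map_add, Hc_add, Finset.sum_add_distrib, smul_add]
  have : (∑ k : {j // j ≠ o}, if k = l then (0 : R) else X k l (u k) + X k l (v k)) =
      (∑ k : {j // j ≠ o}, if k = l then (0 : R) else X k l (u k)) +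
      (∑ k : {j // j ≠ o}, if k = l then (0 : R) else X k l (v k)) := by
    rw [← Finset.sum_add_distrib]
    refine Finset.sum_congr rfl fun k _ => ?_
    split_ifs <;> simp
  rw [this]
  abel

theorem col_smul (o : ι) (l : {j // j ≠ o}) (t : F) (u : {j // j ≠ o} → K) :
    col X o l (t • u) = t • col X o l u := by
  unfold col
  simp only [Pi.smul_apply, map_smul, Hc_smul, smul_add, smul_sub]
  have : (∑ k : {j // j ≠ o}, if k = l then (0 : R) else t • X k l (u k)) =
      t • (∑ k : {j // j ≠ o}, if k = l then (0 : R) else X k l (u k)) := by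
    rw [Finset.smul_sum]
    refine Finset.sum_congr rfl fun k _ => ?_
    split_ifs <;> simp
  rw [this, ← Finset.smul_sum, smul_comm]

theorem br_row_row (h : Stb (fun i j a => X i j a)) (o : ι) (u v : {j // j ≠ o} → K) :
    br (row X o u) (row X o v) = 0 := by
  unfold row
  rw [br_sum_left]
  refine Finset.sum_eq_zero fun j _ => ?_
  rw [br_sum_right]
  refine Finset.sum_eq_zero fun k _ => ?_
  unfold br
  rw [sub_eq_zero]
  exact h.comm0 o j o k _ _ j.2.symm k.2.symm j.2 k.2.symm

theorem br_row_X (h : Stb (fun i j a => X i j a)) (o : ι) (k l : {j // j ≠ o}) (hkl : k ≠ l)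
    (ν : {j // j ≠ o} → K) (c : K) :
    br (row X o ν) (X k l c) = X o l (ν k * c) := by
  unfold row
  rw [br_sum_left, Finset.sum_eq_single k]
  · unfold br
    exact h.comm3 o k l _ _ k.2.symm (fun h => hkl (Subtype.ext h)) l.2.symm
  · intro j _ hj
    unfold br
    rw [sub_eq_zero]
    exact h.comm0 o j k l _ _ j.2.symm (fun h => hkl (Subtype.ext h))
      (fun h => hj (Subtype.ext h)) l.2.symm
  · intro hk
    exact absurd (Finset.mem_univ k) hk

theorem br_row_Hc (h : Stb (fun i j a => X i j a)) (hn : 3 ≤ Fintype.card ι) (o : ι)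
    (k : {j // j ≠ o}) (ν : {j // j ≠ o} → K) (c : K) :
    br (row X o ν) (Hc X o k c) = - row X o (fun j => c * ν j) - X o k (c * ν k) := by
  classical
  obtain ⟨l, hl⟩ : ∃ l : {j // j ≠ o}, l ≠ k := by
    have h1 : Fintype.card {j // j ≠ o} = Fintype.card ι - 1 := by
      rw [Fintype.card_subtype_compl, Fintype.card_subtype_eq]
    have h2 : 1 < Fintype.card {j // j ≠ o} := by omega
    exact Fintype.exists_ne_of_one_lt_card h2 k
  have hterm : ∀ j : {j // j ≠ o}, br (X o j (ν j)) (Hc X o k c) =
      - X o j (c * ν j) - (if j = k then X o k (c * ν k) else 0) := by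
    intro j
    unfold Hc
    by_cases hjk : j = k
    · subst hjk
      rw [H_diag X h j.2 l.2 (fun h => hl (Subtype.ext h)), if_pos rfl, neg_smul, two_smul]
      abel
    · rw [H_off X h k.2 j.2 (fun h => hjk (Subtype.ext h)), if_neg hjk, sub_zero]
  unfold row
  rw [br_sum_left, Finset.sum_congr rfl fun j _ => hterm j, Finset.sum_sub_distrib,
    Finset.sum_neg_distrib, Finset.sum_ite_eq' Finset.univ k, if_pos (Finset.mem_univ _)]

theorem br_row_col (h : Stb (fun i j a => X i j a)) (hn : 3 ≤ Fintype.card ι) (o : ι)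
    (l : {j // j ≠ o}) (ν c : {j // j ≠ o} → K) :
    br (row X o ν) (col X o l c) = X o l (∑ k, c k * ν k) := by
  classical
  have hN : (Fintype.card ι : F) ≠ 0 := by
    have : Fintype.card ι ≠ 0 := by omega
    exact_mod_cast this
  have hcard : (Fintype.card {j // j ≠ o} : F) = (Fintype.card ι : F) - 1 := by
    rw [Fintype.card_subtype_compl, Fintype.card_subtype_eq, Nat.cast_sub (by omega)]
    simp
  unfold col
  rw [br_add_right, br_sub_right, br_row_Hc X h hn, br_sum_right, br_smul_right, br_sum_right]
  have h1 : (∑ k : {j // j ≠ o}, br (row X o ν) (if k = l then 0 else X k l (c k))) =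
      ∑ k : {j // j ≠ o}, (if k = l then 0 else X o l (ν k * c k)) := by
    refine Finset.sum_congr rfl fun k _ => ?_
    split_ifs with hk
    · exact br_zero_right _
    · exact br_row_X X h o k l hk ν (c k)
  have h2 : (∑ k : {j // j ≠ o}, br (row X o ν) (Hc X o k (c l))) =
      - ((Fintype.card ι : F) • row X o (fun j => c l * ν j)) := by
    rw [Finset.sum_congr rfl fun k _ => br_row_Hc X h hn o k ν (c l), Finset.sum_sub_distrib,
      Finset.sum_const, Finset.card_univ]
    have h3 : (∑ k : {j // j ≠ o}, X o k (c l * ν k)) = row X o (fun j => c l * ν j) := rfl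
    rw [h3, ← Nat.cast_smul_eq_nsmul F, hcard, sub_smul, one_smul, smul_neg]
    abel
  rw [h1, h2, smul_neg, smul_smul, inv_mul_cancel₀ hN, one_smul]
  have h4 : (∑ k : {j // j ≠ o}, (if k = l then (0 : R) else X o l (ν k * c k))) =
      X o l (∑ k, c k * ν k) - X o l (c l * ν l) := by
    have e1 : (∑ k : {j // j ≠ o}, (if k = l then (0 : R) else X o l (ν k * c k))) =
        ∑ k ∈ Finset.univ.erase l, X o l (c k * ν k) := by
      rw [← Finset.add_sum_erase _ _ (Finset.mem_univ l), if_pos rfl, zero_add]
      refine Finset.sum_congr rfl fun k hk => ?_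
      rw [if_neg (Finset.ne_of_mem_erase hk), mul_comm]
    have e2 : X o l (∑ k, c k * ν k) = X o l (c l * ν l) +
        ∑ k ∈ Finset.univ.erase l, X o l (c k * ν k) := by
      rw [map_sum, ← Finset.add_sum_erase _ _ (Finset.mem_univ l)]
    rw [e1, e2, add_sub_cancel_left]
  rw [h4]
  abel


theorem finrank_ker_coprod_le {F V E : Type*} [Field F] [AddCommGroup V] [Module F V]
    [FiniteDimensional F V] [AddCommGroup E] [Module F E] (f g : V →ₗ[F] E) (P : Submodule F V)
    (hP : ∀ u c, f u + g c = 0 → c ∈ P) :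
    finrank F (LinearMap.ker (f.coprod g)) ≤ finrank F (LinearMap.ker f) + finrank F P := by
  let s : LinearMap.ker (f.coprod g) →ₗ[F] V :=
    (LinearMap.snd F V V).comp (LinearMap.ker (f.coprod g)).subtype
  have h1 := LinearMap.finrank_range_add_finrank_ker s
  have h2 : finrank F (LinearMap.range s) ≤ finrank F P := by
    apply Submodule.finrank_mono
    rintro _ ⟨⟨⟨u, c⟩, hx⟩, rfl⟩
    have : f u + g c = 0 := by simpa using hx
    exact hP u c this
  have h3 : finrank F (LinearMap.ker s) ≤ finrank F (LinearMap.ker f) := by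
    let t : LinearMap.ker s →ₗ[F] LinearMap.ker f :=
      LinearMap.codRestrict _ (((LinearMap.fst F V V).comp
        (LinearMap.ker (f.coprod g)).subtype).comp (LinearMap.ker s).subtype) (by
          rintro ⟨⟨⟨u, c⟩, hx⟩, hc⟩
          have h4 : f u + g c = 0 := by simpa using hx
          have h5 : c = 0 := hc
          rw [h5, map_zero, add_zero] at h4
          exact h4)
    refine LinearMap.finrank_le_finrank_of_injective (f := t) ?_
    rintro ⟨⟨⟨u, c⟩, hx⟩, hc⟩ ⟨⟨⟨u', c'⟩, hx'⟩, hc'⟩ hE
    have h5 : c = 0 := hc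
    have h6 : c' = 0 := hc'
    have h7 : u = u' := congrArg Subtype.val hE
    subst h5 h6 h7
    rfl
  omega

/-- the pairing `(ν, c) ↦ τ (∑ c k * ν k)` -/
noncomputable def pairing {J : Type*} [Fintype J] (τ : K →ₗ[F] F) :
    (J → K) →ₗ[F] Module.Dual F (J → K) :=
  LinearMap.mk₂ F (fun ν c => τ (∑ k, c k * ν k))
    (fun u u' c => by
      simp only [Pi.add_apply, mul_add, Finset.sum_add_distrib, map_add])
    (fun t u c => by
      simp only [Pi.smul_apply, mul_smul_comm, ← Finset.smul_sum, map_smul])
    (fun u c c' => by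
      simp only [Pi.add_apply, add_mul, Finset.sum_add_distrib, map_add])
    (fun t u c => by
      simp only [Pi.smul_apply, smul_mul_assoc, ← Finset.smul_sum, map_smul])

theorem pairing_apply {J : Type*} [Fintype J] (τ : K →ₗ[F] F) (ν c : J → K) :
    pairing τ ν c = τ (∑ k, c k * ν k) := rfl

/-- the largest ideal in the kernel of `τ` -/
def kerIdeal (τ : K →ₗ[F] F) : Ideal K where
  carrier := {a | ∀ b, τ (b * a) = 0}
  add_mem' := fun {a b} ha hb c => by rw [mul_add, map_add, ha, hb, add_zero]
  zero_mem' := fun b => by rw [mul_zero, map_zero]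
  smul_mem' := fun c a ha b => by rw [smul_eq_mul, ← mul_assoc, ha]

theorem kerIdeal_ne_top (τ : K →ₗ[F] F) (h : τ ≠ 0) : kerIdeal τ ≠ ⊤ := by
  intro htop
  apply h
  ext b
  have : (1 : K) ∈ kerIdeal τ := by rw [htop]; trivial
  have := this b
  rwa [mul_one] at this

theorem finrank_range_pairing {J : Type*} [Fintype J] [DecidableEq J] (τ : K →ₗ[F] F) :
    finrank F (LinearMap.range (pairing (J := J) τ)) =
      Fintype.card J * finrank F (K ⧸ kerIdeal τ) := by
  let q : (J → K) →ₗ[F] (J → K ⧸ kerIdeal τ) :=
    LinearMap.pi fun j => (Ideal.Quotient.mkₐ F (kerIdeal τ)).toLinearMap.comp (LinearMap.proj j)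
  have hq : Function.Surjective q := by
    intro y
    choose x hx using fun j => Ideal.Quotient.mk_surjective (y j)
    exact ⟨x, funext hx⟩
  have hker : LinearMap.ker (pairing (J := J) τ) = LinearMap.ker q := by
    ext ν
    rw [LinearMap.mem_ker, LinearMap.mem_ker]
    constructor
    · intro h1
      funext j
      change Ideal.Quotient.mk (kerIdeal τ) (ν j) = 0
      rw [Ideal.Quotient.eq_zero_iff_mem]
      intro b
      have h2 := LinearMap.congr_fun h1 (Pi.single j b)
      rw [pairing_apply, Finset.sum_eq_single j] at h2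
      · rwa [Pi.single_eq_same] at h2
      · intro k _ hk
        rw [Pi.single_eq_of_ne hk, zero_mul]
      · intro hj
        exact absurd (Finset.mem_univ j) hj
    · intro h1
      refine LinearMap.ext fun c => ?_
      rw [pairing_apply, map_sum]
      refine Finset.sum_eq_zero fun k _ => ?_
      have h2 := congrFun h1 k
      change Ideal.Quotient.mk (kerIdeal τ) (ν k) = 0 at h2
      rw [Ideal.Quotient.eq_zero_iff_mem] at h2
      exact h2 (c k)
  have hrq : finrank F (LinearMap.range q) = Fintype.card J * finrank F (K ⧸ kerIdeal τ) := by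
    rw [LinearMap.range_eq_top.2 hq, finrank_top, Module.finrank_pi_fintype, Finset.sum_const,
      Finset.card_univ, smul_eq_mul]
  have hrn1 := LinearMap.finrank_range_add_finrank_ker q
  have hrn2 := LinearMap.finrank_range_add_finrank_ker (pairing (J := J) τ)
  rw [hker] at hrn2
  omega

theorem finrank_coann_le {V : Type*} [AddCommGroup V] [Module F V] [FiniteDimensional F V]
    (γ : V →ₗ[F] Module.Dual F V) (N : Submodule F V) :
    finrank F N + finrank F (N.map γ).dualCoannihilator + finrank F (LinearMap.range γ) ≤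
      2 * finrank F V := by
  have hrn2 := LinearMap.finrank_range_add_finrank_ker γ
  have hco := Subspace.finrank_add_finrank_dualCoannihilator_eq (N.map γ)
  have hrn3 := LinearMap.finrank_range_add_finrank_ker (γ.domRestrict N)
  have h4 : LinearMap.range (γ.domRestrict N) = N.map γ := by
    rw [LinearMap.range_domRestrict]
  rw [h4] at hrn3
  have h5 : finrank F (LinearMap.ker (γ.domRestrict N)) ≤ finrank F (LinearMap.ker γ) := by
    let t : LinearMap.ker (γ.domRestrict N) →ₗ[F] LinearMap.ker γ :=
      LinearMap.codRestrict _ (N.subtype.comp (LinearMap.ker (γ.domRestrict N)).subtype) (by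
        rintro ⟨⟨u, hu⟩, hu'⟩
        exact hu')
    refine LinearMap.finrank_le_finrank_of_injective (f := t) ?_
    rintro ⟨⟨u, hu⟩, hu'⟩ ⟨⟨v, hv⟩, hv'⟩ hE
    have : u = v := congrArg Subtype.val hE
    subst this
    rfl
  omega

theorem lemC_row (X : ι → ι → K →ₗ[F] Module.End F E) (h : Stb (fun i j a => X i j a))
    (hn : 3 ≤ Fintype.card ι) (e : ℕ) (hK : ∀ I : Ideal K, I ≠ ⊤ → e ≤ finrank F (K ⧸ I))
    (v₀ : E) (W : Submodule F E) [FiniteDimensional F W]
    (hW : finrank F W < e * (Fintype.card ι - 1)) (o : ι)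
    (hW1 : ∀ j k a, j ≠ k → X j k a v₀ ∈ W)
    (hW2 : ∀ k a b, k ≠ o → (br (X o k a) (X k o b)) v₀ ∈ W) :
    ∀ j a, j ≠ o → X o j a v₀ = 0 := by
  classical
  intro j₀ a₀ hj₀
  by_contra hne
  let l : {j // j ≠ o} := ⟨j₀, hj₀⟩
  have hcard : Fintype.card {j // j ≠ o} = Fintype.card ι - 1 := by
    rw [Fintype.card_subtype_compl, Fintype.card_subtype_eq]
  let f : ({j // j ≠ o} → K) →ₗ[F] E :=
    { toFun := fun ν => row X o ν v₀
      map_add' := fun u v => by rw [row_add, LinearMap.add_apply]
      map_smul' := fun t u => by rw [row_smul, LinearMap.smul_apply, RingHom.id_apply] }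
  let g : ({j // j ≠ o} → K) →ₗ[F] E :=
    { toFun := fun c => col X o l c v₀
      map_add' := fun u v => by rw [col_add, LinearMap.add_apply]
      map_smul' := fun t u => by rw [col_smul, LinearMap.smul_apply, RingHom.id_apply] }
  have hfW : ∀ ν, f ν ∈ W := by
    intro ν
    change (∑ j : {j // j ≠ o}, X o j (ν j)) v₀ ∈ W
    rw [LinearMap.sum_apply]
    exact Submodule.sum_mem _ fun j _ => hW1 _ _ _ j.2.symm
  have hHW : ∀ (k : {j // j ≠ o}) (a : K), (Hc X o k a) v₀ ∈ W := fun k a => hW2 k a 1 k.2
  have hgW : ∀ ν, g ν ∈ W := by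
    intro c
    change (col X o l c) v₀ ∈ W
    unfold col
    rw [LinearMap.add_apply, LinearMap.sub_apply, LinearMap.smul_apply, LinearMap.sum_apply,
      LinearMap.sum_apply]
    refine Submodule.add_mem _ (Submodule.sub_mem _ (Submodule.sum_mem _ fun k _ => ?_) (hHW _ _))
      (Submodule.smul_mem _ _ (Submodule.sum_mem _ fun k _ => hHW _ _))
    split_ifs with hk
    · simp
    · exact hW1 _ _ _ (fun h => hk (Subtype.ext h))
  -- the functional
  let Nl : Submodule F K := LinearMap.ker ((LinearMap.applyₗ v₀).comp (X o l))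
  have hNl : Nl < ⊤ := by
    rw [lt_top_iff_ne_top]
    intro htop
    have : a₀ ∈ Nl := by rw [htop]; trivial
    exact hne this
  obtain ⟨τ, hτ0, hτ⟩ := Submodule.exists_le_ker_of_lt_top Nl hNl
  have hI := hK (kerIdeal τ) (kerIdeal_ne_top τ hτ0)
  have hr := finrank_range_pairing (J := {j // j ≠ o}) τ
  have hP : ∀ u c, f u + g c = 0 →
      c ∈ ((LinearMap.ker f).map (pairing τ)).dualCoannihilator := by
    intro u c huc
    rw [Submodule.mem_dualCoannihilator]
    rintro _ ⟨ν, hν, rfl⟩
    rw [pairing_apply]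
    have h0 : (row X o u + col X o l c) v₀ = 0 := huc
    have h1 : row X o ν v₀ = 0 := hν
    have h2 : (br (row X o ν) (row X o u + col X o l c)) v₀ = 0 := by
      unfold br
      rw [LinearMap.sub_apply, Module.End.mul_apply, Module.End.mul_apply, h0, h1, map_zero,
        map_zero, sub_zero]
    rw [br_add_right, br_row_row X h, zero_add, br_row_col X h hn] at h2
    exact hτ h2
  have hmain := finrank_ker_coprod_le f g _ hP
  have hco := finrank_coann_le (pairing τ) (LinearMap.ker f)
  have hrn4 := LinearMap.finrank_range_add_finrank_ker (f.coprod g)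
  have h6 : finrank F (LinearMap.range (f.coprod g)) ≤ finrank F W := by
    apply Submodule.finrank_mono
    rintro _ ⟨⟨u, c⟩, rfl⟩
    rw [LinearMap.coprod_apply]
    exact W.add_mem (hfW u) (hgW c)
  have h7 : finrank F (({j // j ≠ o} → K) × ({j // j ≠ o} → K)) =
      finrank F ({j // j ≠ o} → K) + finrank F ({j // j ≠ o} → K) := Module.finrank_prod
  have h8 : e * (Fintype.card ι - 1) ≤ Fintype.card {j // j ≠ o} * finrank F (K ⧸ kerIdeal τ) := by
    rw [mul_comm, hcard]
    exact Nat.mul_le_mul_left _ hI
  omega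

/-- **Lemma C** -/
theorem lemC (X : ι → ι → K →ₗ[F] Module.End F E) (h : Stb (fun i j a => X i j a))
    (hn : 3 ≤ Fintype.card ι) (e : ℕ) (hK : ∀ I : Ideal K, I ≠ ⊤ → e ≤ finrank F (K ⧸ I))
    (v₀ : E) (W : Submodule F E) [FiniteDimensional F W]
    (hW : finrank F W < e * (Fintype.card ι - 1))
    (hW1 : ∀ j k a, j ≠ k → X j k a v₀ ∈ W)
    (hW2 : ∀ j k a b, j ≠ k → (br (X j k a) (X k j b)) v₀ ∈ W) :
    ∀ i j a, i ≠ j → X i j a v₀ = 0 :=
  fun i j a hij => lemC_row X h hn e hK v₀ W hW i hW1 (fun k a b hk => hW2 i k a b hk.symm) j a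
    hij.symm

end LemC

end Pool.Agent.Y328
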