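import Pool.Agent.Y328.PRed
import Pool.Agent.Y328.GEl2

/-!
# Finiteness of the image of an arithmetic group acting on a real algebra of small dimension
-/

set_option autoImplicit false
set_option linter.unusedSectionVars false

namespace Pool.Agent.Y328

open NumberField Matrix

section

variable {ι : Type*} [Fintype ι] [DecidableEq ι] {D : Type*} [CommRing D]

/-- elementary matrices as elements of the elementary group; `1` on the diagonal -/
def ee (i j : ι) (a : D) : Elem ι D :=
  if h : i ≠ j then ⟨SpecialLinearGroup.transvection h a, trans_mem h a⟩ else 1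

theorem ee_eq {i j : ι} (h : i ≠ j) (a : D) :
    ee i j a = (⟨SpecialLinearGroup.transvection h a, trans_mem h a⟩ : Elem ι D) := dif_pos h

theorem ee_stb : GStb 1 (ee : ι → ι → D → Elem ι D) := by
  refine ⟨fun i j a b hij => ?_, fun i j l a b hij hjl hil => ?_,
    fun i j l q a b hij hlq hjl hiq => ?_⟩
  · rw [ee_eq hij, ee_eq hij, ee_eq hij]
    exact Subtype.ext (SpecialLinearGroup.transvection_add hij a b)
  · rw [ee_eq hij, ee_eq hjl, ee_eq hil]
    apply Subtype.ext
    change SpecialLinearGroup.transvection hij a * SpecialLinearGroup.transvection hjl b =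
      SpecialLinearGroup.transvection hil ((1 : ℕ) * (a * b)) *
        (SpecialLinearGroup.transvection hjl b * SpecialLinearGroup.transvection hij a)
    rw [Nat.cast_one, one_mul]
    exact trans_commutator hil hij hjl a b
  · rw [ee_eq hij, ee_eq hlq]
    apply Subtype.ext
    change SpecialLinearGroup.transvection hij a * SpecialLinearGroup.transvection hlq b =
      SpecialLinearGroup.transvection hlq b * SpecialLinearGroup.transvection hij a
    apply Subtype.ext
    change (1 + Matrix.single i j a) * (1 + Matrix.single l q b) =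
      (1 + Matrix.single l q b) * (1 + Matrix.single i j a)
    simp only [add_mul, mul_add, one_mul, mul_one, single_mul_single_of_ne _ _ _ _ hjl,
      single_mul_single_of_ne _ _ _ _ hiq.symm]
    abel

theorem GStb.map {ι O G H : Type*} [CommRing O] [Group G] [Group H] {c : ℕ} {g : ι → ι → O → G}
    (hg : GStb c g) (f : G →* H) : GStb c fun i j a => f (g i j a) := by
  refine ⟨fun i j a b hij => ?_, fun i j l a b hij hjl hil => ?_,
    fun i j l q a b hij hlq hjl hiq => ?_⟩
  · rw [hg.add _ _ _ _ hij, map_mul]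
  · rw [← map_mul, hg.comm3 _ _ _ _ _ hij hjl hil, map_mul, map_mul]
  · rw [← map_mul, hg.comm0 _ _ _ _ _ _ hij hlq hjl hiq, map_mul]

theorem GStb.scale {ι O G : Type*} [CommRing O] [Group G] {c : ℕ} {g : ι → ι → O → G}
    (hg : GStb c g) (m : ℕ) : GStb (c * m) fun i j a => g i j (m * a) := by
  refine ⟨fun i j a b hij => ?_, fun i j l a b hij hjl hil => ?_,
    fun i j l q a b hij hlq hjl hiq => ?_⟩
  · rw [mul_add, hg.add _ _ _ _ hij]
  · rw [hg.comm3 _ _ _ _ _ hij hjl hil]
    congr 2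
    push_cast
    ring
  · exact hg.comm0 _ _ _ _ _ _ hij hlq hjl hiq

end

/-- the triviality property of Steinberg families in a group -/
def StbTriv (ι O G : Type*) [CommRing O] [Group G] : Prop :=
  ∀ (c : ℕ) (g : ι → ι → O → G), 0 < c → GStb c g →
    ∃ M : ℕ, 0 < M ∧ ∀ i j (a : O), i ≠ j → g i j (M * a) = 1

theorem range_finite_of_index {G H : Type*} [Group G] [Group H] (f : G →* H)
    (h : f.ker.index ≠ 0) : (Set.range f).Finite := by
  rw [Subgroup.index_ker] at h
  have h1 : Finite f.range := Nat.finite_of_card_ne_zero h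
  exact Set.toFinite (f.range : Set H)

theorem assemble {ι : Type*} [Fintype ι] [DecidableEq ι] (hn : 3 ≤ Fintype.card ι)
    {O : Type*} [CommRing O] (hO : ∀ q : ℕ, 0 < q → Finite (O ⧸ Ideal.span {(q : O)}))
    {G : Type*} [Group G] (i : Elem ι O →* G) (Γ : Subgroup G)
    (h1 : Γ.relIndex i.range ≠ 0) (h2 : i.range.relIndex Γ ≠ 0)
    {H : Type*} [Group H] (hH : StbTriv ι O H) (Φ : Γ →* H) : (Set.range Φ).Finite := by
  classical
  let Δ : Subgroup (Elem ι O) := Γ.comap i
  have hΔ : Δ.FiniteIndex := ⟨by rw [Subgroup.index_comap]; exact h1⟩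
  let Δ' : Subgroup (Elem ι O) := Δ.normalCore
  have hΔ' : Δ'.FiniteIndex := inferInstance
  obtain ⟨m, hm⟩ : ∃ m, m = Δ'.index := ⟨_, rfl⟩
  have hm0 : 0 < m := by rw [hm]; exact Nat.pos_of_ne_zero hΔ'.index_ne_zero
  have hmem : ∀ (x y : ι) (a : O), x ≠ y → ee x y (m * a) ∈ Δ' := by
    intro x y a hxy
    rw [ee_stb.nsmul hxy, hm]
    exact Δ'.pow_index_mem _
  let g₀ : ι → ι → O → Δ' := fun x y a => if h : x ≠ y then ⟨ee x y (m * a), hmem x y a h⟩ else 1
  have hg₀ : ∀ x y a, x ≠ y → ((g₀ x y a : Δ') : Elem ι O) = ee x y (m * a) := by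
    intro x y a hxy
    simp only [g₀, dif_pos hxy]
  have hgS : GStb (1 * m) g₀ := by
    have h3 := ee_stb (ι := ι) (D := O) |>.scale m
    refine ⟨fun i j a b hij => ?_, fun i j l a b hij hjl hil => ?_,
      fun i j l q a b hij hlq hjl hiq => ?_⟩
    · apply Subtype.ext
      rw [Subgroup.coe_mul, hg₀ _ _ _ hij, hg₀ _ _ _ hij, hg₀ _ _ _ hij]
      exact h3.add i j a b hij
    · apply Subtype.ext
      rw [Subgroup.coe_mul, Subgroup.coe_mul, Subgroup.coe_mul, hg₀ _ _ _ hij, hg₀ _ _ _ hjl,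
        hg₀ _ _ _ hil]
      exact h3.comm3 i j l a b hij hjl hil
    · apply Subtype.ext
      rw [Subgroup.coe_mul, Subgroup.coe_mul, hg₀ _ _ _ hij, hg₀ _ _ _ hlq]
      exact h3.comm0 i j l q a b hij hlq hjl hiq
  rw [one_mul] at hgS
  have hjmem : ∀ x : Δ', i x.1 ∈ Γ := fun x => Subgroup.normalCore_le Δ x.2
  let j : Δ' →* Γ := (i.comp Δ'.subtype).codRestrict Γ hjmem
  let f : Elem ι O → (Δ' →* H) := fun s => (Φ.comp j).comp (MulAut.conjNormal s : Δ' ≃* Δ').toMonoidHom
  have hf : ∀ s, ∃ M : ℕ, 0 < M ∧ ∀ x y (a : O), x ≠ y → f s (g₀ x y (M * a)) = 1 := fun s =>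
    hH m _ hm0 (hgS.map (f s))
  choose M hM0 hM using hf
  have hfin : Finite (Elem ι O ⧸ Δ') := inferInstance
  have hfin' := Fintype.ofFinite (Elem ι O ⧸ Δ')
  obtain ⟨N, hN⟩ : ∃ N : ℕ, N = ∏ x : Elem ι O ⧸ Δ', M x.out := ⟨_, rfl⟩
  have hN0 : 0 < N := by rw [hN]; exact Finset.prod_pos fun x _ => hM0 _
  have hall : ∀ s x y (a : O), x ≠ y → f s (g₀ x y (N * a)) = 1 := by
    intro s x y a hxy
    obtain ⟨h, hh⟩ := QuotientGroup.mk_out_eq_mul Δ' s
    have h3 : f (QuotientGroup.mk (s := Δ') s).out (g₀ x y (N * a)) = 1 := by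
      have h4 : (N : O) * a = M (QuotientGroup.mk (s := Δ') s).out *
          ((∏ z ∈ Finset.univ.erase (QuotientGroup.mk (s := Δ') s), M z.out : ℕ) * a) := by
        rw [hN, ← Finset.mul_prod_erase _ _ (Finset.mem_univ (QuotientGroup.mk (s := Δ') s))]
        push_cast
        ring
      rw [h4]
      exact hM _ x y _ hxy
    have h5 : ∀ z : Δ', f s z = f (QuotientGroup.mk (s := Δ') s).out (h⁻¹ * z * h) := by
      intro z
      change Φ (j (MulAut.conjNormal s z)) =
        Φ (j (MulAut.conjNormal (QuotientGroup.mk (s := Δ') s).out (h⁻¹ * z * h)))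
      congr 2
      apply Subtype.ext
      rw [MulAut.conjNormal_apply, MulAut.conjNormal_apply, hh]
      push_cast
      group
    rw [h5, map_mul, map_mul, h3, map_inv]
    group
  let L : Subgroup G := Φ.ker.map Γ.subtype
  let K₀ : Subgroup (Elem ι O) := L.comap i
  let K : Subgroup (Elem ι O) := K₀.normalCore
  have hπ : ∀ (x y : ι) (h : x ≠ y), ∀ z ∈ Ideal.span {((m * N : ℕ) : O)},
      QuotientGroup.mk' K ⟨_, trans_mem h z⟩ = 1 := by
    intro x y h z hz
    rw [Ideal.mem_span_singleton] at hz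
    obtain ⟨a, rfl⟩ := hz
    rw [QuotientGroup.mk'_apply, QuotientGroup.eq_one_iff]
    intro s
    have h6 : (⟨_, trans_mem h (((m * N : ℕ) : O) * a)⟩ : Elem ι O) = g₀ x y (N * a) := by
      rw [hg₀ _ _ _ h, ee_eq h]
      congr 2
      push_cast
      ring
    rw [h6]
    have h7 := hall s x y a h
    change i (s * _ * s⁻¹) ∈ L
    refine ⟨j (MulAut.conjNormal s (g₀ x y (N * a))), h7, ?_⟩
    change i ((MulAut.conjNormal s (g₀ x y (N * a)) : Δ') : Elem ι O) = _
    rw [MulAut.conjNormal_apply]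
  have hfinI := hO (m * N) (Nat.mul_pos hm0 hN0)
  have hfinQ := finite_quotient hn (Ideal.span {((m * N : ℕ) : O)}) (QuotientGroup.mk' K)
    (QuotientGroup.mk'_surjective K) hπ
  have hK : K.index ≠ 0 := Subgroup.index_ne_zero_of_finite
  have hK₀ : K₀.index ≠ 0 := by
    intro h0
    exact hK (Nat.eq_zero_of_zero_dvd (h0 ▸ Subgroup.index_dvd_of_le (Subgroup.normalCore_le K₀)))
  rw [Subgroup.index_comap] at hK₀
  have hL : L.relIndex Γ ≠ 0 := Subgroup.relIndex_ne_zero_trans hK₀ h2
  apply range_finite_of_index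
  have h8 : L.subgroupOf Γ = Φ.ker := by
    ext x
    rw [Subgroup.mem_subgroupOf]
    constructor
    · rintro ⟨y, hy, e⟩
      have : y = x := Subtype.ext e
      exact this ▸ hy
    · intro hx
      exact ⟨x, hx, rfl⟩
  unfold Subgroup.relIndex at hL
  rw [h8] at hL
  exact hL

end Pool.Agent.Y328
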