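import Pool.Agent.Y328.PLog

/-!
# The dual of a ring with a group acting trivially modulo `p`
-/

set_option autoImplicit false
set_option linter.unusedSectionVars false

namespace Pool.Agent.Y328

open Finset

section Pad

variable {p : ℕ} [hp : Fact p.Prime]

theorem padic_sep (x : ℤ_[p]) (h : ∀ N : ℕ, ∃ y, x = (p : ℤ_[p]) ^ N * y) : x = 0 := by
  by_contra hx
  have hu : ¬ IsUnit (p : ℤ_[p]) := PadicInt.prime_p.not_isUnit
  obtain ⟨n, hn⟩ := FiniteMultiplicity.of_not_isUnit hu hx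
  obtain ⟨y, hy⟩ := h (n + 1)
  exact hn ⟨y, hy⟩

theorem padic_summable (s : ℕ → ℤ_[p]) : Summable fun j => (p : ℤ_[p]) ^ j * s j := by
  refine Summable.of_norm_bounded (g := fun j : ℕ => ((p : ℝ)⁻¹) ^ j) ?_ ?_
  · apply summable_geometric_of_lt_one
    · positivity
    · have : (1 : ℝ) < p := by exact_mod_cast hp.1.one_lt
      exact inv_lt_one_of_one_lt₀ this
  · intro j
    rw [norm_mul, norm_pow, PadicInt.norm_p]
    have := PadicInt.norm_le_one (s j)
    calc ((p : ℝ)⁻¹) ^ j * ‖s j‖ ≤ ((p : ℝ)⁻¹) ^ j * 1 := by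
          apply mul_le_mul_of_nonneg_left this (by positivity)
      _ = _ := mul_one _

/-- the dual -/
abbrev Du (p : ℕ) [Fact p.Prime] (B : Type*) [AddCommGroup B] := B →+ ℤ_[p]

variable {B : Type*} [AddCommGroup B]

theorem end_cast_apply (k : ℕ) (r : Module.End ℤ_[p] (Du p B)) (v : Du p B) (b : B) :
    (((k : ℕ) : Module.End ℤ_[p] (Du p B)) * r) v b = (k : ℤ_[p]) * r v b := by
  rw [Module.End.mul_apply, Module.End.natCast_apply, ← Nat.cast_smul_eq_nsmul ℤ_[p],
    AddMonoidHom.smul_apply, smul_eq_mul]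

theorem end_pow_apply (k : ℕ) (r : Module.End ℤ_[p] (Du p B)) (v : Du p B) (b : B) :
    ((p : Module.End ℤ_[p] (Du p B)) ^ k * r) v b = (p : ℤ_[p]) ^ k * r v b := by
  rw [← Nat.cast_pow, end_cast_apply, Nat.cast_pow]

/-- the sum `∑ p ^ j s (N + j)` of operators -/
noncomputable def opSum (s : ℕ → Module.End ℤ_[p] (Du p B)) : Module.End ℤ_[p] (Du p B) where
  toFun v :=
    { toFun := fun b => ∑' j, (p : ℤ_[p]) ^ j * s j v b
      map_zero' := by simp
      map_add' := fun a b => by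
        rw [← (padic_summable fun j => s j v a).tsum_add (padic_summable fun j => s j v b)]
        refine tsum_congr fun j => ?_
        rw [map_add, mul_add] }
  map_add' u v := by
    ext b
    change ∑' j, (p : ℤ_[p]) ^ j * s j (u + v) b = ∑' j, (p : ℤ_[p]) ^ j * s j u b +
      ∑' j, (p : ℤ_[p]) ^ j * s j v b
    rw [← (padic_summable fun j => s j u b).tsum_add (padic_summable fun j => s j v b)]
    refine tsum_congr fun j => ?_
    rw [map_add, AddMonoidHom.add_apply, mul_add]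
  map_smul' t u := by
    ext b
    change ∑' j, (p : ℤ_[p]) ^ j * s j (t • u) b = t * ∑' j, (p : ℤ_[p]) ^ j * s j u b
    rw [← (padic_summable fun j => s j u b).tsum_mul_left]
    refine tsum_congr fun j => ?_
    rw [map_smul, AddMonoidHom.smul_apply, smul_eq_mul]
    ring

theorem opSum_apply (s : ℕ → Module.End ℤ_[p] (Du p B)) (v : Du p B) (b : B) :
    opSum s v b = ∑' j, (p : ℤ_[p]) ^ j * s j v b := rfl

/-- the endomorphisms of the dual are `p`-adically complete -/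
theorem pcomp_end : PComp p (Module.End ℤ_[p] (Du p B)) where
  tf r hr := by
    ext v b
    have h1 := congrArg (fun f : Module.End ℤ_[p] (Du p B) => f v b) hr
    simp only [end_cast_apply] at h1
    change (p : ℤ_[p]) * r v b = 0 at h1
    have h2 : (p : ℤ_[p]) ≠ 0 := by exact_mod_cast hp.1.ne_zero
    exact (mul_eq_zero.1 h1).resolve_left h2
  sep r hr := by
    ext v b
    apply padic_sep
    intro N
    obtain ⟨s, hs⟩ := hr N
    exact ⟨s v b, by rw [hs, end_pow_apply]⟩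
  comp s := by
    refine ⟨fun N => opSum fun j => s (N + j), fun N => ?_⟩
    ext v b
    rw [LinearMap.add_apply, AddMonoidHom.add_apply, end_cast_apply, opSum_apply, opSum_apply,
      (padic_summable fun j => s (N + j) v b).tsum_eq_zero_add, pow_zero, one_mul, add_zero,
      ← (padic_summable fun j => s (N + 1 + j) v b).tsum_mul_left]
    congr 1
    refine tsum_congr fun j => ?_
    rw [show N + (j + 1) = N + 1 + j by omega]
    ring

theorem du_tf (v : Du p B) (h : (p : Module.End ℤ_[p] (Du p B)) • v = 0) : v = 0 := by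
  ext b
  have h1 := DFunLike.congr_fun h b
  rw [Module.End.smul_def, Module.End.natCast_apply, ← Nat.cast_smul_eq_nsmul ℤ_[p],
    AddMonoidHom.smul_apply, smul_eq_mul] at h1
  have h2 : (p : ℤ_[p]) ≠ 0 := by exact_mod_cast hp.1.ne_zero
  exact (mul_eq_zero.1 h1).resolve_left h2

theorem pow_smul_apply (k : ℕ) (v : Du p B) (b : B) :
    ((p : Module.End ℤ_[p] (Du p B)) ^ k • v) b = (p : ℤ_[p]) ^ k * v b := by
  have := end_pow_apply k (1 : Module.End ℤ_[p] (Du p B)) v b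
  rwa [mul_one, Module.End.one_apply] at this

theorem du_sep (v : Du p B)
    (h : ∀ N : ℕ, ∃ w, v = (p : Module.End ℤ_[p] (Du p B)) ^ N • w) : v = 0 := by
  ext b
  apply padic_sep
  intro N
  obtain ⟨w, hw⟩ := h N
  exact ⟨w b, by rw [hw, pow_smul_apply]⟩

/-- precomposition -/
noncomputable def pre (φ : B →+ B) : Module.End ℤ_[p] (Du p B) where
  toFun v := v.comp φ
  map_add' _ _ := rfl
  map_smul' _ _ := rfl

theorem pre_apply (φ : B →+ B) (v : Du p B) (b : B) : pre φ v b = v (φ b) := rfl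

/-- precomposition with a map which is the identity modulo `p` -/
theorem pre_dv (htf : ∀ b : B, (p : ℕ) • b = 0 → b = 0) (φ : B →+ B)
    (h : ∀ b, ∃ b', φ b - b = (p : ℕ) • b') :
    Dv p 1 (pre (p := p) φ - 1) := by
  choose T hT using h
  have hadd : ∀ a b, T (a + b) = T a + T b := by
    intro a b
    rw [← sub_eq_zero]
    apply htf
    rw [smul_sub, smul_add, ← hT, ← hT, ← hT, map_add]
    abel
  let T' : B →+ B := AddMonoidHom.mk' T hadd
  refine ⟨pre T', ?_⟩
  ext v b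
  rw [end_pow_apply, LinearMap.sub_apply, AddMonoidHom.sub_apply, Module.End.one_apply, pre_apply,
    pre_apply, pow_one, ← map_sub, hT, map_nsmul, nsmul_eq_mul]
  rfl

end Pad

section Der

variable {p : ℕ} [hp : Fact p.Prime] {B : Type*} [CommRing B]

/-- the failure of the Leibniz rule along `ψ` -/
noncomputable def defect (ψ : B →+* ℤ_[p]) (D : Du p B) (a b : B) : ℤ_[p] := D (a * b) - D a * ψ b - ψ a * D b

theorem defect_add (ψ : B →+* ℤ_[p]) (D D' : Du p B) (a b : B) :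
    defect ψ (D + D') a b = defect ψ D a b + defect ψ D' a b := by
  unfold defect
  simp only [AddMonoidHom.add_apply]
  ring

theorem defect_smul (ψ : B →+* ℤ_[p]) (t : ℤ_[p]) (D : Du p B) (a b : B) :
    defect ψ (t • D) a b = t * defect ψ D a b := by
  unfold defect
  simp only [AddMonoidHom.smul_apply, smul_eq_mul]
  ring

theorem defect_pow (ψ : B →+* ℤ_[p]) (k : ℕ) (D : Du p B) (a b : B) :
    defect ψ ((p : Module.End ℤ_[p] (Du p B)) ^ k • D) a b = (p : ℤ_[p]) ^ k * defect ψ D a b := by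
  unfold defect
  simp only [pow_smul_apply]
  ring

/-- the module of derivations along `ψ` killing `C` -/
noncomputable def Ders (ψ : B →+* ℤ_[p]) (C : Set B) : Submodule ℤ_[p] (Du p B) where
  carrier := {D | (∀ a b, defect ψ D a b = 0) ∧ ∀ c ∈ C, D c = 0}
  add_mem' := fun {D D'} h h' => ⟨fun a b => by rw [defect_add, h.1, h'.1, add_zero],
    fun c hc => by rw [AddMonoidHom.add_apply, h.2 c hc, h'.2 c hc, add_zero]⟩
  zero_mem' := ⟨fun a b => by unfold defect; simp, fun c _ => rfl⟩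
  smul_mem' := fun t D h => ⟨fun a b => by rw [defect_smul, h.1, mul_zero],
    fun c hc => by rw [AddMonoidHom.smul_apply, h.2 c hc, smul_zero]⟩

theorem mem_Ders {ψ : B →+* ℤ_[p]} {C : Set B} {D : Du p B} :
    D ∈ Ders ψ C ↔ (∀ a b, defect ψ D a b = 0) ∧ ∀ c ∈ C, D c = 0 := Iff.rfl

/-- limits of difference quotients of ring homomorphisms are derivations -/
theorem limit_mem_Ders (ψ : B →+* ℤ_[p]) (C : Set B) (D : Du p B) (al : ℕ → ℕ)
    (ψ₁ ψ₂ : ℕ → (B →+* ℤ_[p]))
    (h1 : ∀ N, ∃ w : Du p B, (ψ₁ N).toAddMonoidHom - ψ.toAddMonoidHom =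
      (p : Module.End ℤ_[p] (Du p B)) ^ (N + 1) • w)
    (h2 : ∀ N, ∃ w : Du p B, (ψ₂ N).toAddMonoidHom - ψ.toAddMonoidHom =
      (p : Module.End ℤ_[p] (Du p B)) ^ (N + 1) • w)
    (h3 : ∀ N, ∃ w : Du p B, (ψ₁ N).toAddMonoidHom - (ψ₂ N).toAddMonoidHom =
      (p : Module.End ℤ_[p] (Du p B)) ^ (al N) • w)
    (h4 : ∀ N, ∃ w : Du p B, (ψ₁ N).toAddMonoidHom - (ψ₂ N).toAddMonoidHom -
      (p : Module.End ℤ_[p] (Du p B)) ^ (al N) • D =
      (p : Module.End ℤ_[p] (Du p B)) ^ (al N + (N + 1)) • w)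
    (h5 : ∀ N, ∀ c ∈ C, ψ₁ N c = ψ₂ N c) : D ∈ Ders ψ C := by
  have hp0 : (p : ℤ_[p]) ≠ 0 := by exact_mod_cast hp.1.ne_zero
  refine mem_Ders.2 ⟨fun a b => ?_, fun c hc => ?_⟩
  · apply padic_sep
    intro N
    obtain ⟨w1, hw1⟩ := h1 N
    obtain ⟨w2, hw2⟩ := h2 N
    obtain ⟨w3, hw3⟩ := h3 N
    obtain ⟨w4, hw4⟩ := h4 N
    have e1 : ψ₁ N a - ψ a = (p : ℤ_[p]) ^ (N + 1) * w1 a := by
      rw [← pow_smul_apply, ← hw1]; rfl
    have e2 : ψ₂ N b - ψ b = (p : ℤ_[p]) ^ (N + 1) * w2 b := by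
      rw [← pow_smul_apply, ← hw2]; rfl
    have e3 : ∀ x, ψ₁ N x - ψ₂ N x = (p : ℤ_[p]) ^ (al N) * w3 x := by
      intro x; rw [← pow_smul_apply, ← hw3]; rfl
    have e4 : (p : ℤ_[p]) ^ (al N) * defect ψ D a b + (p : ℤ_[p]) ^ (al N + (N + 1)) *
        defect ψ w4 a b = (p : ℤ_[p]) ^ (al N + (N + 1)) * (w1 a * w3 b + w3 a * w2 b) := by
      have h6 : (p : Module.End ℤ_[p] (Du p B)) ^ (al N) • D +
          (p : Module.End ℤ_[p] (Du p B)) ^ (al N + (N + 1)) • w4 =
          (ψ₁ N).toAddMonoidHom - (ψ₂ N).toAddMonoidHom := by rw [← hw4]; abel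
      rw [← defect_pow, ← defect_pow, ← defect_add, h6]
      have h7 : defect ψ ((ψ₁ N).toAddMonoidHom - (ψ₂ N).toAddMonoidHom) a b =
          (ψ₁ N a - ψ a) * (ψ₁ N b - ψ₂ N b) + (ψ₁ N a - ψ₂ N a) * (ψ₂ N b - ψ b) := by
        unfold defect
        change (ψ₁ N (a * b) - ψ₂ N (a * b)) - (ψ₁ N a - ψ₂ N a) * ψ b -
          ψ a * (ψ₁ N b - ψ₂ N b) = _
        rw [map_mul, map_mul]
        ring
      rw [h7, e1, e2, e3, e3]
      ring
    refine ⟨(p : ℤ_[p]) * (w1 a * w3 b + w3 a * w2 b - defect ψ w4 a b), ?_⟩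
    apply mul_left_cancel₀ (pow_ne_zero (al N) hp0)
    rw [pow_add, pow_add] at e4
    linear_combination e4
  · apply padic_sep
    intro N
    obtain ⟨w4, hw4⟩ := h4 N
    refine ⟨- ((p : ℤ_[p]) * w4 c), ?_⟩
    apply mul_left_cancel₀ (pow_ne_zero (al N) hp0)
    have h6 := DFunLike.congr_fun hw4 c
    rw [pow_smul_apply] at h6
    change ψ₁ N c - ψ₂ N c - ((p : Module.End ℤ_[p] (Du p B)) ^ (al N) • D) c = _ at h6
    rw [h5 N c hc, sub_self, zero_sub, pow_smul_apply, pow_add, pow_add] at h6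
    linear_combination -h6

end Der

end Pool.Agent.Y328
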