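import Pool.Agent.Y328.PFam

/-!
# From a finitely generated domain embedded in `ℤ_p` to a family trivial modulo `p`
-/

set_option autoImplicit false
set_option linter.unusedSectionVars false

namespace Pool.Agent.Y328

open Module Polynomial

section Alg

variable {p : ℕ} [hp : Fact p.Prime] {A : Type*} [CommRing A] [IsDomain A] [CharZero A]
  (ψ : A →+* ℤ_[p]) (D : A →+ ℤ_[p]) (hD : ∀ a b, D (a * b) = D a * ψ b + ψ a * D b)

include hD in
theorem D_one : D 1 = 0 := by
  have h := hD 1 1
  rw [mul_one, map_one ψ] at h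
  linear_combination -h

include hD in
theorem D_pow (a : A) (n : ℕ) : D (a ^ n) = n * ψ a ^ (n - 1) * D a := by
  induction n with
  | zero => rw [pow_zero, D_one ψ D hD]; simp
  | succ n ih =>
    rw [pow_succ, hD, ih, map_pow, Nat.add_sub_cancel]
    rcases n with _ | n
    · simp
    · rw [Nat.add_sub_cancel]
      push_cast
      ring

include hD in
theorem D_aeval (S : Subring A) (hS : ∀ s ∈ S, D s = 0) (a : A) (P : S[X]) :
    D (aeval a P) = ψ (aeval a (derivative P)) * D a := by
  induction P using Polynomial.induction_on' with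
  | add P Q hP hQ => rw [map_add, map_add, hP, hQ, derivative_add, map_add, map_add, add_mul]
  | monomial n c =>
    rw [derivative_monomial, aeval_monomial, aeval_monomial, hD, D_pow ψ D hD]
    have h1 : D (algebraMap S A c) = 0 := hS _ c.2
    rw [h1, zero_mul, zero_add, map_mul, map_mul, map_mul, map_natCast, map_pow, map_natCast]
    ring

include hD in
theorem D_algebraic (hψ : Function.Injective ψ) (S : Subring A) (hS : ∀ s ∈ S, D s = 0) (a : A)
    (ha : IsAlgebraic S a) : D a = 0 := by
  have key : ∀ n : ℕ, ∀ P : S[X], P.natDegree = n → P ≠ 0 → aeval a P = 0 → D a = 0 := by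
    intro n
    induction n using Nat.strong_induction_on with
    | _ n ih =>
      intro P hn hP0 hPa
      have h1 := D_aeval ψ D hD S hS a P
      rw [hPa, map_zero] at h1
      by_cases hd : aeval a (derivative P) = 0
      · by_cases hz : derivative P = 0
        · exfalso
          have h2 := derivative_eq_zero.1 hz
          rw [eq_C_of_natDegree_eq_zero h2, aeval_C] at hPa
          have h3 : P.coeff 0 = 0 := by
            apply Subtype.ext
            exact hPa
          rw [eq_C_of_natDegree_eq_zero h2, h3, C_0] at hP0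
          exact hP0 rfl
        · refine ih _ ?_ (derivative P) rfl hz hd
          rw [← hn]
          apply natDegree_derivative_lt
          intro h0
          exact hz (by rw [eq_C_of_natDegree_eq_zero h0, derivative_C])
      · rcases mul_eq_zero.1 h1.symm with h2 | h2
        · exact absurd (hψ (by rw [h2, map_zero])) hd
        · exact h2
  obtain ⟨P, hP0, hPa⟩ := ha
  exact key _ P rfl hP0 hPa

end Alg

section Frac

variable {A : Type*} [CommRing A] [IsDomain A]

/-- the extension of an automorphism to the fraction field -/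
noncomputable def ext (h : A ≃+* A) : FractionRing A ≃+* FractionRing A :=
  IsFractionRing.ringEquivOfRingEquiv h

theorem ext_algebraMap (h : A ≃+* A) (a : A) :
    ext h (algebraMap A (FractionRing A) a) = algebraMap A (FractionRing A) (h a) :=
  IsFractionRing.ringEquivOfRingEquiv_algebraMap h a

theorem ext_mul_apply (g h : A ≃+* A) (z : FractionRing A) : ext (g * h) z = ext g (ext h z) := by
  obtain ⟨x, y, hy, rfl⟩ := IsFractionRing.div_surjective A z
  rw [map_div₀, map_div₀, map_div₀, ext_algebraMap, ext_algebraMap, ext_algebraMap,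
    ext_algebraMap, ext_algebraMap, ext_algebraMap]
  rfl

theorem ext_one_apply (z : FractionRing A) : ext (1 : A ≃+* A) z = z := by
  obtain ⟨x, y, hy, rfl⟩ := IsFractionRing.div_surjective A z
  rw [map_div₀, ext_algebraMap, ext_algebraMap]
  rfl

variable (p : ℕ) (I : Ideal A)

/-- the set `p⁻¹ I` -/
def Z1 : Set (FractionRing A) := {z | ∃ m ∈ I, (p : FractionRing A) * z = algebraMap A _ m}

/-- the ring generated by `p⁻¹ I` -/
def BB : Subring (FractionRing A) := Subring.closure (Z1 p I)

/-- automorphisms preserving `I` -/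
def St : Subgroup (A ≃+* A) where
  carrier := {h | ∀ m, h m ∈ I ↔ m ∈ I}
  mul_mem' := fun {g h} hg hh m => (hg (h m)).trans (hh m)
  one_mem' := fun m => Iff.rfl
  inv_mem' := fun {h} hh m => by
    have h1 := hh ((h⁻¹ : A ≃+* A) m)
    have h2 : h ((h⁻¹ : A ≃+* A) m) = m := h.apply_symm_apply m
    rw [h2] at h1
    exact h1.symm

variable {p I}

theorem ext_Z1 {h : A ≃+* A} (hh : h ∈ St I) {z : FractionRing A} (hz : z ∈ Z1 p I) :
    ext h z ∈ Z1 p I := by
  obtain ⟨m, hm, e⟩ := hz
  refine ⟨h m, (hh m).2 hm, ?_⟩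
  rw [← ext_algebraMap, ← e, map_mul, map_natCast]

theorem ext_BB {h : A ≃+* A} (hh : h ∈ St I) {z : FractionRing A} (hz : z ∈ BB p I) :
    ext h z ∈ BB p I := by
  unfold BB at hz
  induction hz using Subring.closure_induction with
  | mem x hx => exact Subring.subset_closure (ext_Z1 hh hx)
  | zero => rw [map_zero]; exact (BB p I).zero_mem
  | one => rw [map_one]; exact (BB p I).one_mem
  | add x y _ _ hx hy => rw [map_add]; exact (BB p I).add_mem hx hy
  | neg x _ hx => rw [map_neg]; exact (BB p I).neg_mem hx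
  | mul x y _ _ hx hy => rw [map_mul]; exact (BB p I).mul_mem hx hy

theorem ext_inv_apply (h : A ≃+* A) (z : FractionRing A) : ext h⁻¹ (ext h z) = z := by
  rw [← ext_mul_apply, inv_mul_cancel, ext_one_apply]

theorem ext_apply_inv (h : A ≃+* A) (z : FractionRing A) : ext h (ext h⁻¹ z) = z := by
  rw [← ext_mul_apply, mul_inv_cancel, ext_one_apply]

/-- the restriction to `BB` -/
noncomputable def res : St I →* (BB p I ≃+* BB p I) where
  toFun h :=
    { toFun := fun b => ⟨ext h.1 b.1, ext_BB h.2 b.2⟩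
      invFun := fun b => ⟨ext h.1⁻¹ b.1, ext_BB (St I |>.inv_mem h.2) b.2⟩
      left_inv := fun b => Subtype.ext (ext_inv_apply _ _)
      right_inv := fun b => Subtype.ext (ext_apply_inv _ _)
      map_mul' := fun a b => Subtype.ext (map_mul _ _ _)
      map_add' := fun a b => Subtype.ext (map_add _ _ _) }
  map_one' := by
    ext b
    exact ext_one_apply _
  map_mul' g h := by
    ext b
    exact ext_mul_apply _ _ _

theorem res_val (h : St I) (b : BB p I) : ((res h b : BB p I) : FractionRing A) = ext h.1 b.1 :=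
  rfl

variable (hpI : (p : A) ∈ I)

include hpI in
theorem algebraMap_mem_Z1 (a : A) : algebraMap A (FractionRing A) a ∈ Z1 p I :=
  ⟨p * a, I.mul_mem_right a hpI, by rw [map_mul, map_natCast]⟩

include hpI in
theorem algebraMap_mem_BB (a : A) : algebraMap A (FractionRing A) a ∈ BB p I :=
  Subring.subset_closure (algebraMap_mem_Z1 hpI a)

/-- the inclusion of `A` in `BB` -/
noncomputable def inc : A →+* BB p I :=
  (algebraMap A (FractionRing A)).codRestrict (BB p I) (algebraMap_mem_BB hpI)

theorem inc_val (a : A) : ((inc hpI a : BB p I) : FractionRing A) = algebraMap A _ a := rfl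

theorem res_inc (h : St I) (a : A) : res h (inc hpI a) = inc hpI (h.1 a) := by
  apply Subtype.ext
  rw [res_val, inc_val, inc_val, ext_algebraMap]

/-- if `h ≡ 1` modulo `I ^ 2` then the restriction is `≡ 1` modulo `p` -/
theorem res_triv [CharZero A] (hp0 : p ≠ 0) (h : St I) (hh : ∀ a, h.1 a - a ∈ I ^ 2) :
    TrivP p (res (p := p) h) := by
  have hpF : (p : FractionRing A) ≠ 0 := by
    have : (algebraMap A (FractionRing A)) (p : A) ≠ 0 := by
      rw [Ne, FaithfulSMul.algebraMap_eq_zero_iff]
      exact_mod_cast hp0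
    rwa [map_natCast] at this
  have key : ∀ m ∈ I ^ 2, ∃ w ∈ BB p I, algebraMap A (FractionRing A) m = p * (p * w) := by
    intro m hm
    rw [pow_two] at hm
    induction hm using Submodule.mul_induction_on' with
    | mem_mul_mem a ha b hb =>
      refine ⟨(algebraMap A _ a / p) * (algebraMap A _ b / p), (BB p I).mul_mem
        (Subring.subset_closure ⟨a, ha, by field_simp⟩)
        (Subring.subset_closure ⟨b, hb, by field_simp⟩), ?_⟩
      rw [map_mul]
      field_simp
    | add a _ b _ ha hb =>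
      obtain ⟨w, hw, e⟩ := ha
      obtain ⟨w', hw', e'⟩ := hb
      exact ⟨w + w', (BB p I).add_mem hw hw', by rw [map_add, e, e']; ring⟩
  have key2 : ∀ z ∈ BB p I, ∃ w ∈ BB p I, ext h.1 z - z = p * w := by
    intro z hz
    unfold BB at hz
    induction hz using Subring.closure_induction with
    | mem x hx =>
      obtain ⟨m, hm, e⟩ := hx
      obtain ⟨w, hw, e'⟩ := key _ (hh m)
      refine ⟨w, hw, ?_⟩
      apply mul_left_cancel₀ hpF
      rw [← e', map_sub, ← ext_algebraMap, ← e, map_mul, map_natCast]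
      ring
    | zero => exact ⟨0, (BB p I).zero_mem, by rw [map_zero]; ring⟩
    | one => exact ⟨0, (BB p I).zero_mem, by rw [map_one]; ring⟩
    | add x y _ _ hx hy =>
      obtain ⟨w, hw, e⟩ := hx
      obtain ⟨w', hw', e'⟩ := hy
      refine ⟨w + w', (BB p I).add_mem hw hw', ?_⟩
      rw [map_add, mul_add, ← e, ← e']
      ring
    | neg x _ hx =>
      obtain ⟨w, hw, e⟩ := hx
      refine ⟨-w, (BB p I).neg_mem hw, ?_⟩
      rw [map_neg, mul_neg, ← e]
      ring
    | mul x y hx' hy' hx hy =>
      obtain ⟨w, hw, e⟩ := hx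
      obtain ⟨w', hw', e'⟩ := hy
      refine ⟨w * ext h.1 y + x * w', (BB p I).add_mem ((BB p I).mul_mem hw (ext_BB h.2 hy'))
        ((BB p I).mul_mem hx' hw'), ?_⟩
      rw [map_mul, mul_add, ← mul_assoc, ← e, mul_left_comm, ← e']
      ring
  intro b
  obtain ⟨w, hw, e⟩ := key2 b.1 b.2
  refine ⟨⟨w, hw⟩, Subtype.ext ?_⟩
  rw [nsmul_eq_mul]
  exact e

end Frac

section Main

theorem finite_hom {A Q : Type*} [CommRing A] [CommRing Q] [Finite Q] [Algebra.FiniteType ℤ A] :
    Finite (A →+* Q) := by
  obtain ⟨S, hS⟩ := (Algebra.FiniteType.out (R := ℤ) (A := A))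
  refine Finite.of_injective (fun (φ : A →+* Q) (s : S) => φ s) ?_
  intro φ φ' h
  have h1 : φ.toIntAlgHom = φ'.toIntAlgHom := by
    refine AlgHom.ext_of_adjoin_eq_top hS ?_
    intro s hs
    exact congrFun h ⟨s, hs⟩
  ext a
  exact DFunLike.congr_fun h1 a

/-- the action on homomorphisms -/
def actHom (A Q : Type*) [CommRing A] [CommRing Q] : (A ≃+* A) →* Equiv.Perm (A →+* Q) where
  toFun h :=
    { toFun := fun φ => φ.comp (h⁻¹ : A ≃+* A)
      invFun := fun φ => φ.comp (h : A →+* A)
      left_inv := fun φ => by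
        ext a
        change φ ((h⁻¹ : A ≃+* A) (h a)) = φ a
        congr 1
        exact h.symm_apply_apply a
      right_inv := fun φ => by
        ext a
        change φ (h ((h⁻¹ : A ≃+* A) a)) = φ a
        congr 1
        exact h.apply_symm_apply a }
  map_one' := by ext φ a; rfl
  map_mul' g h := by ext φ a; rfl

variable {p : ℕ} [hp : Fact p.Prime] {A : Type*} [CommRing A] [IsDomain A] [CharZero A]
  [Algebra.FiniteType ℤ A]

theorem exists_exponent (I : Ideal A) [Finite (A ⧸ I)] :
    ∃ M : ℕ, 0 < M ∧ ∀ h : A ≃+* A, ∀ a, (h ^ M) a - a ∈ I ^ 2 := by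
  have hN : IsNoetherianRing A := Algebra.FiniteType.isNoetherianRing ℤ A
  have hQ : Finite (A ⧸ I ^ 2) := Ideal.finite_quotient_pow ((isNoetherianRing_iff_ideal_fg A).1 hN I) 2
  have hH : Finite (A →+* A ⧸ I ^ 2) := finite_hom
  refine ⟨Nat.card (Equiv.Perm (A →+* A ⧸ I ^ 2)), Nat.card_pos, fun h a => ?_⟩
  have h1 : actHom A (A ⧸ I ^ 2) (h ^ Nat.card (Equiv.Perm (A →+* A ⧸ I ^ 2))) = 1 := by
    rw [map_pow, pow_card_eq_one']
  have h2 := DFunLike.congr_fun (Equiv.congr_fun h1 (Ideal.Quotient.mk (I ^ 2)))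
    ((h ^ Nat.card (Equiv.Perm (A →+* A ⧸ I ^ 2))) a)
  change Ideal.Quotient.mk (I ^ 2) (((h ^ Nat.card (Equiv.Perm (A →+* A ⧸ I ^ 2)))⁻¹ : A ≃+* A)
    ((h ^ Nat.card (Equiv.Perm (A →+* A ⧸ I ^ 2))) a)) = Ideal.Quotient.mk (I ^ 2)
    ((h ^ Nat.card (Equiv.Perm (A →+* A ⧸ I ^ 2))) a) at h2
  have h3 : ((h ^ Nat.card (Equiv.Perm (A →+* A ⧸ I ^ 2)))⁻¹ : A ≃+* A)
    ((h ^ Nat.card (Equiv.Perm (A →+* A ⧸ I ^ 2))) a) = a := RingEquiv.symm_apply_apply _ a
  rw [h3] at h2
  exact (Ideal.Quotient.eq.1 h2.symm)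

/-- A Steinberg family of automorphisms of a finitely generated domain embedded in `ℤ_p` has finite
image if the domain has small dimension over the constants. -/
theorem padic_domain {ι : Type*} [Fintype ι] [DecidableEq ι] (hn : 3 ≤ Fintype.card ι)
    {O : Type*} [CommRing O] [Module.Finite ℤ O] (hO : IsEmpty (O →+* ℚ_[p])) (hp2 : p ≠ 2)
    (ψ : A →+* ℤ_[p]) (hψ : Function.Injective ψ) (C : Set A) {m : ℕ} (x : Fin m → A)
    (halg : ∀ a : A, IsAlgebraic (Subring.closure (C ∪ Set.range x)) a)
    (hm : m < 2 * (Fintype.card ι - 1))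
    (g : ι → ι → O → (A ≃+* A)) (c : ℕ) (hc : 0 < c) (hg : GStb c g)
    (hC : ∀ i j a, i ≠ j → ∀ c ∈ C, g i j a c = c) :
    ∃ M : ℕ, 0 < M ∧ ∀ i j (a : O), i ≠ j → g i j (M * a) = 1 := by
  classical
  let I : Ideal A := RingHom.ker ((PadicInt.toZMod (p := p)).comp ψ)
  have hfin : Finite (A ⧸ I) :=
    Finite.of_injective _ (RingHom.kerLift_injective ((PadicInt.toZMod (p := p)).comp ψ))
  have hpI : (p : A) ∈ I := by
    rw [RingHom.mem_ker, map_natCast, ZMod.natCast_self]
  obtain ⟨M, hM0, hM⟩ := exists_exponent I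
  have hI2 : I ^ 2 ≤ I := Ideal.pow_le_self two_ne_zero
  have hgM : ∀ i j a b, i ≠ j → g i j (M * a) b - b ∈ I ^ 2 := by
    intro i j a b hij
    rw [hg.nsmul hij]
    exact hM _ _
  have hst : ∀ i j a, i ≠ j → g i j (M * a) ∈ St I := by
    intro i j a hij m
    have h1 := hI2 (hgM i j a m hij)
    constructor
    · intro h2
      have := I.sub_mem h2 h1
      rwa [sub_sub_cancel] at this
    · intro h2
      have := I.add_mem h1 h2
      rwa [sub_add_cancel] at this
  let g' : ι → ι → O → (BB p I ≃+* BB p I) := fun i j a =>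
    if hij : i ≠ j then res ⟨g i j (M * a), hst i j a hij⟩ else 1
  have hg' : ∀ i j a (hij : i ≠ j), g' i j a = res ⟨g i j (M * a), hst i j a hij⟩ := by
    intro i j a hij
    simp only [g']
    rw [dif_pos hij]
  have hgS : GStb (c * M) g' := by
    constructor
    · intro i j a b hij
      rw [hg' _ _ _ hij, hg' _ _ _ hij, hg' _ _ _ hij, ← map_mul]
      congr 1
      apply Subtype.ext
      change g i j (M * (a + b)) = g i j (M * a) * g i j (M * b)
      rw [mul_add, hg.add _ _ _ _ hij]
    · intro i j k a b hij hjk hik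
      rw [hg' _ _ _ hij, hg' _ _ _ hjk, hg' _ _ _ hik, ← map_mul, ← map_mul, ← map_mul]
      congr 1
      apply Subtype.ext
      change g i j (M * a) * g j k (M * b) = g i k (M * (((c * M : ℕ) : O) * (a * b))) *
        (g j k (M * b) * g i j (M * a))
      rw [hg.comm3 i j k _ _ hij hjk hik]
      congr 2
      push_cast
      ring
    · intro i j k l a b hij hkl hjk hil
      rw [hg' _ _ _ hij, hg' _ _ _ hkl, ← map_mul, ← map_mul]
      congr 1
      apply Subtype.ext
      exact hg.comm0 i j k l _ _ hij hkl hjk hil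
  have hp0 : p ≠ 0 := hp.1.ne_zero
  have hpF : (p : FractionRing A) ≠ 0 := by
    have : (algebraMap A (FractionRing A)) (p : A) ≠ 0 := by
      rw [Ne, FaithfulSMul.algebraMap_eq_zero_iff]
      exact_mod_cast hp0
    rwa [map_natCast] at this
  have htf : ∀ b : BB p I, (p : ℕ) • b = 0 → b = 0 := by
    intro b hb
    rw [nsmul_eq_mul] at hb
    have h1 := congrArg (Subtype.val) hb
    change (p : FractionRing A) * b.1 = 0 at h1
    exact Subtype.ext ((mul_eq_zero.1 h1).resolve_left hpF)
  -- the homomorphism on `BB`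
  have hinj : Function.Injective ((algebraMap ℤ_[p] ℚ_[p]).comp ψ) := by
    rw [RingHom.coe_comp]
    exact (FaithfulSMul.algebraMap_injective ℤ_[p] ℚ_[p]).comp hψ
  let Ψ : FractionRing A →+* ℚ_[p] := IsFractionRing.lift hinj
  have hΨ : ∀ a, Ψ (algebraMap A _ a) = ((ψ a : ℤ_[p]) : ℚ_[p]) :=
    fun a => IsFractionRing.lift_algebraMap hinj a
  have hZ : ∀ z ∈ Z1 p I, Ψ z ∈ PadicInt.subring p := by
    rintro z ⟨m, hm, e⟩
    have h1 : PadicInt.toZMod (ψ m) = 0 := hm
    rw [← RingHom.mem_ker, PadicInt.ker_toZMod, PadicInt.maximalIdeal_eq_span_p,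
      Ideal.mem_span_singleton] at h1
    obtain ⟨y, hy⟩ := h1
    have h2 : (p : ℚ_[p]) * Ψ z = p * (y : ℚ_[p]) := by
      have h3 := congrArg Ψ e
      rw [map_mul, map_natCast, hΨ, hy, PadicInt.coe_mul, PadicInt.coe_natCast] at h3
      exact h3
    have h4 : Ψ z = (y : ℚ_[p]) := by
      apply mul_left_cancel₀ _ h2
      exact_mod_cast hp0
    rw [h4]
    exact y.2
  have hBB : ∀ z : BB p I, (Ψ.comp (BB p I).subtype) z ∈ PadicInt.subring p := by
    have h1 : BB p I ≤ (PadicInt.subring p).comap Ψ := Subring.closure_le.2 hZ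
    exact fun z => h1 z.2
  let ψB : BB p I →+* ℤ_[p] := (Ψ.comp (BB p I).subtype).codRestrict (PadicInt.subring p) hBB
  have hψB : ∀ a, ψB (inc hpI a) = ψ a := by
    intro a
    apply Subtype.ext
    exact hΨ a
  have hx : ∀ D ∈ Ders ψB (inc hpI '' C), (∀ i, D (inc hpI (x i)) = 0) → D = 0 := by
    intro D hD hDx
    have hDl : ∀ a b, D (a * b) = D a * ψB b + ψB a * D b := by
      intro a b
      have := hD.1 a b
      unfold defect at this
      linear_combination this
    let D' : A →+ ℤ_[p] := D.comp ((inc hpI : A →+* BB p I) : A →+ BB p I)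
    have hD'v : ∀ a, D' a = D (inc hpI a) := fun a => rfl
    have hD' : ∀ a b, D' (a * b) = D' a * ψ b + ψ a * D' b := by
      intro a b
      rw [hD'v, hD'v, hD'v, map_mul, hDl, hψB, hψB]
    have hS : ∀ s ∈ Subring.closure (C ∪ Set.range x), D' s = 0 := by
      intro s hs
      induction hs using Subring.closure_induction with
      | mem y hy =>
        rcases hy with hy | ⟨i, rfl⟩
        · exact hD.2 _ ⟨y, hy, rfl⟩
        · exact hDx i
      | zero => exact map_zero _
      | one => exact D_one ψ D' hD'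
      | add x y _ _ hx hy => rw [map_add, hx, hy, add_zero]
      | neg x _ hx => rw [map_neg, hx, neg_zero]
      | mul x y _ _ hx hy => rw [hD', hx, hy, zero_mul, mul_zero, add_zero]
    have hD0 : ∀ a, D' a = 0 := fun a => D_algebraic ψ D' hD' hψ _ hS a (halg a)
    have hfin : ∀ (z : FractionRing A) (hz : z ∈ BB p I), D ⟨z, hz⟩ = 0 := by
      intro z hz
      have hz' := hz
      unfold BB at hz'
      induction hz' using Subring.closure_induction with
      | mem y hy =>
        obtain ⟨m, hm, e⟩ := hy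
        have h1 : (p : ℕ) • (⟨y, hz⟩ : BB p I) = inc hpI m := by
          apply Subtype.ext
          rw [nsmul_eq_mul]
          exact e
        have h2 := hD0 m
        rw [hD'v, ← h1, map_nsmul, nsmul_eq_mul] at h2
        refine (mul_eq_zero.1 h2).resolve_left ?_
        exact_mod_cast hp0
      | zero => exact map_zero D
      | one =>
        have h1 := D_one ψ D' hD'
        have h2 : (⟨1, hz⟩ : BB p I) = inc hpI 1 := by rw [map_one]; rfl
        rw [h2]
        exact h1
      | add a b ha hb iha ihb =>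
        have h1 : (⟨a + b, hz⟩ : BB p I) = ⟨a, ha⟩ + ⟨b, hb⟩ := rfl
        rw [h1, map_add, iha ha, ihb hb, add_zero]
      | neg a ha iha =>
        have h1 : (⟨-a, hz⟩ : BB p I) = -⟨a, ha⟩ := rfl
        rw [h1, map_neg, iha ha, neg_zero]
      | mul a b ha hb iha ihb =>
        have h1 : (⟨a * b, hz⟩ : BB p I) = ⟨a, ha⟩ * ⟨b, hb⟩ := rfl
        rw [h1, hDl, iha ha, ihb hb, zero_mul, mul_zero, add_zero]
    ext z
    exact hfin z.1 z.2
  have hmain := padic_family hn hO hp2 htf ψB (inc hpI '' C) (fun i => inc hpI (x i)) hx hm g'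
    (c * M) (Nat.mul_pos hc hM0) hgS
    (fun i j a hij => by
      rw [hg' _ _ _ hij]
      exact res_triv hp0 _ (fun b => hgM i j a b hij))
    (fun i j a hij c hcC => by
      obtain ⟨c', hc', rfl⟩ := hcC
      rw [hg' _ _ _ hij, res_inc]
      exact congrArg _ (hC i j _ hij c' hc'))
  refine ⟨M, hM0, fun i j a hij => ?_⟩
  ext b
  have h1 := hmain i j a (inc hpI b) hij
  rw [hg' _ _ _ hij, res_inc, hψB, hψB] at h1
  exact hψ h1

end Main

end Pool.Agent.Y328
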