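import Pool.Agent.W401.Cheb.Main
import Pool.Agent.Y328.PQ

/-!
# Real algebraic numbers modulo primes without a residue homomorphism from a totally complex field
-/

set_option autoImplicit false
set_option linter.unusedSectionVars false

namespace Pool.Agent.Y328

open NumberField Pool.Agent.W401.Cheb

theorem padic_int_hom (K : Type) [Field K] [NumberField K] (p : ℕ) [Fact p.Prime]
    (s : 𝓞 K →+* ℚ_[p]) : Nonempty (𝓞 K →+* ZMod p) := by
  have h : ∀ x, s x ∈ PadicInt.subring p := by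
    intro x
    have h1 : IsIntegral ℤ (s x) := by
      have h2 : IsIntegral ℤ x := RingOfIntegers.isIntegral x
      exact h2.map (s.toIntAlgHom)
    have h3 : IsIntegral ℤ_[p] (s x) := h1.tower_top
    obtain ⟨y, hy⟩ := IsIntegrallyClosed.isIntegral_iff.1 h3
    rw [← hy]
    exact y.2
  exact ⟨PadicInt.toZMod.comp (s.codRestrict (PadicInt.subring p) h)⟩

/-- The group-theoretic consequence of a residue homomorphism of degree one. -/
theorem frob_conj_of_hom {k : Type} [Field k] [NumberField k] {Ω : Type} [Field Ω] [NumberField Ω]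
    [IsGalois ℚ Ω] (j : k →ₐ[ℚ] Ω) (p : ℕ) [Fact p.Prime] (ht : TorAt Ω p)
    (φ : 𝓞 Ω →+* AlgebraicClosure (ZMod p)) (τ : Gal(Ω/ℚ)) (hφ : HasFrob p φ τ)
    (h : Nonempty (𝓞 k →+* ZMod p)) :
    ∃ σ : Gal(Ω/ℚ), ∀ x : k, τ (σ (j x)) = σ (j x) := by
  classical
  obtain ⟨s⟩ := h
  let F : IntermediateField ℚ Ω := j.fieldRange
  let H : Subgroup Gal(Ω/ℚ) := F.fixingSubgroup
  have hF : IntermediateField.fixedField H = F := IsGalois.fixedField_fixingSubgroup F
  have e1 : k ≃ₐ[ℚ] F := AlgEquiv.ofInjectiveField j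
  have e2 : F ≃ₐ[ℚ] IntermediateField.fixedField H := IntermediateField.equivOfEq hF.symm
  let e : 𝓞 (IntermediateField.fixedField H) ≃+* 𝓞 k :=
    RingOfIntegers.mapRingEquiv ((e1.trans e2).symm : _ ≃+* k)
  have hne : Nonempty (𝓞 (IntermediateField.fixedField H) →+* ZMod p) :=
    ⟨s.comp (e : _ →+* 𝓞 k)⟩
  have hfin : Finite (𝓞 (IntermediateField.fixedField H) →+* ZMod p) := finite_hom
  have h1 : Nat.card (𝓞 (IntermediateField.fixedField H) →+* ZMod p) ≠ 0 :=
    Nat.card_pos.ne'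
  have h2 : Nat.card H ≠ 0 := Nat.card_pos.ne'
  have h3 := ht.2.2 H
  have h4 : Nat.card {φ : 𝓞 Ω →+* AlgebraicClosure (ZMod p) // ∃ h ∈ H, HasFrob p φ h} ≠ 0 := by
    rw [← h3]
    exact mul_ne_zero h2 h1
  have h5 : Nonempty {φ : 𝓞 Ω →+* AlgebraicClosure (ZMod p) // ∃ h ∈ H, HasFrob p φ h} := by
    by_contra hcon
    rw [not_nonempty_iff] at hcon
    exact h4 (Nat.card_eq_zero.2 (Or.inl hcon))
  obtain ⟨φ', g, hg, hφ'⟩ := h5
  obtain ⟨σ, hσ, -⟩ := ht.2.1 φ φ'
  have hσ' : ∀ x, φ' x = φ (σ • x) := hσ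
  let φ2 : 𝓞 Ω →+* AlgebraicClosure (ZMod p) := tw φ (τ * σ)
  obtain ⟨ρ, -, hρ⟩ := ht.2.1 φ φ2
  have ha : τ * σ = ρ := hρ _ (fun x => rfl)
  have hb : σ * g = ρ := by
    refine hρ _ (fun x => ?_)
    change φ ((τ * σ) • x) = φ ((σ * g) • x)
    rw [mul_smul, mul_smul, hφ, ← hσ', ← hσ', hφ']
  refine ⟨σ, fun x => ?_⟩
  have hx : g (j x) = j x := by
    have h6 : (j x) ∈ F := ⟨x, rfl⟩
    exact (IntermediateField.mem_fixingSubgroup_iff F g).1 hg _ h6
  have h7 : (τ * σ) (j x) = (σ * g) (j x) := by rw [ha, hb]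
  have h8 : (τ * σ) (j x) = τ (σ (j x)) := rfl
  have h9 : (σ * g) (j x) = σ (g (j x)) := rfl
  rw [h8, h9, hx] at h7
  exact h7


theorem map_aeval_int {A B J : Type*} [CommRing A] [CommRing B] (f : A →+* B) (y : J → A)
    (P : MvPolynomial J ℤ) : f (MvPolynomial.aeval y P) = MvPolynomial.aeval (fun j => f (y j)) P := by
  have h : (MvPolynomial.aeval (fun j => f (y j)) : MvPolynomial J ℤ →ₐ[ℤ] B) =
      f.toIntAlgHom.comp (MvPolynomial.aeval y) := by
    ext j
    simp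
  rw [h]
  rfl

theorem eval_transfer_aux {O E F J S : Type*} [CommRing O] [Field E] [Field F] [CommRing S]
    [Algebra O S] (ι : O →+* E)
    (hι : Function.Injective ι) (φ : O →+* F) (M : Submonoid O) (hM : ∀ m, m ∈ M ↔ φ m ≠ 0)
    [IsLocalization M S] (x D : J → O) (hD : ∀ j, φ (D j) ≠ 0)
    (P : MvPolynomial J ℤ) (hP : MvPolynomial.aeval (fun j => ι (x j) / ι (D j)) P = 0) :
    MvPolynomial.aeval (fun j => φ (x j) / φ (D j)) P = 0 := by
  have hφ : ∀ m : M, IsUnit (φ m) := fun m => IsUnit.mk0 _ ((hM _).1 m.2)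
  have hι' : ∀ m : M, IsUnit (ι m) := fun m => by
    refine IsUnit.mk0 _ fun h => (hM _).1 m.2 ?_
    have h1 : (m : O) = 0 := hι (by rw [h, map_zero])
    rw [h1, map_zero]
  let y : J → S := fun j => IsLocalization.mk' _ (x j) (⟨D j, (hM _).2 (hD j)⟩ : M)
  let F1 : S →+* F := IsLocalization.lift hφ
  let E1 : S →+* E := IsLocalization.lift hι'
  have hF1 : ∀ j, F1 (y j) = φ (x j) / φ (D j) := fun j => by
    refine (IsLocalization.lift_mk'_spec _ _ _ _).2 ?_
    change φ (x j) = φ (D j) * (φ (x j) / φ (D j))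
    rw [mul_div_cancel₀ _ (hD j)]
  have hE1 : ∀ j, E1 (y j) = ι (x j) / ι (D j) := fun j => by
    refine (IsLocalization.lift_mk'_spec _ _ _ _).2 ?_
    change ι (x j) = ι (D j) * (ι (x j) / ι (D j))
    rw [mul_div_cancel₀ _ (hι' ⟨D j, (hM _).2 (hD j)⟩).ne_zero]
  have hinj : ∀ z, E1 z = 0 → z = 0 := by
    intro z hz
    obtain ⟨a, m, rfl⟩ := IsLocalization.exists_mk'_eq M z
    have h1 := (IsLocalization.lift_mk'_spec _ _ _ _).1 hz
    rw [mul_zero] at h1
    have h2 : a = 0 := hι (by rw [h1, map_zero])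
    rw [h2, IsLocalization.mk'_zero]
  have h1 : MvPolynomial.aeval y P = 0 := by
    apply hinj
    rw [map_aeval_int]
    simp only [hE1]
    exact hP
  have h2 := map_aeval_int F1 y P
  rw [h1, map_zero] at h2
  simp only [hF1] at h2
  exact h2.symm

theorem eval_transfer {O E F J : Type*} [CommRing O] [Field E] [Field F] (ι : O →+* E)
    (hι : Function.Injective ι) (φ : O →+* F) (x D : J → O) (hD : ∀ j, φ (D j) ≠ 0)
    (P : MvPolynomial J ℤ) (hP : MvPolynomial.aeval (fun j => ι (x j) / ι (D j)) P = 0) :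
    MvPolynomial.aeval (fun j => φ (x j) / φ (D j)) P = 0 := by
  have hp : (RingHom.ker φ).IsPrime := RingHom.ker_isPrime φ
  exact eval_transfer_aux (S := Localization (RingHom.ker φ).primeCompl) ι hι φ
    (RingHom.ker φ).primeCompl (fun m => Iff.rfl) x D hD P hP


theorem exists_galois (S : Finset ℂ) (hSa : ∀ x ∈ S, IsAlgebraic ℚ x) :
    ∃ Ω : IntermediateField ℚ ℂ, (∀ x ∈ S, x ∈ Ω) ∧ FiniteDimensional ℚ Ω ∧ IsGalois ℚ Ω := by
  classical
  let P : Polynomial ℚ := ∏ x ∈ S, minpoly ℚ x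
  have hP0 : P ≠ 0 := Finset.prod_ne_zero_iff.2 fun x hx => minpoly.ne_zero (hSa x hx).isIntegral
  have hspl : (P.map (algebraMap ℚ ℂ)).Splits := IsAlgClosed.splits _
  have hsf : Polynomial.IsSplittingField ℚ (IntermediateField.adjoin ℚ (P.rootSet ℂ)) P :=
    IntermediateField.adjoin_rootSet_isSplittingField hspl
  refine ⟨IntermediateField.adjoin ℚ (P.rootSet ℂ), fun x hx => ?_, ?_, ?_⟩
  · apply IntermediateField.subset_adjoin
    rw [Polynomial.mem_rootSet]
    refine ⟨hP0, ?_⟩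
    change Polynomial.aeval x (∏ x ∈ S, minpoly ℚ x) = 0
    rw [map_prod]
    exact Finset.prod_eq_zero hx (minpoly.aeval ℚ x)
  · exact Polynomial.IsSplittingField.finiteDimensional _ P
  · have := Normal.of_isSplittingField (F := ℚ) (E := IntermediateField.adjoin ℚ (P.rootSet ℂ)) P
    exact ⟨⟩

theorem exists_prime_real (k : Type) [Field k] [NumberField k] [IsTotallyComplex k]
    {J : Type*} [Finite J] (y : J → ℝ) (hy : ∀ j, IsAlgebraic ℚ (y j)) (B : ℕ) :
    ∃ (p : ℕ) (_ : Fact p.Prime), B < p ∧ IsEmpty (𝓞 k →+* ℚ_[p]) ∧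
      ∃ z : J → ZMod p, ∀ P : MvPolynomial J ℤ, MvPolynomial.aeval y P = 0 →
        MvPolynomial.aeval z P = 0 := by
  classical
  have hJ := Fintype.ofFinite J
  obtain ⟨α, hα⟩ := Field.exists_primitive_element ℚ k
  have ⟨j0⟩ : Nonempty (k →+* ℂ) := inferInstance
  let j1 : k →ₐ[ℚ] ℂ := j0.toRatAlgHom
  obtain ⟨Ω, hSΩ, hfd, hgal⟩ := exists_galois (insert (j1 α) (Finset.univ.image fun j => (y j : ℂ))) (by
    intro x hx
    rw [Finset.mem_insert, Finset.mem_image] at hx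
    rcases hx with rfl | ⟨j, -, rfl⟩
    · exact (Algebra.IsAlgebraic.isAlgebraic (R := ℚ) α).algHom j1
    · exact (hy j).algHom (Complex.ofRealAm.restrictScalars ℚ))
  have hnf : NumberField Ω := ⟨⟩
  have hj1 : ∀ x, j1 x ∈ Ω := by
    intro x
    have h1 : j1.fieldRange ≤ Ω := by
      rw [AlgHom.fieldRange_eq_map, ← hα, IntermediateField.adjoin_map, Set.image_singleton,
        IntermediateField.adjoin_simple_le_iff]
      exact hSΩ _ (Finset.mem_insert_self _ _)
    exact h1 ⟨x, rfl⟩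
  let j : k →ₐ[ℚ] Ω := j1.codRestrict Ω.toSubalgebra hj1
  let τ : Gal(Ω/ℚ) := (Complex.conjAe.restrictScalars ℚ).restrictNormal Ω
  have hτ : ∀ x : Ω, ((τ x : Ω) : ℂ) = (starRingEnd ℂ) (x : ℂ) := fun x =>
    (Complex.conjAe.restrictScalars ℚ).restrictNormal_commutes Ω x
  have hden : ∀ j, ∃ D : ℤ, D ≠ 0 ∧ IsIntegral ℤ (D • y j) := fun j => by
    obtain ⟨D, hD, h⟩ := ((IsFractionRing.isAlgebraic_iff ℤ ℚ ℝ).2 (hy j)).exists_integral_multiple
    exact ⟨D, hD, h⟩
  choose D hD0 hD using hden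
  obtain ⟨D0, hD00, htor⟩ := torsor Ω
  have hinf := infinite_frob Ω τ
  obtain ⟨p, hp, hpS⟩ := hinf.exists_notMem_finset
    (Finset.range (B + 1) ∪ (Finset.range (D0 + 1) ∪ Finset.range (∑ j, (D j).natAbs + 1)))
  obtain ⟨hpp, hx⟩ := hp
  rw [Finset.mem_union, Finset.mem_union, Finset.mem_range, Finset.mem_range, Finset.mem_range,
    not_or, not_or, not_lt, not_lt, not_lt] at hpS
  obtain ⟨hpB, hpD, hpJ⟩ := hpS
  have hF : Fact p.Prime := ⟨hpp⟩
  have ht : TorAt Ω p := htor p fun hd => by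
    have := Nat.le_of_dvd hD00 hd
    omega
  have hne : Nonempty {φ : 𝓞 Ω →+* AlgebraicClosure (ZMod p) // HasFrob p φ τ} := by
    unfold xp at hx
    rw [dif_pos hpp] at hx
    by_contra hcon
    apply hx
    rw [not_nonempty_iff] at hcon
    exact Nat.card_eq_zero.2 (Or.inl hcon)
  obtain ⟨φ, hφ⟩ := hne
  have hpDj : ∀ j, ((D j : ℤ) : ZMod p) ≠ 0 := by
    intro j h
    rw [ZMod.intCast_zmod_eq_zero_iff_dvd] at h
    have h1 : p ∣ (D j).natAbs := Int.natCast_dvd.1 h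
    have h2 : 0 < (D j).natAbs := Int.natAbs_pos.2 (hD0 j)
    have h3 := Nat.le_of_dvd h2 h1
    have h4 : (D j).natAbs ≤ ∑ j, (D j).natAbs :=
      Finset.single_le_sum (f := fun j => (D j).natAbs) (fun _ _ => Nat.zero_le _)
        (Finset.mem_univ j)
    omega
  refine ⟨p, hF, by omega, ⟨fun s => ?_⟩, ?_⟩
  · obtain ⟨σ, hσ⟩ := frob_conj_of_hom j p ht φ τ hφ (padic_int_hom k p s)
    let e : k →+* ℂ := (algebraMap Ω ℂ).comp ((σ : Ω →+* Ω).comp (j : k →+* Ω))
    apply IsTotallyComplex.complexEmbedding_not_isReal e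
    rw [ComplexEmbedding.isReal_iff]
    ext x
    have h1 := hσ x
    have h2 := hτ (σ (j x))
    rw [h1] at h2
    exact h2.symm
  · have hyΩ : ∀ j, ((y j : ℝ) : ℂ) ∈ Ω := fun j =>
      hSΩ _ (Finset.mem_insert_of_mem (Finset.mem_image_of_mem _ (Finset.mem_univ j)))
    let yΩ : J → Ω := fun j => ⟨(y j : ℂ), hyΩ j⟩
    have hint : ∀ j, IsIntegral ℤ (D j • yΩ j) := by
      intro j
      have h1 : IsIntegral ℤ ((D j • y j : ℝ) : ℂ) := (hD j).map (Complex.ofRealAm.restrictScalars ℤ)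
      have h2 : ((D j • yΩ j : Ω) : ℂ) = ((D j • y j : ℝ) : ℂ) := by
        simp [yΩ, zsmul_eq_mul]
      refine (isIntegral_algebraMap_iff (R := ℤ) (A := Ω) (B := ℂ) (algebraMap Ω ℂ).injective).1 ?_
      change IsIntegral ℤ ((D j • yΩ j : Ω) : ℂ)
      rw [h2]
      exact h1
    let x : J → 𝓞 Ω := fun j => ⟨D j • yΩ j, hint j⟩
    have hxv : ∀ j, ((x j : 𝓞 Ω) : Ω) = D j • yΩ j := fun j => rfl
    have hfix : ∀ j, τ • (x j) = x j := by
      intro j
      apply RingOfIntegers.ext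
      change τ (x j : Ω) = (x j : Ω)
      rw [hxv, map_zsmul]
      congr 1
      apply Subtype.ext
      rw [hτ]
      exact Complex.conj_ofReal _
    have hz : ∀ j, ∃ z : ZMod p, algebraMap (ZMod p) (AlgebraicClosure (ZMod p)) z = φ (x j) := by
      intro j
      refine _root_.W54.ChTor.frob_fixed p _ ?_
      rw [← hφ, hfix]
    choose z hz using hz
    refine ⟨fun j => z j / (D j : ZMod p), fun P hP => ?_⟩
    have h1 := eval_transfer (algebraMap (𝓞 Ω) Ω) (RingOfIntegers.coe_injective) φ x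
      (fun j => (D j : 𝓞 Ω)) (fun j => by
        rw [map_intCast, ← map_intCast (algebraMap (ZMod p) (AlgebraicClosure (ZMod p)))]
        exact (map_ne_zero_iff _ (algebraMap (ZMod p) _).injective).2 (hpDj j)) P (by
        have h2 : (fun j => (algebraMap (𝓞 Ω) Ω) (x j) / (algebraMap (𝓞 Ω) Ω) (D j : 𝓞 Ω)) = yΩ := by
          funext j
          rw [map_intCast]
          have h3 : (algebraMap (𝓞 Ω) Ω) (x j) = (D j : Ω) * yΩ j := by
            rw [← zsmul_eq_mul]; rfl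
          rw [h3, mul_div_cancel_left₀]
          exact_mod_cast hD0 j
        rw [h2]
        have h4 := map_aeval_int (algebraMap Ω ℂ) yΩ P
        have h5 := map_aeval_int (algebraMap ℝ ℂ) y P
        rw [hP, map_zero] at h5
        apply (algebraMap Ω ℂ).injective
        rw [h4, map_zero, h5]
        rfl)
    apply (algebraMap (ZMod p) (AlgebraicClosure (ZMod p))).injective
    rw [map_zero, map_aeval_int]
    rw [← h1]
    congr 1
    congr 1
    funext j
    rw [map_div₀, hz, map_intCast, map_intCast]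

end Pool.Agent.Y328
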