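import Pool.Agent.Y328.PEmb2

/-!
# Finitely generated domains with enough real points embed in `ℤ_p` for suitable primes `p`
-/

set_option autoImplicit false
set_option linter.unusedSectionVars false

namespace Pool.Agent.Y328
open NumberField

theorem map_ev2 {d : ℕ} {R S : Type*} [CommRing R] [CommRing S] (g : R →+* S)
    (F : Polynomial (MvPolynomial (Fin d) ℤ)) (x : Fin d → R) (y : R) :
    g (ev2 F x y) = ev2 F (fun i => g (x i)) (g y) := by
  unfold ev2
  rw [Polynomial.hom_eval₂]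
  congr 1
  ext i
  · simp
  · simp

theorem toZMod_eq_zero {p : ℕ} [Fact p.Prime] (x : ℤ_[p]) : PadicInt.toZMod x = 0 ↔ ‖x‖ < 1 := by
  rw [← PadicInt.mem_nonunits, ← IsLocalRing.mem_maximalIdeal, ← PadicInt.ker_toZMod,
    RingHom.mem_ker]

theorem isUnit_of_toZMod {p : ℕ} [Fact p.Prime] (x : ℤ_[p]) (h : PadicInt.toZMod x ≠ 0) :
    IsUnit x := by
  rw [PadicInt.isUnit_iff]
  rw [Ne, toZMod_eq_zero, not_lt] at h
  exact le_antisymm (PadicInt.norm_le_one x) h

theorem hensel_step {p : ℕ} [Fact p.Prime] {d : ℕ} (F : Polynomial (MvPolynomial (Fin d) ℤ))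
    (τ : Fin d → ℤ_[p]) (c : Fin d → ZMod p) (hτ : ∀ i, PadicInt.toZMod (τ i) = c i) (z : ZMod p)
    (h0 : ev2 F c z = 0) (h1 : ev2 (Polynomial.derivative F) c z ≠ 0) :
    ∃ w : ℤ_[p], ev2 F τ w = 0 := by
  let e : MvPolynomial (Fin d) ℤ →+* ℤ_[p] :=
    (MvPolynomial.aeval τ : MvPolynomial (Fin d) ℤ →ₐ[ℤ] ℤ_[p]).toRingHom
  let G : Polynomial ℤ_[p] := F.map e
  let a : ℤ_[p] := (z.val : ℤ_[p])
  have ha : PadicInt.toZMod a = z := by simp [a]
  have hG : ∀ t, Polynomial.aeval t G = ev2 F τ t := fun t => by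
    rw [Polynomial.coe_aeval_eq_eval, ← Polynomial.eval₂_eq_eval_map]
    rfl
  have hG' : ∀ t, Polynomial.aeval t (Polynomial.derivative G) = ev2 (Polynomial.derivative F) τ t :=
    fun t => by
      rw [Polynomial.coe_aeval_eq_eval, Polynomial.derivative_map, ← Polynomial.eval₂_eq_eval_map]
      rfl
  have hn : ‖Polynomial.aeval a G‖ < ‖Polynomial.aeval a (Polynomial.derivative G)‖ ^ 2 := by
    have h2 : ‖Polynomial.aeval a G‖ < 1 := by
      rw [← toZMod_eq_zero, hG, map_ev2]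
      simp only [hτ, ha]
      exact h0
    have h3 : ‖Polynomial.aeval a (Polynomial.derivative G)‖ = 1 := by
      rw [← PadicInt.isUnit_iff]
      apply isUnit_of_toZMod
      rw [hG', map_ev2]
      simp only [hτ, ha]
      exact h1
    rw [h3, one_pow]
    exact h2
  obtain ⟨w, hw, -⟩ := hensels_lemma hn
  exact ⟨w, by rw [← hG]; exact hw⟩

theorem alg_of_basis {A : Type*} [CommRing A] [IsDomain A] [CharZero A] {d : ℕ} (t : Fin d → A)
    (ht : IsTranscendenceBasis ℤ t) [alg : Algebra (MvPolynomial (Fin d) ℤ) A]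
    (halg : algebraMap (MvPolynomial (Fin d) ℤ) A = (MvPolynomial.aeval t : _ →ₐ[ℤ] A).toRingHom) :
    Algebra.IsAlgebraic (MvPolynomial (Fin d) ℤ) A := by
  have h1 : Algebra.IsAlgebraic (Algebra.adjoin ℤ (Set.range t)) A := ht.isAlgebraic
  refine Algebra.IsAlgebraic.of_ringHom_of_comp_eq
    (ht.1.aevalEquiv : MvPolynomial (Fin d) ℤ ≃ₐ[ℤ] Algebra.adjoin ℤ (Set.range t)) (RingHom.id A)
    (AlgEquiv.surjective _) Function.injective_id ?_
  rw [halg]
  ext i <;> simp

/-- **Embedding theorem.** A finitely generated domain with enough real points embeds in `ℤ_p` for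
arbitrarily large primes `p` such that a given totally complex number field does not embed in
`ℚ_p`. -/
theorem exists_embedding (k : Type) [Field k] [NumberField k] [IsTotallyComplex k]
    {A : Type*} [CommRing A] [IsDomain A] [CharZero A] [Algebra.FiniteType ℤ A]
    (hreal : ∀ h : A, h ≠ 0 → ∃ ρ : A →+* ℝ, ρ h ≠ 0) (B : ℕ) :
    ∃ (p : ℕ) (_ : Fact p.Prime), B < p ∧ IsEmpty (𝓞 k →+* ℚ_[p]) ∧
      ∃ ψ : A →+* ℤ_[p], Function.Injective ψ := by
  classical
  obtain ⟨d, t, ht⟩ : ∃ (d : ℕ) (t : Fin d → A), IsTranscendenceBasis ℤ t := by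
    obtain ⟨ι, v, hv⟩ := exists_isTranscendenceBasis' ℤ A
    have hfin : Finite ι := by
      have h1 := trdeg_lt_aleph0_of_finiteType (R := ℤ) (S := A)
      have h2 := hv.lift_cardinalMk_eq_trdeg
      rw [← Cardinal.mk_lt_aleph0_iff, ← Cardinal.lift_lt_aleph0, h2, Cardinal.lift_lt_aleph0]
      exact h1
    have hft := Fintype.ofFinite ι
    let eq := Fintype.equivFin ι
    exact ⟨_, v ∘ eq.symm, hv.comp_equiv eq.symm⟩
  let _ : Algebra (MvPolynomial (Fin d) ℤ) A := (MvPolynomial.aeval t : _ →ₐ[ℤ] A).toRingHom.toAlgebra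
  have halgmap : algebraMap (MvPolynomial (Fin d) ℤ) A = (MvPolynomial.aeval t : _ →ₐ[ℤ] A).toRingHom := rfl
  have hinj : Function.Injective (algebraMap (MvPolynomial (Fin d) ℤ) A) := ht.1
  have h1 : FaithfulSMul (MvPolynomial (Fin d) ℤ) A := (faithfulSMul_iff_algebraMap_injective _ _).2 hinj
  have h2 : IsScalarTower ℤ (MvPolynomial (Fin d) ℤ) A := IsScalarTower.of_algebraMap_eq' (Subsingleton.elim _ _)
  have h3 : Algebra.FiniteType (MvPolynomial (Fin d) ℤ) A :=
    Algebra.FiniteType.of_restrictScalars_finiteType ℤ _ _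
  have h4 : Algebra.IsAlgebraic (MvPolynomial (Fin d) ℤ) A := alg_of_basis t ht halgmap
  have h5 : CharZero (MvPolynomial (Fin d) ℤ) := inferInstance
  obtain ⟨S, hS⟩ := (Algebra.FiniteType.out (R := ℤ) (A := A))
  have h6 : FaithfulSMul (MvPolynomial (Fin d) ℤ) (FractionRing A) := by
    rw [faithfulSMul_iff_algebraMap_injective,
      IsScalarTower.algebraMap_eq (MvPolynomial (Fin d) ℤ) A (FractionRing A)]
    exact (IsFractionRing.injective A (FractionRing A)).comp hinj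
  let _ := FractionRing.liftAlgebra (MvPolynomial (Fin d) ℤ) (FractionRing A)
  have h7 := FractionRing.isScalarTower_liftAlgebra (MvPolynomial (Fin d) ℤ) (FractionRing A)
  obtain ⟨θ, f, h, hf0, hf1, hh, hG, hlift⟩ := data_aux (R := MvPolynomial (Fin d) ℤ) (A := A)
    (K := FractionRing (MvPolynomial (Fin d) ℤ)) (L := FractionRing A) S
  have hev : ∀ (F : Polynomial (MvPolynomial (Fin d) ℤ)), ev2 F t θ = Polynomial.aeval θ F :=
    fun F => rfl
  -- a real point
  obtain ⟨ρ, hρ⟩ := hreal (Polynomial.aeval θ (Polynomial.derivative f) * algebraMap _ A h)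
    (mul_ne_zero hf1 (by rw [Ne, map_eq_zero_iff _ hinj]; exact hh))
  rw [map_mul] at hρ
  have hx0 : ev2 f (fun i => ρ (t i)) (ρ θ) = 0 := by
    rw [← map_ev2, hev, hf0, map_zero]
  have hx1 : ev2 (Polynomial.derivative f) (fun i => ρ (t i)) (ρ θ) ≠ 0 := by
    rw [← map_ev2, hev]
    exact left_ne_zero_of_mul hρ
  have hx2 : MvPolynomial.aeval (fun i => ρ (t i)) h ≠ 0 := by
    rw [← map_aeval_int]
    exact right_ne_zero_of_mul hρ
  obtain ⟨c, z, hc0, hc1, hc2⟩ := exists_rat_root f h _ _ hx0 hx1 hx2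
  have hzalg : IsAlgebraic ℚ z := by
    let e : MvPolynomial (Fin d) ℤ →+* ℚ := (MvPolynomial.aeval c : _ →ₐ[ℤ] ℚ).toRingHom
    have he : ∀ F : Polynomial (MvPolynomial (Fin d) ℤ),
        Polynomial.aeval z (F.map e) = ev2 F (fun i => (c i : ℝ)) z := by
      intro F
      rw [Polynomial.aeval_def, Polynomial.eval₂_map]
      unfold ev2
      congr 1
      ext i <;> simp [e]
    refine ⟨f.map e, ?_, by rw [he, hc0]⟩
    intro h0
    apply hc1
    rw [← he, ← Polynomial.derivative_map, h0]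
    simp
  let y : Fin d ⊕ Fin 3 → ℝ := Sum.elim (fun i => (c i : ℝ)) ![z,
    (MvPolynomial.aeval (fun i => (c i : ℝ)) h)⁻¹,
    (ev2 (Polynomial.derivative f) (fun i => (c i : ℝ)) z)⁻¹]
  have hyalg : ∀ j, IsAlgebraic ℚ (y j) := by
    let c' : Fin d → algebraicClosure ℚ ℝ := fun i => ⟨(c i : ℝ), (algebraicClosure ℚ ℝ).algebraMap_mem (c i)⟩
    let z1 : algebraicClosure ℚ ℝ := ⟨z, mem_algebraicClosure_iff.2 hzalg⟩
    have hmem : ∀ F : Polynomial (MvPolynomial (Fin d) ℤ),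
        IsAlgebraic ℚ (ev2 F (fun i => (c i : ℝ)) z) := by
      intro F
      have h8 := map_ev2 (algebraMap (algebraicClosure ℚ ℝ) ℝ) F c' z1
      have h9 : ev2 F (fun i => (c i : ℝ)) z = algebraMap (algebraicClosure ℚ ℝ) ℝ (ev2 F c' z1) := h8.symm
      rw [h9]
      exact mem_algebraicClosure_iff.1 (ev2 F c' z1).2
    have hh2 : MvPolynomial.aeval (fun i => (c i : ℝ)) h = ev2 (Polynomial.C h) (fun i => (c i : ℝ)) z := by
      unfold ev2
      rw [Polynomial.eval₂_C]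
      rfl
    rintro (i | j)
    · exact isAlgebraic_algebraMap (c i)
    · fin_cases j
      · exact hzalg
      · change IsAlgebraic ℚ (MvPolynomial.aeval (fun i => (c i : ℝ)) h)⁻¹
        rw [hh2]
        exact (hmem _).inv
      · exact (hmem _).inv
  obtain ⟨p, hp, hpB, hpk, z', hz'⟩ := exists_prime_real k y hyalg B
  -- a point modulo `p`
  let cp : Fin d → ZMod p := fun i => z' (Sum.inl i)
  let zp : ZMod p := z' (Sum.inr 0)
  let Xl : Fin d → MvPolynomial (Fin d ⊕ Fin 3) ℤ := fun i => MvPolynomial.X (Sum.inl i)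
  let Xr : Fin 3 → MvPolynomial (Fin d ⊕ Fin 3) ℤ := fun i => MvPolynomial.X (Sum.inr i)
  have hz2 : ∀ P : MvPolynomial (Fin d ⊕ Fin 3) ℤ, MvPolynomial.aeval y P = 0 →
      MvPolynomial.aeval z' P = 0 := hz'
  have hev1 : ∀ F : Polynomial (MvPolynomial (Fin d) ℤ),
      MvPolynomial.aeval y (ev2 F Xl (Xr 0)) = ev2 F (fun i => (c i : ℝ)) z := by
    intro F
    have h8 := map_ev2 (MvPolynomial.aeval y : _ →ₐ[ℤ] ℝ).toRingHom F Xl (Xr 0)
    refine h8.trans ?_
    congr 1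
    · funext i
      exact MvPolynomial.aeval_X _ _
    · exact MvPolynomial.aeval_X _ _
  have hev2 : ∀ F : Polynomial (MvPolynomial (Fin d) ℤ),
      MvPolynomial.aeval z' (ev2 F Xl (Xr 0)) = ev2 F cp zp := by
    intro F
    have h8 := map_ev2 (MvPolynomial.aeval z' : _ →ₐ[ℤ] ZMod p).toRingHom F Xl (Xr 0)
    refine h8.trans ?_
    congr 1
    · funext i
      exact MvPolynomial.aeval_X _ _
    · exact MvPolynomial.aeval_X _ _
  have hp0 : ev2 f cp zp = 0 := by
    rw [← hev2]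
    apply hz2
    rw [hev1, hc0]
  have hp1 : ev2 (Polynomial.derivative f) cp zp ≠ 0 := by
    have h8 := hz2 (ev2 (Polynomial.derivative f) Xl (Xr 0) * Xr 2 - 1) (by
      rw [map_sub, map_mul, hev1, map_one, MvPolynomial.aeval_X]
      change _ * (ev2 (Polynomial.derivative f) (fun i => (c i : ℝ)) z)⁻¹ - 1 = 0
      rw [mul_inv_cancel₀ hc1, sub_self])
    rw [map_sub, map_mul, hev2, map_one] at h8
    intro h9
    rw [h9, zero_mul, zero_sub] at h8
    exact one_ne_zero (neg_eq_zero.1 h8)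
  have hCh : ∀ {R : Type} [CommRing R] (x : Fin d → R) (w : R),
      ev2 (Polynomial.C h) x w = MvPolynomial.aeval x h := by
    intro R _ x w
    unfold ev2
    rw [Polynomial.eval₂_C]
    rfl
  have hp2 : MvPolynomial.aeval cp h ≠ 0 := by
    have h8 := hz2 (ev2 (Polynomial.C h) Xl (Xr 0) * Xr 1 - 1) (by
      rw [map_sub, map_mul, hev1, map_one, MvPolynomial.aeval_X, hCh]
      change _ * (MvPolynomial.aeval (fun i => (c i : ℝ)) h)⁻¹ - 1 = 0
      rw [mul_inv_cancel₀ hc2, sub_self])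
    rw [map_sub, map_mul, hev2, map_one, hCh] at h8
    intro h9
    rw [h9, zero_mul, zero_sub] at h8
    exact one_ne_zero (neg_eq_zero.1 h8)
  -- the `p`-adic point
  obtain ⟨τ, hτ, hτi⟩ := exists_algInd_lift p cp
  obtain ⟨w, hw⟩ := hensel_step f τ cp hτ zp hp0 hp1
  let φ0 : MvPolynomial (Fin d) ℤ →+* ℤ_[p] := (MvPolynomial.aeval τ : _ →ₐ[ℤ] ℤ_[p]).toRingHom
  let φ : MvPolynomial (Fin d) ℤ →+* ℚ_[p] := (PadicInt.Coe.ringHom).comp φ0
  have hφinj : Function.Injective φ := by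
    rw [injective_iff_map_eq_zero]
    intro P hP
    apply hτi
    exact Subtype.ext hP
  have hevφ : ∀ F : Polynomial (MvPolynomial (Fin d) ℤ),
      F.eval₂ φ (w : ℚ_[p]) = ((ev2 F τ w : ℤ_[p]) : ℚ_[p]) := by
    intro F
    change _ = PadicInt.Coe.ringHom (F.eval₂ φ0 w)
    rw [Polynomial.hom_eval₂]
    rfl
  obtain ⟨ψ, hψi, hψr, hψθ⟩ := hlift ℚ_[p] φ hφinj w (by rw [hevφ, hw]; rfl)
  have hψG : ∀ G : Polynomial (MvPolynomial (Fin d) ℤ),
      ψ (Polynomial.aeval θ G) = ((ev2 G τ w : ℤ_[p]) : ℚ_[p]) := by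
    intro G
    rw [← hevφ, Polynomial.aeval_def, Polynomial.hom_eval₂, hψθ]
    congr 1
    ext r
    · simp
    · exact hψr _
  have hunit : IsUnit (φ0 h) := by
    apply isUnit_of_toZMod
    change PadicInt.toZMod (MvPolynomial.aeval τ h) ≠ 0
    rw [map_aeval_int]
    simp only [hτ]
    exact hp2
  obtain ⟨u, hu⟩ := hunit
  have hmemS : ∀ a ∈ S, ψ a ∈ PadicInt.subring p := by
    intro a ha
    obtain ⟨G, hG⟩ := hG a ha
    have h8 := congrArg ψ hG
    rw [hψG, Algebra.smul_def, map_mul, hψr] at h8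
    have h9 : ψ a = (((u⁻¹ : ℤ_[p]ˣ) : ℤ_[p]) * (ev2 G τ w) : ℤ_[p]) := by
      rw [PadicInt.coe_mul, ← h8]
      have h10 : φ h = ((u : ℤ_[p]) : ℚ_[p]) := by
        rw [hu]; rfl
      rw [h10, ← mul_assoc, ← PadicInt.coe_mul, Units.inv_mul, PadicInt.coe_one, one_mul]
    rw [h9]
    exact (((u⁻¹ : ℤ_[p]ˣ) : ℤ_[p]) * (ev2 G τ w) : ℤ_[p]).2
  have hmem : ∀ a, ψ a ∈ PadicInt.subring p := by
    intro a
    have h8 : a ∈ Algebra.adjoin ℤ (S : Set A) := by rw [hS]; exact Algebra.mem_top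
    induction h8 using Algebra.adjoin_induction with
    | mem x hx => exact hmemS x hx
    | algebraMap r =>
      rw [algebraMap_int_eq, eq_intCast, map_intCast]
      exact intCast_mem _ r
    | add x y _ _ hx hy => rw [map_add]; exact add_mem hx hy
    | mul x y _ _ hx hy => rw [map_mul]; exact mul_mem hx hy
  refine ⟨p, hp, hpB, hpk, ψ.codRestrict (PadicInt.subring p) hmem, ?_⟩
  intro a b hab
  exact hψi (congrArg Subtype.val hab)

end Pool.Agent.Y328
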