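import Pool.Agent.Y328.PDual
import Pool.Agent.Y328.LemC

/-!
# Steinberg families of automorphisms which are trivial modulo `p` fix every small point
-/

set_option autoImplicit false
set_option linter.unusedSectionVars false

namespace Pool.Agent.Y328

open Module TensorProduct

section Rep

variable {p : ℕ} [hp : Fact p.Prime] {B : Type*} [CommRing B]

/-- the representation on the dual -/
noncomputable def rho (h : B ≃+* B) : Module.End ℤ_[p] (Du p B) :=
  pre ((h⁻¹ : B ≃+* B) : B →+ B)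

theorem rho_apply (h : B ≃+* B) (v : Du p B) (b : B) : rho h v b = v (h⁻¹ b) := rfl

theorem rho_mul (g h : B ≃+* B) : rho (p := p) (g * h) = rho g * rho h := by
  ext v b
  rw [Module.End.mul_apply, rho_apply, rho_apply, rho_apply, mul_inv_rev]
  rfl

theorem rho_one : rho (p := p) (1 : B ≃+* B) = 1 := by
  ext v b
  rw [rho_apply, inv_one, Module.End.one_apply]
  rfl

theorem rho_pow (h : B ≃+* B) (n : ℕ) : rho (p := p) (h ^ n) = rho h ^ n := by
  induction n with
  | zero => rw [pow_zero, pow_zero, rho_one]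
  | succ n ih => rw [pow_succ, pow_succ, rho_mul, ih]

/-- `h` is the identity modulo `p` -/
def TrivP (p : ℕ) (h : B ≃+* B) : Prop := ∀ b, ∃ b', h b - b = (p : ℕ) • b'

theorem TrivP.inv {h : B ≃+* B} (hh : TrivP p h) : TrivP p h⁻¹ := by
  intro b
  obtain ⟨b', hb'⟩ := hh (h⁻¹ b)
  refine ⟨-b', ?_⟩
  have : h (h⁻¹ b) = b := h.apply_symm_apply b
  rw [this] at hb'
  rw [smul_neg, ← hb']
  abel

theorem rho_dv (htf : ∀ b : B, (p : ℕ) • b = 0 → b = 0) {h : B ≃+* B} (hh : TrivP p h) :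
    Dv p 1 (rho (p := p) h - 1) :=
  pre_dv htf _ hh.inv

/-- the ring homomorphism `ψ ∘ h⁻¹` -/
noncomputable def twist (ψ : B →+* ℤ_[p]) (h : B ≃+* B) : B →+* ℤ_[p] := ψ.comp ((h⁻¹ : B ≃+* B) : B →+* B)

theorem twist_eq (ψ : B →+* ℤ_[p]) (h : B ≃+* B) :
    (twist ψ h).toAddMonoidHom = rho h ψ.toAddMonoidHom := rfl

variable (htf : ∀ b : B, (p : ℕ) • b = 0 → b = 0)

theorem smul_eq_dv {R : Module.End ℤ_[p] (Du p B)} {k : ℕ} (h : Dv p k R) (v : Du p B) :
    ∃ w : Du p B, R v = (p : Module.End ℤ_[p] (Du p B)) ^ k • w := by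
  obtain ⟨s, rfl⟩ := h
  exact ⟨s v, rfl⟩

theorem fix_inv {h : B ≃+* B} {c : B} (hc : h c = c) : (h⁻¹ : B ≃+* B) c = c := by
  have h1 : (h⁻¹ : B ≃+* B) (h c) = c := h.symm_apply_apply c
  rwa [hc] at h1

theorem fix_mul {g h : B ≃+* B} {c : B} (hg : g c = c) (hc : h c = c) : (g * h) c = c := by
  change g (h c) = c
  rw [hc, hg]

theorem fix_pow {h : B ≃+* B} {c : B} (hc : h c = c) (n : ℕ) : (h ^ n) c = c := by
  induction n with
  | zero => rfl
  | succ n ih => rw [pow_succ]; exact fix_mul ih hc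

/-- the logarithm of an automorphism gives a derivation -/
theorem log_mem_Ders (ψ : B →+* ℤ_[p]) (C : Set B) {h : B ≃+* B} {l : Module.End ℤ_[p] (Du p B)}
    (hl : IsLog p (rho h) l) (hC : ∀ c ∈ C, h c = c) : l ψ.toAddMonoidHom ∈ Ders ψ C := by
  refine limit_mem_Ders ψ C _ (fun N => N) (fun N => twist ψ (h ^ (p ^ N))) (fun _ => ψ)
    ?_ ?_ ?_ ?_ ?_
  · intro N
    have h1 := smul_eq_dv (Dv_pow_sub_one hl.1 N) ψ.toAddMonoidHom
    rwa [LinearMap.sub_apply, Module.End.one_apply, ← rho_pow, ← twist_eq] at h1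
  · intro N
    exact ⟨0, by rw [sub_self, smul_zero]⟩
  · intro N
    have h1 := smul_eq_dv ((Dv_pow_sub_one hl.1 N).mono (show N ≤ N + 1 by omega))
      ψ.toAddMonoidHom
    rwa [LinearMap.sub_apply, Module.End.one_apply, ← rho_pow, ← twist_eq] at h1
  · intro N
    have h1 := smul_eq_dv (hl.2 N) ψ.toAddMonoidHom
    rw [show 2 * N + 1 = N + (N + 1) by omega, LinearMap.sub_apply, LinearMap.sub_apply,
      Module.End.one_apply, ← rho_pow, ← twist_eq] at h1
    exact h1
  · intro N c hc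
    change ψ ((h ^ (p ^ N))⁻¹ c) = ψ c
    rw [fix_inv (fix_pow (hC c hc) _)]

theorem bracket_mem_Ders (ψ : B →+* ℤ_[p]) (C : Set B) {h h' : B ≃+* B}
    {l m : Module.End ℤ_[p] (Du p B)} (hl : IsLog p (rho h) l) (hm : IsLog p (rho h') m)
    (hC : ∀ c ∈ C, h c = c) (hC' : ∀ c ∈ C, h' c = c) :
    (br l m) ψ.toAddMonoidHom ∈ Ders ψ C := by
  refine limit_mem_Ders ψ C _ (fun N => 2 * N) (fun N => twist ψ (h ^ (p ^ N) * h' ^ (p ^ N)))
    (fun N => twist ψ (h' ^ (p ^ N) * h ^ (p ^ N))) ?_ ?_ ?_ ?_ ?_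
  · intro N
    have h1 := smul_eq_dv (Dv_mul_pow_sub_one hm.1 hl.1 N) ψ.toAddMonoidHom
    rwa [LinearMap.sub_apply, Module.End.one_apply, ← rho_pow, ← rho_pow, ← rho_mul,
      ← twist_eq] at h1
  · intro N
    have h1 := smul_eq_dv (Dv_mul_pow_sub_one hl.1 hm.1 N) ψ.toAddMonoidHom
    rwa [LinearMap.sub_apply, Module.End.one_apply, ← rho_pow, ← rho_pow, ← rho_mul,
      ← twist_eq] at h1
  · intro N
    have h0 : Dv p (2 * N) (rho (p := p) h ^ (p ^ N) * rho h' ^ (p ^ N) -
        rho h' ^ (p ^ N) * rho h ^ (p ^ N)) := by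
      have e : rho (p := p) h ^ (p ^ N) * rho h' ^ (p ^ N) - rho h' ^ (p ^ N) * rho h ^ (p ^ N) =
        (rho (p := p) h ^ (p ^ N) * rho h' ^ (p ^ N) - rho h' ^ (p ^ N) * rho h ^ (p ^ N) -
        (p : Module.End ℤ_[p] (Du p B)) ^ (2 * N) * (l * m - m * l)) +
        (p : Module.End ℤ_[p] (Du p B)) ^ (2 * N) * (l * m - m * l) := by abel
      rw [e]
      exact ((hl.comm_expand hm N).mono (by omega)).add (Dv.pow_mul _ _)
    have h1 := smul_eq_dv h0 ψ.toAddMonoidHom
    rwa [LinearMap.sub_apply, ← rho_pow, ← rho_pow, ← rho_mul, ← rho_mul, ← twist_eq,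
      ← twist_eq] at h1
  · intro N
    have h1 := smul_eq_dv (hl.comm_expand hm N) ψ.toAddMonoidHom
    rw [LinearMap.sub_apply, LinearMap.sub_apply, ← rho_pow, ← rho_pow, ← rho_mul, ← rho_mul,
      ← twist_eq, ← twist_eq] at h1
    exact h1
  · intro N c hc
    change ψ ((h ^ (p ^ N) * h' ^ (p ^ N))⁻¹ c) = ψ ((h' ^ (p ^ N) * h ^ (p ^ N))⁻¹ c)
    rw [fix_inv (fix_mul (fix_pow (hC c hc) _) (fix_pow (hC' c hc) _)),
      fix_inv (fix_mul (fix_pow (hC' c hc) _) (fix_pow (hC c hc) _))]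

/-- the space spanned by small derivations is small -/
theorem finrank_Ders (ψ : B →+* ℤ_[p]) (C : Set B) {m : ℕ} (x : Fin m → B)
    (hx : ∀ D ∈ Ders ψ C, (∀ i, D (x i) = 0) → D = 0) :
    ∃ W : Submodule ℚ_[p] (ℚ_[p] ⊗[ℤ_[p]] Du p B), FiniteDimensional ℚ_[p] W ∧
      finrank ℚ_[p] W ≤ m ∧ ∀ D ∈ Ders ψ C, (1 : ℚ_[p]) ⊗ₜ[ℤ_[p]] D ∈ W := by
  classical
  let ev : Ders ψ C →ₗ[ℤ_[p]] (Fin m → ℤ_[p]) :=
    { toFun := fun D i => D.1 (x i)
      map_add' := fun _ _ => rfl
      map_smul' := fun _ _ => rfl }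
  have hev : Function.Injective ev := by
    rw [injective_iff_map_eq_zero]
    rintro ⟨D, hD⟩ h
    exact Subtype.ext (hx D hD fun i => congrFun h i)
  obtain ⟨n, ⟨b⟩⟩ := Submodule.nonempty_basis_of_pid (Pi.basisFun ℤ_[p] (Fin m))
    (LinearMap.range ev)
  have hn : n ≤ m := by
    have h1 := finrank_eq_card_basis b
    have h2 := Submodule.finrank_le (LinearMap.range ev)
    rw [Fintype.card_fin] at h1
    rw [finrank_pi, Fintype.card_fin] at h2
    omega
  let e := LinearEquiv.ofInjective ev hev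
  let b' := b.map e.symm
  let s : Finset (ℚ_[p] ⊗[ℤ_[p]] Du p B) :=
    Finset.univ.image fun i => (1 : ℚ_[p]) ⊗ₜ[ℤ_[p]] (b' i : Du p B)
  refine ⟨Submodule.span ℚ_[p] (s : Set _), inferInstance, ?_, ?_⟩
  · refine (finrank_span_finset_le_card s).trans (le_trans Finset.card_image_le ?_)
    rw [Finset.card_univ, Fintype.card_fin]
    exact hn
  · intro D hD
    have h1 := b'.sum_repr ⟨D, hD⟩
    have h2 : D = ∑ i, b'.repr ⟨D, hD⟩ i • (b' i : Du p B) := by
      conv_lhs => rw [show D = ((⟨D, hD⟩ : Ders ψ C) : Du p B) from rfl, ← h1]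
      rw [Submodule.coe_sum]
      rfl
    rw [h2, TensorProduct.tmul_sum]
    refine Submodule.sum_mem _ fun i _ => ?_
    rw [TensorProduct.tmul_smul, ← algebraMap_smul ℚ_[p], ]
    refine Submodule.smul_mem _ _ (Submodule.subset_span ?_)
    rw [Finset.mem_coe]
    exact Finset.mem_image_of_mem _ (Finset.mem_univ i)

theorem tmul_eq_zero_imp (v : Du p B) (h : (1 : ℚ_[p]) ⊗ₜ[ℤ_[p]] v = 0) : v = 0 := by
  ext b
  let f : Du p B →ₗ[ℤ_[p]] ℚ_[p] :=
    { toFun := fun v => ((v b : ℤ_[p]) : ℚ_[p])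
      map_add' := fun u v => by rw [AddMonoidHom.add_apply, PadicInt.coe_add]
      map_smul' := fun t v => by
        rw [AddMonoidHom.smul_apply, smul_eq_mul, PadicInt.coe_mul, RingHom.id_apply,
          Algebra.smul_def]
        rfl }
  have h1 := congrArg (f.liftBaseChange ℚ_[p]) h
  rw [LinearMap.liftBaseChange_tmul, one_smul, map_zero] at h1
  have h2 : ((v b : ℤ_[p]) : ℚ_[p]) = 0 := h1
  rw [AddMonoidHom.zero_apply]
  exact Subtype.ext h2

end Rep

section Family

variable {p : ℕ} [hp : Fact p.Prime] {B : Type*} [CommRing B]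

/-- A family of automorphisms indexed by ordered pairs and a ring `O`, satisfying the Steinberg
relations up to a constant `c`. -/
structure GStb {ι O G : Type*} [CommRing O] [Group G] (c : ℕ) (g : ι → ι → O → G) : Prop where
  add : ∀ i j a b, i ≠ j → g i j (a + b) = g i j a * g i j b
  comm3 : ∀ i j k a b, i ≠ j → j ≠ k → i ≠ k →
    g i j a * g j k b = g i k ((c : O) * (a * b)) * (g j k b * g i j a)
  comm0 : ∀ i j k l a b, i ≠ j → k ≠ l → j ≠ k → i ≠ l → g i j a * g k l b = g k l b * g i j a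

theorem GStb.zero {ι O G : Type*} [CommRing O] [Group G] {c : ℕ} {g : ι → ι → O → G}
    (h : GStb c g) {i j : ι} (hij : i ≠ j) : g i j 0 = 1 := by
  have := h.add i j 0 0 hij
  rw [add_zero] at this
  exact left_eq_mul.1 this

theorem GStb.nsmul {ι O G : Type*} [CommRing O] [Group G] {c : ℕ} {g : ι → ι → O → G}
    (h : GStb c g) {i j : ι} (hij : i ≠ j) (n : ℕ) (a : O) : g i j (n * a) = g i j a ^ n := by
  induction n with
  | zero => rw [Nat.cast_zero, zero_mul, pow_zero, h.zero hij]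
  | succ n ih => rw [Nat.cast_succ, add_mul, one_mul, h.add _ _ _ _ hij, ih, pow_succ]

theorem GStb.comm {ι O G : Type*} [CommRing O] [Group G] {c : ℕ} {g : ι → ι → O → G}
    (h : GStb c g) {i j : ι} (hij : i ≠ j) (a b : O) : g i j a * g i j b = g i j b * g i j a := by
  rw [← h.add _ _ _ _ hij, ← h.add _ _ _ _ hij, add_comm]

/-- a quotient algebra of dimension less than two -/
theorem two_le_finrank_gen {F K : Type*} [Field F] [CommRing K] [Algebra F K]
    [FiniteDimensional F K] (h : IsEmpty (K →+* F)) (I : Ideal K) (hI : I ≠ ⊤) :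
    2 ≤ finrank F (K ⧸ I) := by
  by_contra hlt
  have hnt : Nontrivial (K ⧸ I) := Ideal.Quotient.nontrivial_iff.2 hI
  have hpos : 0 < finrank F (K ⧸ I) := finrank_pos
  have h1 : finrank F (K ⧸ I) = 1 := by omega
  have hs : ∀ y : K ⧸ I, ∃ r : F, Ideal.Quotient.mk I (algebraMap F K r) = y := by
    intro y
    obtain ⟨r, hr⟩ := exists_smul_eq_of_finrank_eq_one h1 (one_ne_zero : (1 : K ⧸ I) ≠ 0) y
    refine ⟨r, ?_⟩
    rw [← hr, Algebra.algebraMap_eq_smul_one]
    rfl
  have hbij : Function.Bijective ((Ideal.Quotient.mk I).comp (algebraMap F K)) :=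
    ⟨RingHom.injective _, hs⟩
  exact h.false (((RingEquiv.ofBijective _ hbij).symm : K ⧸ I →+* F).comp (Ideal.Quotient.mk I))

theorem tensor_isEmpty {O : Type*} [CommRing O] (hO : IsEmpty (O →+* ℚ_[p])) :
    IsEmpty ((ℚ_[p] ⊗[ℤ] O) →+* ℚ_[p]) :=
  ⟨fun f => hO.false (f.comp
    (Algebra.TensorProduct.includeRight (R := ℤ) (A := ℚ_[p]) (B := O)).toRingHom)⟩

theorem padic_family {ι : Type*} [Fintype ι] [DecidableEq ι] (hn : 3 ≤ Fintype.card ι)
    {O : Type*} [CommRing O] [Module.Finite ℤ O] (hO : IsEmpty (O →+* ℚ_[p])) (hp2 : p ≠ 2)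
    (htf : ∀ b : B, (p : ℕ) • b = 0 → b = 0) (ψ : B →+* ℤ_[p]) (C : Set B) {m : ℕ} (x : Fin m → B)
    (hx : ∀ D ∈ Ders ψ C, (∀ i, D (x i) = 0) → D = 0) (hm : m < 2 * (Fintype.card ι - 1))
    (g : ι → ι → O → (B ≃+* B)) (c : ℕ) (hc : 0 < c) (hg : GStb c g)
    (htriv : ∀ i j a, i ≠ j → TrivP p (g i j a)) (hC : ∀ i j a, i ≠ j → ∀ c ∈ C, g i j a c = c) :
    ∀ i j a b, i ≠ j → ψ (g i j a b) = ψ b := by
  classical
  have hpc : PComp p (Module.End ℤ_[p] (Du p B)) := pcomp_end
  have hlog : ∀ i j a, i ≠ j → ∃ l, IsLog p (rho (p := p) (g i j a)) l := fun i j a hij =>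
    exists_log hpc (rho_dv htf (htriv i j a hij))
  choose! P0 hP0 using hlog
  have hPadd : ∀ i j a b, i ≠ j → P0 i j (a + b) = P0 i j a + P0 i j b := by
    intro i j a b hij
    refine (hP0 i j (a + b) hij).unique hpc ?_
    have h1 := IsLog.mul (p := p) (x := rho (g i j a)) (y := rho (g i j b)) ?_ (hP0 i j a hij)
      (hP0 i j b hij)
    · rwa [← rho_mul, ← hg.add _ _ _ _ hij] at h1
    · change _ * _ = _ * _
      rw [← rho_mul, ← rho_mul, hg.comm hij]
  have hPc : ∀ i j a, i ≠ j → ∀ n : ℕ, P0 i j (n * a) = n * P0 i j a := by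
    intro i j a hij n
    refine (hP0 i j (n * a) hij).unique hpc ?_
    rw [hg.nsmul hij, rho_pow]
    exact (hP0 i j a hij).pow n
  have hP3 : ∀ i j k a b, i ≠ j → j ≠ k → i ≠ k →
      P0 i j a * P0 j k b - P0 j k b * P0 i j a = c * P0 i k (a * b) := by
    intro i j k a b hij hjk hik
    rw [← hPc i k (a * b) hik c]
    refine (hP0 i j a hij).bracket hpc (hP0 j k b hjk) (hP0 i k (c * (a * b)) hik) ?_
    intro r s
    rw [← rho_pow, ← rho_pow, ← rho_pow, ← rho_mul, ← rho_mul, ← rho_mul, ← hg.nsmul hij,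
      ← hg.nsmul hjk, ← hg.nsmul hik, hg.comm3 i j k _ _ hij hjk hik]
    congr 2
    congr 1
    push_cast
    ring
  have hP00 : ∀ i j k l a b, i ≠ j → k ≠ l → j ≠ k → i ≠ l →
      P0 i j a * P0 k l b = P0 k l b * P0 i j a := by
    intro i j k l a b hij hkl hjk hil
    have h1 : P0 i j a * P0 k l b - P0 k l b * P0 i j a = 0 := by
      refine (hP0 i j a hij).bracket hpc (hP0 k l b hkl) (IsLog.one p) ?_
      intro r s
      rw [← rho_pow, ← rho_pow, ← rho_mul, ← rho_mul, ← hg.nsmul hij,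
        ← hg.nsmul hkl, hg.comm0 i j k l _ _ hij hkl hjk hil, one_pow, one_mul]
    exact sub_eq_zero.1 h1
  -- the additive maps
  let P : ι → ι → O →+ Module.End ℤ_[p] (Du p B) := fun i j =>
    if h : i ≠ j then AddMonoidHom.mk' (P0 i j) (fun a b => hPadd i j a b h) else 0
  have hP : ∀ i j a, i ≠ j → P i j a = P0 i j a := by
    intro i j a hij
    simp only [P]
    rw [dif_pos hij]
    rfl
  let F := ℚ_[p]
  let E := F ⊗[ℤ_[p]] Du p B
  let bc : Module.End ℤ_[p] (Du p B) →ₐ[ℤ_[p]] Module.End F E :=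
    Module.End.baseChangeHom ℤ_[p] F (Du p B)
  let L : ι → ι → O →ₗ[ℤ] Module.End F E := fun i j =>
    ((bc : Module.End ℤ_[p] (Du p B) →+ Module.End F E).comp (P i j)).toIntLinearMap
  let X : ι → ι → (F ⊗[ℤ] O) →ₗ[F] Module.End F E := fun i j =>
    (c : F)⁻¹ • (L i j).liftBaseChange F
  have hcF : (c : F) ≠ 0 := by
    have : c ≠ 0 := by omega
    exact_mod_cast this
  have hX : ∀ i j (q : F) (a : O), i ≠ j → X i j (q ⊗ₜ a) = ((c : F)⁻¹ * q) • bc (P0 i j a) := by
    intro i j q a hij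
    simp only [X]
    rw [LinearMap.smul_apply, LinearMap.liftBaseChange_tmul, smul_smul]
    congr 1
    change bc (P i j a) = _
    rw [hP i j a hij]
  have hS : Stb (fun i j a => X i j a) := by
    constructor
    · intro i j k a b hij hjk hik
      induction a using TensorProduct.induction_on with
      | zero => simp
      | add a a' ha ha' =>
        simp only [map_add, add_mul, mul_add] at ha ha' ⊢
        rw [← ha, ← ha']
        abel
      | tmul q a =>
        induction b using TensorProduct.induction_on with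
        | zero => simp
        | add b b' hb hb' =>
          simp only [map_add, add_mul, mul_add] at hb hb' ⊢
          rw [← hb, ← hb']
          abel
        | tmul r b =>
          rw [hX i j q a hij, hX j k r b hjk, Algebra.TensorProduct.tmul_mul_tmul,
            hX i k _ _ hik, smul_mul_smul_comm, smul_mul_smul_comm, ← map_mul, ← map_mul,
            mul_comm ((c : F)⁻¹ * r)]
          have h1 : bc (P0 i j a * P0 j k b) - bc (P0 j k b * P0 i j a) =
              (c : F) • bc (P0 i k (a * b)) := by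
            rw [← map_sub, hP3 i j k a b hij hjk hik, map_mul, map_natCast, ← nsmul_eq_mul,
              ← Nat.cast_smul_eq_nsmul F]
          have h2 : (((c : F)⁻¹ * q) * ((c : F)⁻¹ * r)) • bc (P0 i j a * P0 j k b) -
              (((c : F)⁻¹ * q) * ((c : F)⁻¹ * r)) • bc (P0 j k b * P0 i j a) =
              (((c : F)⁻¹ * q) * ((c : F)⁻¹ * r)) • (bc (P0 i j a * P0 j k b) -
              bc (P0 j k b * P0 i j a)) := (smul_sub _ _ _).symm
          refine h2.trans ?_
          rw [h1, smul_smul]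
          congr 1
          have h3 : ((c : F)⁻¹ * q * ((c : F)⁻¹ * r)) * (c : F) =
              (c : F)⁻¹ * (q * r) * ((c : F)⁻¹ * (c : F)) := by ring
          rw [h3, inv_mul_cancel₀ hcF, mul_one]
    · intro i j k l a b hij hkl hjk hil
      induction a using TensorProduct.induction_on with
      | zero => simp
      | add a a' ha ha' =>
        simp only [map_add, add_mul, mul_add] at ha ha' ⊢
        rw [← ha, ← ha']
      | tmul q a =>
        induction b using TensorProduct.induction_on with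
        | zero => simp
        | add b b' hb hb' =>
          simp only [map_add, add_mul, mul_add] at hb hb' ⊢
          rw [← hb, ← hb']
        | tmul r b =>
          rw [hX i j q a hij, hX k l r b hkl, smul_mul_smul_comm, smul_mul_smul_comm, ← map_mul,
            ← map_mul, mul_comm ((c : F)⁻¹ * r), hP00 i j k l a b hij hkl hjk hil]
  obtain ⟨W, hWfd, hWm, hWmem⟩ := finrank_Ders ψ C x hx
  let v₀ : E := (1 : F) ⊗ₜ[ℤ_[p]] ψ.toAddMonoidHom
  have hbc : ∀ T : Module.End ℤ_[p] (Du p B), bc T v₀ = (1 : F) ⊗ₜ[ℤ_[p]] (T ψ.toAddMonoidHom) :=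
    fun T => rfl
  have hXv : ∀ i j a, i ≠ j → X i j a v₀ ∈ W := by
    intro i j a hij
    induction a using TensorProduct.induction_on with
    | zero => simp
    | add a a' ha ha' =>
      rw [map_add, LinearMap.add_apply]
      exact W.add_mem ha ha'
    | tmul q a =>
      rw [hX i j q a hij, LinearMap.smul_apply, hbc]
      exact W.smul_mem _ (hWmem _ (log_mem_Ders ψ C (hP0 i j a hij) (hC i j a hij)))
  have hXX : ∀ i j a b, i ≠ j → (br (X i j a) (X j i b)) v₀ ∈ W := by
    intro i j a b hij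
    induction a using TensorProduct.induction_on with
    | zero => simp [br]
    | add a a' ha ha' =>
      rw [map_add, br_add_left, LinearMap.add_apply]
      exact W.add_mem ha ha'
    | tmul q a =>
      induction b using TensorProduct.induction_on with
      | zero => simp [br]
      | add b b' hb hb' =>
        rw [map_add, br_add_right, LinearMap.add_apply]
        exact W.add_mem hb hb'
      | tmul r b =>
        have e : br (X i j (q ⊗ₜ a)) (X j i (r ⊗ₜ b)) =
            (((c : F)⁻¹ * q) * ((c : F)⁻¹ * r)) • bc (br (P0 i j a) (P0 j i b)) := by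
          unfold br
          rw [hX i j q a hij, hX j i r b hij.symm, smul_mul_smul_comm, smul_mul_smul_comm,
            ← map_mul, ← map_mul, mul_comm ((c : F)⁻¹ * r), map_sub]
          exact (smul_sub _ _ _).symm
        rw [e, LinearMap.smul_apply, hbc]
        exact W.smul_mem _ (hWmem _ (bracket_mem_Ders ψ C (hP0 i j a hij) (hP0 j i b hij.symm)
          (hC i j a hij) (hC j i b hij.symm)))
  have hmain := lemC X hS hn 2 (fun I hI => two_le_finrank_gen (tensor_isEmpty hO) I hI) v₀ W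
    (lt_of_le_of_lt hWm hm) hXv hXX
  intro i j a b hij
  have h1 := hmain i j ((1 : F) ⊗ₜ a) hij
  rw [hX i j 1 a hij, mul_one, LinearMap.smul_apply, hbc] at h1
  have h2 : P0 i j a ψ.toAddMonoidHom = 0 :=
    tmul_eq_zero_imp _ ((smul_eq_zero.1 h1).resolve_left (inv_ne_zero hcF))
  have h3 := IsLog.fix (hp.1.odd_of_ne_two hp2) (V := Du p B) du_tf du_sep (hP0 i j a hij)
    ψ.toAddMonoidHom h2
  have h4 := DFunLike.congr_fun h3 (g i j a b)
  rw [Module.End.smul_def, rho_apply] at h4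
  have h5 : (g i j a)⁻¹ (g i j a b) = b := (g i j a).symm_apply_apply b
  rw [h5] at h4
  exact h4.symm

end Family

end Pool.Agent.Y328
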