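import Pool.Agent.Y328.PAsm

/-!
# Polynomial actions of arithmetic subgroups of `SL_n(k)`, `k` totally complex
-/

set_option autoImplicit false
set_option linter.unusedSectionVars false

namespace Pool.Agent.Y328

open NumberField Matrix

section

variable {N : ℕ} (M : Set (Fin N → ℝ))

/-- restriction of polynomials to `M` -/
noncomputable def resHom : MvPolynomial (Fin N) ℝ →ₐ[ℝ] (M → ℝ) :=
  MvPolynomial.aeval (fun i (x : M) => x.1 i)

theorem resHom_apply (P : MvPolynomial (Fin N) ℝ) (x : M) :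
    resHom M P x = MvPolynomial.eval x.1 P := by
  have h : ((Pi.evalAlgHom ℝ (fun _ : M => ℝ) x).comp (resHom M)) = MvPolynomial.aeval x.1 := by
    ext i
    simp [resHom]
  have h2 := congrArg (fun f : MvPolynomial (Fin N) ℝ →ₐ[ℝ] ℝ => f P) h
  exact h2

/-- the algebra of polynomial functions on `M` -/
noncomputable def PolyFun : Subalgebra ℝ (M → ℝ) := (resHom M).range

theorem mem_polyFun {f : M → ℝ} :
    f ∈ PolyFun M ↔ ∃ P : MvPolynomial (Fin N) ℝ, ∀ x : M, f x = MvPolynomial.eval x.1 P := by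
  constructor
  · rintro ⟨P, rfl⟩
    exact ⟨P, fun x => resHom_apply M P x⟩
  · rintro ⟨P, hP⟩
    exact ⟨P, funext fun x => (resHom_apply M P x).trans (hP x).symm⟩

instance : Algebra.FiniteType ℝ (PolyFun M) :=
  Algebra.FiniteType.of_surjective (resHom M).rangeRestrict (AlgHom.rangeRestrict_surjective _)

theorem polyFun_real (h : PolyFun M) (hh : h ≠ 0) : ∃ ρ : PolyFun M →+* ℝ, ρ h ≠ 0 := by
  have h1 : ∃ x : M, h.1 x ≠ 0 := by
    by_contra hcon
    push Not at hcon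
    exact hh (Subtype.ext (funext hcon))
  obtain ⟨x, hx⟩ := h1
  exact ⟨(Pi.evalRingHom (fun _ : M => ℝ) x).comp (PolyFun M).subtype, hx⟩

theorem polyFun_trdeg {d : ℕ} (hd : 0 < d) (hdim : ∀ f : Fin d → MvPolynomial (Fin N) ℝ,
      ∃ P : MvPolynomial (Fin d) ℝ, P ≠ 0 ∧
        ∀ x ∈ M, MvPolynomial.eval (fun i => MvPolynomial.eval x (f i)) P = 0) :
    Algebra.trdeg ℝ (PolyFun M) < (d : Cardinal) := by
  have key : ∀ s : {s : Set (PolyFun M) // AlgebraicIndepOn ℝ id s},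
      Cardinal.mk s.1 ≤ ((d - 1 : ℕ) : Cardinal) := by
    rintro ⟨s, hs⟩
    by_contra hcon
    have h1 : ¬ Cardinal.mk s < (d : Cardinal) := by
      intro hlt
      apply hcon
      obtain ⟨m, hm⟩ := Cardinal.lt_aleph0.1 (hlt.trans (Cardinal.natCast_lt_aleph0 (n := d)))
      change Cardinal.mk s ≤ _
      rw [hm] at hlt ⊢
      have : m < d := by exact_mod_cast hlt
      exact_mod_cast Nat.le_sub_one_of_lt this
    rw [not_lt, ← Cardinal.mk_fin, Cardinal.le_def] at h1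
    obtain ⟨e⟩ := h1
    have h5 : AlgebraicIndependent ℝ (fun i => ((e i : s) : PolyFun M)) :=
      AlgebraicIndependent.comp hs e e.injective
    have h6 : ∀ i, ∃ P : MvPolynomial (Fin N) ℝ, ∀ x : M,
        ((e i : s) : PolyFun M).1 x = MvPolynomial.eval x.1 P := fun i =>
      (mem_polyFun M).1 ((e i : s) : PolyFun M).2
    choose F hF using h6
    obtain ⟨P, hP0, hP⟩ := hdim F
    apply hP0
    rw [algebraicIndependent_iff] at h5
    apply h5
    apply Subtype.ext
    funext x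
    have h7 : ((MvPolynomial.aeval (fun i => ((e i : s) : PolyFun M)) P : PolyFun M) : M → ℝ) x =
        MvPolynomial.eval (fun i => ((e i : s) : PolyFun M).1 x) P := by
      have h8 : ((Pi.evalAlgHom ℝ (fun _ : M => ℝ) x).comp (PolyFun M).val).comp
          (MvPolynomial.aeval (fun i => ((e i : s) : PolyFun M))) =
          MvPolynomial.aeval (fun i => ((e i : s) : PolyFun M).1 x) := by
        ext i
        simp
      have h9 := congrArg (fun f : MvPolynomial (Fin d) ℝ →ₐ[ℝ] ℝ => f P) h8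
      exact h9
    rw [h7]
    simp only [hF]
    exact hP x.1 x.2
  have h2 : Algebra.trdeg ℝ (PolyFun M) ≤ ((d - 1 : ℕ) : Cardinal) := ciSup_le' key
  refine h2.trans_lt ?_
  exact_mod_cast Nat.sub_lt hd one_pos

/-- pulling back polynomial functions by a polynomial map -/
noncomputable def pull (F : M → M)
    (hF : ∀ i, ∃ P : MvPolynomial (Fin N) ℝ, ∀ x : M, (F x).1 i = MvPolynomial.eval x.1 P) :
    PolyFun M →ₐ[ℝ] PolyFun M where
  toFun f := ⟨fun x => f.1 (F x), by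
    rw [mem_polyFun]
    obtain ⟨Q, hQ⟩ := (mem_polyFun M).1 f.2
    choose P hP using hF
    refine ⟨MvPolynomial.bind₁ P Q, fun x => ?_⟩
    rw [hQ]
    have h1 : (F x).1 = fun i => MvPolynomial.eval x.1 (P i) := funext fun i => hP i x
    rw [h1]
    change _ = MvPolynomial.eval₂Hom (RingHom.id ℝ) x.1 (MvPolynomial.bind₁ P Q)
    rw [MvPolynomial.eval₂Hom_bind₁]
    rfl⟩
  map_one' := rfl
  map_mul' _ _ := rfl
  map_zero' := rfl
  map_add' _ _ := rfl
  commutes' _ := rfl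

theorem pull_apply (F : M → M)
    (hF : ∀ i, ∃ P : MvPolynomial (Fin N) ℝ, ∀ x : M, (F x).1 i = MvPolynomial.eval x.1 P)
    (f : PolyFun M) (x : M) : (pull M F hF f).1 x = f.1 (F x) := rfl

/-- the action on polynomial functions -/
noncomputable def actPoly {Γ : Type*} [Group Γ] (α : Γ →* Equiv.Perm M)
    (hα : ∀ γ : Γ, ∀ i : Fin N, ∃ P : MvPolynomial (Fin N) ℝ,
      ∀ x : M, (α γ x).1 i = MvPolynomial.eval x.1 P) :
    Γ →* (PolyFun M ≃ₐ[ℝ] PolyFun M) where
  toFun γ := AlgEquiv.ofAlgHom (pull M (α γ⁻¹) (hα γ⁻¹)) (pull M (α γ) (hα γ))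
    (by
      ext f x
      change f.1 (α γ (α γ⁻¹ x)) = f.1 x
      rw [map_inv]
      exact congrArg f.1 ((α γ).apply_symm_apply x))
    (by
      ext f x
      change f.1 (α γ⁻¹ (α γ x)) = f.1 x
      rw [map_inv]
      exact congrArg f.1 ((α γ).symm_apply_apply x))
  map_one' := by
    ext f x
    change f.1 (α 1⁻¹ x) = f.1 x
    rw [inv_one, map_one]
    rfl
  map_mul' γ δ := by
    ext f x
    change f.1 (α (γ * δ)⁻¹ x) = f.1 (α δ⁻¹ (α γ⁻¹ x))
    rw [_root_.mul_inv_rev, map_mul]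
    rfl

theorem actPoly_ker {Γ : Type*} [Group Γ] (α : Γ →* Equiv.Perm M)
    (hα : ∀ γ : Γ, ∀ i : Fin N, ∃ P : MvPolynomial (Fin N) ℝ,
      ∀ x : M, (α γ x).1 i = MvPolynomial.eval x.1 P) : (actPoly M α hα).ker ≤ α.ker := by
  intro γ hγ
  rw [MonoidHom.mem_ker] at hγ ⊢
  rw [← inv_eq_one, ← map_inv]
  ext x i
  obtain ⟨f, hf⟩ : ∃ f : PolyFun M, f.1 = fun x => x.1 i := ⟨⟨fun x => x.1 i, (mem_polyFun M).2
      ⟨MvPolynomial.X i, fun x => (MvPolynomial.eval_X _).symm⟩⟩, rfl⟩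
  have h1 : (actPoly M α hα γ) f = f := by
    rw [hγ]; rfl
  have h2 : f.1 (α γ⁻¹ x) = f.1 x := congrFun (congrArg Subtype.val h1) x
  rw [hf] at h2
  exact h2

end

theorem index_of_range_finite {G H : Type*} [Group G] [Group H] (f : G →* H)
    (h : (Set.range f).Finite) : f.ker.index ≠ 0 := by
  rw [Subgroup.index_ker]
  have h1 : Finite f.range := h
  exact Nat.card_pos.ne'

/-- **Main theorem.** -/
theorem main_poly (k : Type) [Field k] [NumberField k] [IsTotallyComplex k] (n : ℕ) (hn : 3 ≤ n)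
    (Γ : Subgroup (SpecialLinearGroup (Fin n) k))
    (hΓ : Subgroup.Commensurable Γ ((Elem (Fin n) (𝓞 k)).map
      (SpecialLinearGroup.map (algebraMap (𝓞 k) k))))
    (N : ℕ) (M : Set (Fin N → ℝ))
    (hdim : ∀ f : Fin (2 * (n - 1)) → MvPolynomial (Fin N) ℝ,
      ∃ P : MvPolynomial (Fin (2 * (n - 1))) ℝ, P ≠ 0 ∧
        ∀ x ∈ M, MvPolynomial.eval (fun i => MvPolynomial.eval x (f i)) P = 0)
    (α : Γ →* Equiv.Perm M)
    (hα : ∀ γ : Γ, ∀ i : Fin N, ∃ P : MvPolynomial (Fin N) ℝ,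
      ∀ x : M, (α γ x).1 i = MvPolynomial.eval x.1 P) :
    (Set.range α).Finite := by
  classical
  have hcard : 3 ≤ Fintype.card (Fin n) := by rw [Fintype.card_fin]; exact hn
  have htr := polyFun_trdeg M (d := 2 * (n - 1)) (by omega) hdim
  let i : Elem (Fin n) (𝓞 k) →* SpecialLinearGroup (Fin n) k :=
    (SpecialLinearGroup.map (algebraMap (𝓞 k) k)).comp (Elem (Fin n) (𝓞 k)).subtype
  have hi : i.range = (Elem (Fin n) (𝓞 k)).map (SpecialLinearGroup.map (algebraMap (𝓞 k) k)) := by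
    rw [MonoidHom.range_comp, Subgroup.range_subtype]
  have hH : StbTriv (Fin n) (𝓞 k) (PolyFun M ≃ₐ[ℝ] PolyFun M) := by
    intro c g hc hg
    refine real_reduced k hcard (polyFun_real M) ?_ g c hc hg
    rw [Fintype.card_fin]
    exact htr
  have hO : ∀ q : ℕ, 0 < q → Finite (𝓞 k ⧸ Ideal.span {(q : 𝓞 k)}) := by
    intro q hq
    refine Ideal.finiteQuotientOfFreeOfNeBot _ fun h => ?_
    rw [Ideal.span_singleton_eq_bot] at h
    exact hq.ne' (by exact_mod_cast h)
  have h1 := assemble hcard hO i Γ (by rw [hi]; exact hΓ.1) (by rw [hi]; exact hΓ.2) hH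
    (actPoly M α hα)
  apply range_finite_of_index
  intro h0
  exact index_of_range_finite _ h1 (Nat.eq_zero_of_zero_dvd
    (h0 ▸ Subgroup.index_dvd_of_le (actPoly_ker M α hα)))

end Pool.Agent.Y328
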