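import Mathlib

/-!
# `p`-adic logarithms in noncommutative rings

`R` is a ring without `p`-torsion, `p`-adically separated and complete.  For `x ≡ 1 mod p` the limit `ℓ`
of `(x ^ (p ^ N) - 1) / p ^ N` exists (`IsLog p x ℓ`), is additive on commuting elements, and
`x ^ a y ^ b = z ^ (a b) y ^ b x ^ a` for all `a, b` gives `[log x, log y] = log z`.
-/

set_option autoImplicit false
set_option linter.unusedSectionVars false

namespace Pool.Agent.Y328

section Dv

variable {R : Type*} [Ring R]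

/-- divisible by `p ^ k` -/
def Dv (p k : ℕ) (x : R) : Prop := ∃ s : R, x = (p : R) ^ k * s

theorem Dv.add {p k : ℕ} {x y : R} (hx : Dv p k x) (hy : Dv p k y) : Dv p k (x + y) := by
  obtain ⟨s, rfl⟩ := hx
  obtain ⟨t, rfl⟩ := hy
  exact ⟨s + t, by rw [mul_add]⟩

theorem Dv.neg {p k : ℕ} {x : R} (hx : Dv p k x) : Dv p k (-x) := by
  obtain ⟨s, rfl⟩ := hx
  exact ⟨-s, by rw [mul_neg]⟩

theorem Dv.sub {p k : ℕ} {x y : R} (hx : Dv p k x) (hy : Dv p k y) : Dv p k (x - y) := by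
  rw [sub_eq_add_neg]
  exact hx.add hy.neg

theorem Dv.zero (p k : ℕ) : Dv p k (0 : R) := ⟨0, by rw [mul_zero]⟩

theorem cpow (p k : ℕ) (x : R) : x * (p : R) ^ k = (p : R) ^ k * x :=
  ((Nat.cast_commute p x).symm.pow_right k).eq

theorem Dv.mul {p k l : ℕ} {x y : R} (hx : Dv p k x) (hy : Dv p l y) : Dv p (k + l) (x * y) := by
  obtain ⟨s, rfl⟩ := hx
  obtain ⟨t, rfl⟩ := hy
  refine ⟨s * t, ?_⟩
  rw [mul_assoc, ← mul_assoc s, cpow, pow_add]
  simp only [mul_assoc]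

theorem Dv.mul_right {p k : ℕ} {x : R} (hx : Dv p k x) (y : R) : Dv p k (x * y) := by
  obtain ⟨s, rfl⟩ := hx
  exact ⟨s * y, by rw [mul_assoc]⟩

theorem Dv.mul_left {p k : ℕ} {x : R} (hx : Dv p k x) (y : R) : Dv p k (y * x) := by
  obtain ⟨s, rfl⟩ := hx
  exact ⟨y * s, by rw [← mul_assoc, cpow, mul_assoc]⟩

theorem Dv.mono {p k l : ℕ} (h : l ≤ k) {x : R} (hx : Dv p k x) : Dv p l x := by
  obtain ⟨s, rfl⟩ := hx
  obtain ⟨j, rfl⟩ := Nat.exists_eq_add_of_le h
  exact ⟨(p : R) ^ j * s, by rw [pow_add, mul_assoc]⟩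

theorem Dv.pow_mul {p : ℕ} (k : ℕ) (x : R) : Dv p k ((p : R) ^ k * x) := ⟨x, rfl⟩

theorem Dv.zero_exp (p : ℕ) (x : R) : Dv p 0 x := ⟨x, by rw [pow_zero, one_mul]⟩

end Dv

/-- `R` is `p`-torsion free, `p`-adically separated and complete. -/
structure PComp (p : ℕ) (R : Type*) [Ring R] : Prop where
  tf : ∀ r : R, (p : R) * r = 0 → r = 0
  sep : ∀ r : R, (∀ N, Dv p N r) → r = 0
  comp : ∀ s : ℕ → R, ∃ σ : ℕ → R, ∀ N, σ N = s N + (p : R) * σ (N + 1)

section Log

variable {R : Type*} [Ring R] {p : ℕ}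

theorem PComp.tf_pow (h : PComp p R) (k : ℕ) (r : R) (hr : (p : R) ^ k * r = 0) : r = 0 := by
  induction k with
  | zero => rwa [pow_zero, one_mul] at hr
  | succ k ih =>
    apply ih
    apply h.tf
    rwa [← mul_assoc, ← pow_succ']

theorem PComp.cancel (h : PComp p R) {k l : ℕ} {x : R} (hx : Dv p (k + l) ((p : R) ^ k * x)) :
    Dv p l x := by
  obtain ⟨s, hs⟩ := hx
  refine ⟨s, ?_⟩
  rw [← sub_eq_zero]
  apply h.tf_pow k
  rw [mul_sub, hs, pow_add, mul_assoc, sub_self]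

theorem PComp.eq_of_Dv (h : PComp p R) {x y : R} (hx : ∀ N, Dv p N (x - y)) : x = y :=
  sub_eq_zero.1 (h.sep _ hx)

theorem pow_expand (y : R) (k : ℕ) : ∃ r, Commute r y ∧ (1 + y) ^ k = 1 + k * y + y ^ 2 * r := by
  induction k with
  | zero => exact ⟨0, Commute.zero_left y, by simp⟩
  | succ k ih =>
    obtain ⟨r, hr, h⟩ := ih
    refine ⟨(k : R) + r + r * y, ?_, ?_⟩
    · exact ((Nat.cast_commute k y).add_left hr).add_left (hr.mul_left (Commute.refl y))
    · have h1 : y * (k : R) = k * y := (Nat.cast_commute k y).eq.symm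
      rw [pow_succ, h]
      push_cast
      have h2 : (k : R) * y * y = y ^ 2 * k := by
        rw [pow_two, mul_assoc y y, h1, ← mul_assoc, h1, mul_assoc]
      calc (1 + (k : R) * y + y ^ 2 * r) * (1 + y)
          = 1 + (k + 1) * y + (k * y * y + y ^ 2 * r + y ^ 2 * (r * y)) := by noncomm_ring
        _ = 1 + (k + 1) * y + y ^ 2 * (k + r + r * y) := by rw [h2]; noncomm_ring

/-- the logarithm relation -/
def IsLog (p : ℕ) (x l : R) : Prop :=
  Dv p 1 (x - 1) ∧ ∀ N, Dv p (2 * N + 1) (x ^ (p ^ N) - 1 - (p : R) ^ N * l)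

theorem Dv_pow_sub_one {x : R} (hx : Dv p 1 (x - 1)) (N : ℕ) :
    Dv p (N + 1) (x ^ (p ^ N) - 1) := by
  induction N with
  | zero => simpa using hx
  | succ N ih =>
    obtain ⟨r, -, hr⟩ := pow_expand (x ^ (p ^ N) - 1) p
    rw [add_sub_cancel, ← pow_mul, ← pow_succ] at hr
    have e : x ^ (p ^ (N + 1)) - 1 =
        (p : R) ^ 1 * (x ^ (p ^ N) - 1) + (x ^ (p ^ N) - 1) ^ 2 * r := by
      rw [hr, pow_one]; abel
    rw [e]
    refine Dv.add ?_ ?_
    · have := (Dv.pow_mul (p := p) 1 (1 : R)).mul ih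
      rw [mul_one] at this
      exact this.mono (by omega)
    · rw [pow_two]
      exact ((ih.mul ih).mul_right r).mono (by omega)

theorem exists_log (h : PComp p R) {x : R} (hx : Dv p 1 (x - 1)) : ∃ l, IsLog p x l := by
  choose S hS using Dv_pow_sub_one hx
  have hdiff : ∀ N, ∃ u, S (N + 1) - S N = (p : R) ^ N * u := by
    intro N
    obtain ⟨r, -, hr⟩ := pow_expand (x ^ (p ^ N) - 1) p
    rw [add_sub_cancel, ← pow_mul, ← pow_succ] at hr
    have e : x ^ (p ^ (N + 1)) - 1 =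
        (p : R) ^ 1 * (x ^ (p ^ N) - 1) + (x ^ (p ^ N) - 1) ^ 2 * r := by
      rw [hr, pow_one]; abel
    rw [hS (N + 1), hS N] at e
    have e2 : (p : R) ^ (N + 2) * (S (N + 1) - S N) =
        (p : R) ^ (N + 1) * S N * ((p : R) ^ (N + 1) * S N) * r := by
      rw [mul_sub, show N + 2 = N + 1 + 1 from rfl, e, pow_two, ← mul_assoc, ← pow_add]
      rw [show 1 + (N + 1) = N + 1 + 1 by omega]
      abel
    have e3 : Dv p ((N + 2) + N) ((p : R) ^ (N + 2) * (S (N + 1) - S N)) := by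
      rw [e2]
      exact (((Dv.pow_mul (p := p) (N + 1) (S N)).mul (Dv.pow_mul (N + 1) (S N))).mul_right
        r).mono (by omega)
    exact h.cancel e3
  choose u hu using hdiff
  obtain ⟨σ, hσ⟩ := h.comp u
  have hlim : ∀ N, S 0 + σ 0 - S N = (p : R) ^ N * σ N := by
    intro N
    induction N with
    | zero => rw [pow_zero, one_mul]; abel
    | succ N ih =>
      have : S (N + 1) = S N + (p : R) ^ N * u N := by rw [← hu N]; abel
      rw [this, ← sub_sub, ih, hσ N, mul_add, add_sub_cancel_left, pow_succ, mul_assoc]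
  refine ⟨(p : R) * (S 0 + σ 0), hx, fun N => ?_⟩
  have e : x ^ (p ^ N) - 1 - (p : R) ^ N * ((p : R) * (S 0 + σ 0)) =
      - ((p : R) ^ (N + 1) * ((p : R) ^ N * σ N)) := by
    rw [hS N, ← hlim N, ← mul_assoc, ← pow_succ, mul_sub]
    abel
  rw [e, ← mul_assoc, ← pow_add]
  exact (Dv.mono (by omega) (Dv.pow_mul (N + 1 + N) (σ N))).neg

theorem IsLog.dv {x l : R} (h : IsLog p x l) : Dv p 1 l := by
  have h0 := h.2 0
  rw [pow_zero, pow_one, pow_zero, one_mul] at h0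
  have e : l = (x - 1) - (x - 1 - l) := by abel
  rw [e]
  exact h.1.sub (by simpa using h0)

theorem IsLog.unique (h : PComp p R) {x l m : R} (h1 : IsLog p x l) (h2 : IsLog p x m) :
    l = m := by
  apply h.eq_of_Dv
  intro N
  have h3 : Dv p (N + (N + 1)) ((p : R) ^ N * (l - m)) := by
    have e : (p : R) ^ N * (l - m) = (x ^ (p ^ N) - 1 - (p : R) ^ N * m) -
        (x ^ (p ^ N) - 1 - (p : R) ^ N * l) := by rw [mul_sub]; abel
    rw [e]
    exact ((h2.2 N).sub (h1.2 N)).mono (by omega)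
  exact (h.cancel h3).mono (by omega)

theorem Dv.mul_sub_one {x y : R} (hx : Dv p 1 (x - 1)) (hy : Dv p 1 (y - 1)) :
    Dv p 1 (x * y - 1) := by
  have e : x * y - 1 = (x - 1) * y + (y - 1) := by noncomm_ring
  rw [e]
  exact (hx.mul_right y).add hy

theorem IsLog.mul {x y l m : R} (hxy : Commute x y) (h1 : IsLog p x l) (h2 : IsLog p y m) :
    IsLog p (x * y) (l + m) := by
  refine ⟨h1.1.mul_sub_one h2.1, fun N => ?_⟩
  rw [hxy.mul_pow]
  have e : x ^ (p ^ N) * y ^ (p ^ N) - 1 - (p : R) ^ N * (l + m) =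
      (x ^ (p ^ N) - 1) * (y ^ (p ^ N) - 1) + (x ^ (p ^ N) - 1 - (p : R) ^ N * l) +
      (y ^ (p ^ N) - 1 - (p : R) ^ N * m) := by
    rw [mul_add]; noncomm_ring
  rw [e]
  exact ((((Dv_pow_sub_one h1.1 N).mul (Dv_pow_sub_one h2.1 N)).mono (by omega)).add
    (h1.2 N)).add (h2.2 N)

theorem IsLog.one (p : ℕ) : IsLog p (1 : R) 0 := by
  refine ⟨by rw [sub_self]; exact Dv.zero p 1, fun N => ?_⟩
  rw [one_pow, sub_self, mul_zero, sub_self]
  exact Dv.zero p _

theorem IsLog.pow {x l : R} (h1 : IsLog p x l) (k : ℕ) : IsLog p (x ^ k) (k * l) := by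
  induction k with
  | zero => simpa using IsLog.one p
  | succ k ih =>
    rw [pow_succ, Nat.cast_succ, add_mul, one_mul]
    exact IsLog.mul ((Commute.refl x).pow_left k) ih h1

/-- the commutator of `p ^ N`-th powers -/
theorem IsLog.comm_expand {x y l m : R} (hx : IsLog p x l) (hy : IsLog p y m) (N : ℕ) :
    Dv p (2 * N + (N + 1)) (x ^ (p ^ N) * y ^ (p ^ N) - y ^ (p ^ N) * x ^ (p ^ N) -
      (p : R) ^ (2 * N) * (l * m - m * l)) := by
  obtain ⟨s, hs⟩ := hx.2 N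
  obtain ⟨t, ht⟩ := hy.2 N
  have hX : x ^ (p ^ N) = 1 + (p : R) ^ N * l + (p : R) ^ (2 * N + 1) * s := by rw [← hs]; abel
  have hY : y ^ (p ^ N) = 1 + (p : R) ^ N * m + (p : R) ^ (2 * N + 1) * t := by rw [← ht]; abel
  have eL : x ^ (p ^ N) * y ^ (p ^ N) - y ^ (p ^ N) * x ^ (p ^ N) -
      (p : R) ^ (2 * N) * (l * m - m * l) = ((p : R) ^ N * l * ((p : R) ^ (2 * N + 1) * t) +
      (p : R) ^ (2 * N + 1) * s * ((p : R) ^ N * m + (p : R) ^ (2 * N + 1) * t)
      - (p : R) ^ N * m * ((p : R) ^ (2 * N + 1) * s) -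
      (p : R) ^ (2 * N + 1) * t * ((p : R) ^ N * l + (p : R) ^ (2 * N + 1) * s)) := by
    have a1 : (p : R) ^ N * l * ((p : R) ^ N * m) = (p : R) ^ (2 * N) * (l * m) := by
      rw [mul_assoc, ← mul_assoc l, cpow, mul_assoc, ← mul_assoc, ← pow_add,
        show N + N = 2 * N by omega]
    have a2 : (p : R) ^ N * m * ((p : R) ^ N * l) = (p : R) ^ (2 * N) * (m * l) := by
      rw [mul_assoc, ← mul_assoc m, cpow, mul_assoc, ← mul_assoc, ← pow_add,
        show N + N = 2 * N by omega]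
    rw [hX, hY, mul_sub, ← a1, ← a2]
    noncomm_ring
  rw [eL]
  have b1 : ∀ c d : R, Dv p (2 * N + (N + 1)) ((p : R) ^ N * c * ((p : R) ^ (2 * N + 1) * d)) :=
    fun c d => ((Dv.pow_mul N c).mul (Dv.pow_mul (2 * N + 1) d)).mono (by omega)
  have b2 : ∀ c d : R, Dv p (2 * N + (N + 1)) ((p : R) ^ (2 * N + 1) * c * ((p : R) ^ N * d)) :=
    fun c d => ((Dv.pow_mul (2 * N + 1) c).mul (Dv.pow_mul N d)).mono (by omega)
  have b3 : ∀ c d : R, Dv p (2 * N + (N + 1))
      ((p : R) ^ (2 * N + 1) * c * ((p : R) ^ (2 * N + 1) * d)) :=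
    fun c d => ((Dv.pow_mul (2 * N + 1) c).mul (Dv.pow_mul (2 * N + 1) d)).mono (by omega)
  rw [mul_add, mul_add]
  exact (((b1 l t).add ((b2 s m).add (b3 s t))).sub (b1 m s)).sub ((b2 t l).add (b3 t s))

theorem Dv_mul_pow_sub_one {x y : R} (hx : Dv p 1 (x - 1)) (hy : Dv p 1 (y - 1)) (N : ℕ) :
    Dv p (N + 1) (y ^ (p ^ N) * x ^ (p ^ N) - 1) := by
  have e : y ^ (p ^ N) * x ^ (p ^ N) - 1 = (y ^ (p ^ N) - 1) * x ^ (p ^ N) +
      (x ^ (p ^ N) - 1) := by noncomm_ring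
  rw [e]
  exact ((Dv_pow_sub_one hy N).mul_right _).add (Dv_pow_sub_one hx N)

theorem IsLog.bracket (h : PComp p R) {x y z l m k : R} (hx : IsLog p x l) (hy : IsLog p y m)
    (hz : IsLog p z k)
    (hr : ∀ a b : ℕ, x ^ a * y ^ b = z ^ (a * b) * (y ^ b * x ^ a)) :
    l * m - m * l = k := by
  apply h.eq_of_Dv
  intro N
  obtain ⟨w, hw⟩ := hz.2 (2 * N)
  have hZ : z ^ (p ^ (2 * N)) = 1 + (p : R) ^ (2 * N) * k + (p : R) ^ (2 * (2 * N) + 1) * w := by
    rw [← hw]; abel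
  have hrel := hr (p ^ N) (p ^ N)
  rw [← pow_add, show N + N = 2 * N by omega] at hrel
  have eR : x ^ (p ^ N) * y ^ (p ^ N) - y ^ (p ^ N) * x ^ (p ^ N) =
      (p : R) ^ (2 * N) * k + ((p : R) ^ (2 * (2 * N) + 1) * w +
        (z ^ (p ^ (2 * N)) - 1) * (y ^ (p ^ N) * x ^ (p ^ N) - 1)) := by
    rw [hrel]
    have : (p : R) ^ (2 * N) * k + (p : R) ^ (2 * (2 * N) + 1) * w = z ^ (p ^ (2 * N)) - 1 := by
      rw [hZ]; abel
    rw [← add_assoc, this]
    noncomm_ring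
  have hDR : Dv p (2 * N + (N + 1)) ((p : R) ^ (2 * (2 * N) + 1) * w +
        (z ^ (p ^ (2 * N)) - 1) * (y ^ (p ^ N) * x ^ (p ^ N) - 1)) := by
    refine ((Dv.pow_mul _ w).mono (by omega)).add ?_
    exact ((Dv_pow_sub_one hz.1 (2 * N)).mul (Dv_mul_pow_sub_one hx.1 hy.1 N)).mono (by omega)
  have hfin : Dv p (2 * N + (N + 1)) ((p : R) ^ (2 * N) * ((l * m - m * l) - k)) := by
    have := hDR.sub (hx.comm_expand hy N)
    rw [eR] at this
    have e : (p : R) ^ (2 * N) * ((l * m - m * l) - k) =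
        ((p : R) ^ (2 * (2 * N) + 1) * w +
        (z ^ (p ^ (2 * N)) - 1) * (y ^ (p ^ N) * x ^ (p ^ N) - 1)) -
        ((p : R) ^ (2 * N) * k + ((p : R) ^ (2 * (2 * N) + 1) * w +
        (z ^ (p ^ (2 * N)) - 1) * (y ^ (p ^ N) * x ^ (p ^ N) - 1)) -
        (p : R) ^ (2 * N) * (l * m - m * l)) := by
      rw [mul_sub]
      abel
    rw [e]
    exact this
  exact (h.cancel hfin).mono (by omega)

end Log

section Vec

variable {R : Type*} [Ring R] {p : ℕ} {V : Type*} [AddCommGroup V] [Module R V]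

/-- the geometric sum of an element `≡ 1 mod p` is `p` times a unipotent element mod `p` -/
theorem geom_expand (hp : Odd p) (y : R) (hy : Dv p 1 (y - 1)) :
    ∃ u : R, ∑ i ∈ Finset.range p, y ^ i = (p : R) * (1 + (p : R) * u) := by
  obtain ⟨t, ht⟩ := hy
  rw [pow_one] at ht
  have hy' : y = 1 + (p : R) * t := by rw [← ht]; abel
  choose r hr using fun k => pow_expand ((p : R) * t) k
  obtain ⟨m, hm⟩ := hp
  have hsum : (∑ i ∈ Finset.range p, (i : R)) = (p : R) * m := by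
    rw [← Nat.cast_sum, Finset.sum_range_id]
    have : p * (p - 1) / 2 = p * m := by
      have h2 : p - 1 = 2 * m := by omega
      rw [h2, mul_comm 2 m, ← mul_assoc, Nat.mul_div_cancel _ (by norm_num)]
    rw [this, Nat.cast_mul]
  refine ⟨(m : R) * t + t * t * ∑ i ∈ Finset.range p, r i, ?_⟩
  have e1 : ∀ i ∈ Finset.range p, y ^ i = 1 + (i : R) * ((p : R) * t) +
      (p : R) * ((p : R) * (t * t)) * r i := by
    intro i _
    rw [hy', (hr i).2, pow_two]
    congr 2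
    have : t * (p : R) = p * t := (Nat.cast_commute p t).eq.symm
    rw [mul_assoc, ← mul_assoc t, this, mul_assoc]
  rw [Finset.sum_congr rfl e1, Finset.sum_add_distrib, Finset.sum_add_distrib, Finset.sum_const,
    Finset.card_range, ← Finset.sum_mul, ← Finset.mul_sum, hsum]
  simp only [nsmul_eq_mul, mul_one, mul_add, mul_assoc]
  have : (m : R) * ((p : R) * t) = p * (m * t) := by
    rw [← mul_assoc, ← mul_assoc, (Nat.cast_commute m (p : R)).eq]
  rw [this]
  abel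

theorem vec_cancel (hV : ∀ v : V, (p : R) • v = 0 → v = 0) (u : R) (v : V) (k : ℕ)
    (h : ∃ w : V, ((p : R) * (1 + (p : R) * u)) • v = (p : R) ^ (k + 1) • w) :
    ∃ w : V, v = (p : R) ^ k • w := by
  obtain ⟨w, hw⟩ := h
  have h1 : (1 + (p : R) * u) • v = (p : R) ^ k • w := by
    rw [← sub_eq_zero]
    apply hV
    rw [smul_sub, smul_smul, hw, smul_smul, ← pow_succ', sub_self]
  have h2 : ∀ j, j ≤ k → ∃ w : V, v = (p : R) ^ j • w := by
    intro j
    induction j with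
    | zero => exact fun _ => ⟨v, by rw [pow_zero, one_smul]⟩
    | succ j ih =>
      intro hj
      obtain ⟨w', hw'⟩ := ih (by omega)
      obtain ⟨i, hi⟩ := Nat.exists_eq_add_of_le hj
      refine ⟨(p : R) ^ i • w - u • w', ?_⟩
      have e : v = (1 + (p : R) * u) • v - ((p : R) * u) • v := by
        rw [add_smul, one_smul, add_sub_cancel_right]
      rw [e, h1]
      conv_lhs => rw [hw']
      rw [smul_sub, smul_smul, smul_smul, smul_smul, ← pow_add, ← hi]
      congr 2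
      rw [mul_assoc, cpow, ← mul_assoc, ← pow_succ']
  exact h2 k le_rfl

/-- if the logarithm kills a vector, the vector is fixed -/
theorem IsLog.fix (hp : Odd p) (hV : ∀ v : V, (p : R) • v = 0 → v = 0)
    (hsep : ∀ v : V, (∀ N, ∃ w : V, v = (p : R) ^ N • w) → v = 0) {x l : R} (h : IsLog p x l)
    (v : V) (hv : l • v = 0) : x • v = v := by
  have h1 : ∀ N, ∃ w : V, (x ^ (p ^ N) - 1) • v = (p : R) ^ (N + (N + 1)) • w := by
    intro N
    obtain ⟨s, hs⟩ := h.2 N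
    refine ⟨s • v, ?_⟩
    have e : x ^ (p ^ N) - 1 = (p : R) ^ N * l + (p : R) ^ (2 * N + 1) * s := by rw [← hs]; abel
    rw [e, add_smul, mul_smul, hv, smul_zero, zero_add, mul_smul,
      show N + (N + 1) = 2 * N + 1 by omega]
  have h2 : ∀ N k, (∃ w : V, (x ^ (p ^ N) - 1) • v = (p : R) ^ (N + k) • w) →
      ∃ w : V, (x - 1) • v = (p : R) ^ k • w := by
    intro N
    induction N with
    | zero => intro k hk; simpa using hk
    | succ N ih =>
      intro k hk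
      apply ih
      have hy : Dv p 1 (x ^ (p ^ N) - 1) := (Dv_pow_sub_one h.1 N).mono (by omega)
      obtain ⟨u, hu⟩ := geom_expand hp (x ^ (p ^ N)) hy
      apply vec_cancel hV u
      obtain ⟨w, hw⟩ := hk
      refine ⟨w, ?_⟩
      rw [← hu, smul_smul, geom_sum_mul, ← pow_mul, ← pow_succ, hw]
      congr 2
      omega
  have h3 : (x - 1) • v = 0 := by
    apply hsep
    intro N
    obtain ⟨w, hw⟩ := h2 N (N + 1) (h1 N)
    exact ⟨(p : R) • w, by rw [hw, smul_smul, pow_succ]⟩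
  rwa [sub_smul, one_smul, sub_eq_zero] at h3

end Vec

end Pool.Agent.Y328
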