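import Mathlib

/-!
# Staircase words: arithmetic of the parameters and counting lemmas
-/

set_option autoImplicit false

open Finset

namespace Pool.Agent.Y328.PR

/-- number of level `n` blocks in a level `n+1` block -/
def r (n : ℕ) : ℕ := 2 ^ (n + 4)

/-- number of regular digits -/
def rho (n : ℕ) : ℕ := r n - 4

/-- the largest variant of a level `n` block -/
def R (n : ℕ) : ℕ := r n - 5

/-- exponent of the length of level `n` blocks -/
def S : ℕ → ℕ
  | 0 => 4
  | n + 1 => S n + (n + 4)

/-- length of the level `n` blocks -/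
def q (n : ℕ) : ℕ := 2 ^ S n

theorem q_succ (n : ℕ) : q (n + 1) = q n * r n := by
  unfold q r
  rw [← pow_add]
  rfl

theorem q_pos (n : ℕ) : 0 < q n := by unfold q; positivity

theorem r_ge (n : ℕ) : 16 ≤ r n := by
  unfold r
  have : 2 ^ 4 ≤ 2 ^ (n + 4) := Nat.pow_le_pow_right (by norm_num) (by omega)
  simpa using this

theorem r_succ (n : ℕ) : r (n + 1) = 2 * r n := by
  unfold r
  rw [show n + 1 + 4 = n + 4 + 1 by ring, pow_succ]; ring

theorem rho_add (n : ℕ) : rho n + 4 = r n := by
  have := r_ge n; unfold rho; omega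

theorem R_add (n : ℕ) : R n + 1 = rho n := by
  have := r_ge n; unfold rho R; omega

/-- the variant of the `d`-th level `n` block in a level `n+1` block of variant `e` -/
def f (n d e : ℕ) : ℕ :=
  if d < rho n then d else if d = rho n then min e (R n) else
    if d = rho n + 1 then min (e - R n) (R n) else if d = rho n + 2 then e - 2 * R n else 0

theorem f_zero (n d : ℕ) (h : rho n ≤ d) : f n d 0 = 0 := by
  unfold f
  split_ifs <;> omega

theorem f_reg (n d e : ℕ) (h : d < rho n) : f n d e = d := by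
  unfold f; rw [if_pos h]

theorem f_last (n d e : ℕ) (h : rho n + 3 ≤ d) : f n d e = 0 := by
  unfold f
  split_ifs <;> omega

theorem f_le (n d e : ℕ) (he : e ≤ R (n + 1)) : f n d e ≤ R n := by
  have h1 := r_ge n
  have h2 := r_succ n
  have h3 := rho_add n
  have h4 := R_add n
  have h5 := rho_add (n + 1)
  have h6 := R_add (n + 1)
  unfold f
  split_ifs <;> omega

/-- sum over the blocks -/
theorem sum_f (n e : ℕ) : ∑ d ∈ range (r n), f n d e = (∑ d ∈ range (rho n), d) + e := by
  rw [← rho_add n, sum_range_succ, sum_range_succ, sum_range_succ, sum_range_succ]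
  have h0 : ∑ d ∈ range (rho n), f n d e = ∑ d ∈ range (rho n), d :=
    sum_congr rfl fun d hd => f_reg n d e (mem_range.1 hd)
  have h1 : f n (rho n) e = min e (R n) := by
    unfold f; split_ifs <;> omega
  have h2 : f n (rho n + 1) e = min (e - R n) (R n) := by
    unfold f; split_ifs <;> omega
  have h3 : f n (rho n + 2) e = e - 2 * R n := by
    unfold f; split_ifs <;> omega
  have h4 : f n (rho n + 3) e = 0 := f_last _ _ _ le_rfl
  rw [h0, h1, h2, h3, h4]
  omega

/-- number of ones in the level `n` block of variant zero -/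
def al : ℕ → ℕ
  | 0 => 0
  | n + 1 => r n * al n + ∑ d ∈ range (rho n), d

theorem al_big (n : ℕ) : r (n + 3) ^ 2 ≤ al (n + 3) := by
  induction n with
  | zero =>
    have e0 : ∑ d ∈ range (rho 0), d = 66 := by decide
    have e1 : ∑ d ∈ range (rho 1), d = 378 := by decide
    have e2 : ∑ d ∈ range (rho 2), d = 1770 := by decide
    have h0 : r 0 = 16 := rfl
    have h1 : r 1 = 32 := rfl
    have h2 : r 2 = 64 := rfl
    have h3 : r (0 + 3) = 128 := rfl
    have a1 : al 1 = 66 := by
      change r 0 * al 0 + ∑ d ∈ range (rho 0), d = 66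
      rw [e0]; simp [al]
    have a2 : al 2 = 2490 := by
      change r 1 * al 1 + ∑ d ∈ range (rho 1), d = 2490
      rw [e1, a1, h1]
    have a3 : al (0 + 3) = 161130 := by
      change r 2 * al 2 + ∑ d ∈ range (rho 2), d = 161130
      rw [e2, a2, h2]
    rw [a3, h3]; norm_num
  | succ n ih =>
    have h1 : r (n + 3) * al (n + 3) ≤ al (n + 1 + 3) := by
      change r (n + 3) * al (n + 3) ≤ r (n + 3) * al (n + 3) + _
      omega
    have h2 : r (n + 1 + 3) = 2 * r (n + 3) := r_succ (n + 3)
    have h3 := r_ge (n + 3)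
    rw [h2]
    nlinarith [Nat.mul_le_mul_left (r (n + 3)) ih, Nat.zero_le (r (n + 3) ^ 2)]

theorem al_gt {v : ℕ} (hv : 3 ≤ v) : r v * R v < al v := by
  obtain ⟨n, rfl⟩ := Nat.exists_eq_add_of_le' hv
  have h := al_big n
  have h1 := r_ge (n + 3)
  have h2 := R_add (n + 3)
  have h3 := rho_add (n + 3)
  have h4 : R (n + 3) < r (n + 3) := by omega
  nlinarith

/-- Windows of a given number of blocks which contain a given number of ones. -/
theorem count_le (ρ k m : ℕ) (E C : ℕ → ℕ) (hE : ∀ l, l % (ρ + 4) < ρ → E l = l % (ρ + 4))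
    (hk : k % (ρ + 4) ≠ 0) (hC : ∀ u, C (u + 1) + E u = C u + E (u + k)) :
    ((range (ρ + 4)).filter (fun u => C u = m)).card ≤ 8 := by
  set k0 := k % (ρ + 4) with hk0
  have hk0lt : k0 < ρ + 4 := Nat.mod_lt _ (by omega)
  have hmod : ∀ u, (u + k) % (ρ + 4) = (u + k0) % (ρ + 4) := by
    intro u; rw [hk0, Nat.add_mod_mod]
  have hup : ∀ u, u + k0 < ρ → C u < C (u + 1) := by
    intro u hu
    have h1 := hC u
    have e1 : E u = u := by
      have : u % (ρ + 4) = u := Nat.mod_eq_of_lt (by omega)
      have h2 := hE u (by omega)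
      omega
    have e2 : E (u + k) = u + k0 := by
      have h3 : (u + k) % (ρ + 4) = u + k0 := by
        rw [hmod, Nat.mod_eq_of_lt (by omega)]
      have h2 := hE (u + k) (by omega)
      omega
    omega
  have hdown : ∀ u, ρ + 4 ≤ u + k0 → u < ρ → C (u + 1) < C u := by
    intro u hu hu2
    have h1 := hC u
    have e1 : E u = u := by
      have : u % (ρ + 4) = u := Nat.mod_eq_of_lt (by omega)
      have h2 := hE u (by omega)
      omega
    have e2 : E (u + k) = u + k0 - (ρ + 4) := by
      have h3 : (u + k) % (ρ + 4) = u + k0 - (ρ + 4) := by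
        rw [hmod, Nat.mod_eq_sub_mod hu, Nat.mod_eq_of_lt (by omega)]
      have h2 := hE (u + k) (by omega)
      omega
    omega
  have hup' : ∀ d u, u + (d + 1) + k0 ≤ ρ → C u < C (u + (d + 1)) := by
    intro d
    induction d with
    | zero => intro u hu; exact hup u (by omega)
    | succ d ih =>
      intro u hu
      have h1 := ih u (by omega)
      have h2 := hup (u + (d + 1)) (by omega)
      exact h1.trans h2
  have hdown' : ∀ d u, ρ + 4 ≤ u + k0 → u + (d + 1) ≤ ρ → C (u + (d + 1)) < C u := by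
    intro d
    induction d with
    | zero => intro u h1 hu; exact hdown u h1 (by omega)
    | succ d ih =>
      intro u h0 hu
      have h1 := ih u h0 (by omega)
      have h2 := hdown (u + (d + 1)) (by omega) (by omega)
      exact lt_of_lt_of_le h2 h1.le
  set F := (range (ρ + 4)).filter (fun u => C u = m) with hF
  have hsub : F ⊆ (F.filter (fun u => u + k0 ≤ ρ)) ∪ (F.filter (fun u => ρ + 4 ≤ u + k0 ∧ u ≤ ρ)) ∪
      (Ico (ρ + 1 - k0) (ρ + 4 - k0)) ∪ (Ico (ρ + 1) (ρ + 4)) := by
    intro u hu
    have hu' := hu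
    rw [hF, mem_filter, mem_range] at hu'
    simp only [mem_union, mem_filter, mem_Ico, hu, true_and]
    omega
  have c1 : (F.filter (fun u => u + k0 ≤ ρ)).card ≤ 1 := by
    rw [card_le_one]
    intro a ha b hb
    simp only [hF, mem_filter, mem_range] at ha hb
    rcases lt_trichotomy a b with h | h | h
    · obtain ⟨d, hd⟩ := Nat.exists_eq_add_of_lt h
      have h1 := hup' d a (by omega)
      rw [show a + (d + 1) = b by omega] at h1
      omega
    · exact h
    · obtain ⟨d, hd⟩ := Nat.exists_eq_add_of_lt h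
      have h1 := hup' d b (by omega)
      rw [show b + (d + 1) = a by omega] at h1
      omega
  have c2 : (F.filter (fun u => ρ + 4 ≤ u + k0 ∧ u ≤ ρ)).card ≤ 1 := by
    rw [card_le_one]
    intro a ha b hb
    simp only [hF, mem_filter, mem_range] at ha hb
    rcases lt_trichotomy a b with h | h | h
    · obtain ⟨d, hd⟩ := Nat.exists_eq_add_of_lt h
      have h1 := hdown' d a (by omega) (by omega)
      rw [show a + (d + 1) = b by omega] at h1
      omega
    · exact h
    · obtain ⟨d, hd⟩ := Nat.exists_eq_add_of_lt h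
      have h1 := hdown' d b (by omega) (by omega)
      rw [show b + (d + 1) = a by omega] at h1
      omega
  have c3 : (Ico (ρ + 1 - k0) (ρ + 4 - k0)).card ≤ 3 := by
    rw [Nat.card_Ico]; omega
  have c4 : (Ico (ρ + 1) (ρ + 4)).card ≤ 3 := by
    rw [Nat.card_Ico]; omega
  refine (card_le_card hsub).trans ?_
  refine (card_union_le _ _).trans ?_
  have h5 := card_union_le ((F.filter (fun u => u + k0 ≤ ρ)) ∪
    (F.filter (fun u => ρ + 4 ≤ u + k0 ∧ u ≤ ρ))) (Ico (ρ + 1 - k0) (ρ + 4 - k0))
  have h6 := card_union_le (F.filter (fun u => u + k0 ≤ ρ))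
    (F.filter (fun u => ρ + 4 ≤ u + k0 ∧ u ≤ ρ))
  omega

/-- number of ones in a window of `k` blocks from block `u` on -/
def cw (α : ℕ) (E : ℕ → ℕ) (u k : ℕ) : ℕ := k * α + ∑ l ∈ range k, E (u + l)

theorem cw_step (α : ℕ) (E : ℕ → ℕ) (u k : ℕ) :
    cw α E (u + 1) k + E u = cw α E u k + E (u + k) := by
  unfold cw
  have h1 : ∑ l ∈ range (k + 1), E (u + l) = ∑ l ∈ range k, E (u + l) + E (u + k) :=
    sum_range_succ _ _
  have h2 : ∑ l ∈ range (k + 1), E (u + l) = ∑ l ∈ range k, E (u + 1 + l) + E u := by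
    rw [sum_range_succ']
    congr 1
    apply sum_congr rfl
    intro l _
    congr 1
    ring
  omega

theorem cw_compare (α : ℕ) (E : ℕ → ℕ) (B : ℕ) (hB : ∀ l, E l ≤ B) (u k : ℕ) :
    cw α E u k ≤ cw α E 0 k + u * B ∧ cw α E 0 k ≤ cw α E u k + u * B := by
  induction u with
  | zero => simp
  | succ u ih =>
    have h := cw_step α E u k
    have h1 := hB u
    have h2 := hB (u + k)
    have h3 : (u + 1) * B = u * B + B := by ring
    omega

theorem cw_zero_succ (α : ℕ) (E : ℕ → ℕ) (k : ℕ) : cw α E 0 k + α ≤ cw α E 0 (k + 1) := by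
  unfold cw
  rw [sum_range_succ]
  have : (k + 1) * α = k * α + α := by ring
  omega

/-- **Counting lemma**: few base points. -/
theorem few (ρ α B m : ℕ) (E : ℕ → ℕ) (hB : ∀ l, E l ≤ B)
    (hE : ∀ l, l % (ρ + 4) < ρ → E l = l % (ρ + 4)) (hα : (ρ + 4) * B < α) (P : Finset ℕ)
    (hP : ∀ u ∈ P, u < ρ + 4 ∧ ∃ k, k % (ρ + 4) ≠ 0 ∧ cw α E u k = m) : P.card ≤ 16 := by
  classical
  by_cases hne : ∃ k, cw α E 0 k ≤ m + (ρ + 4) * B ∧ m ≤ cw α E 0 k + (ρ + 4) * B
  · set k1 := Nat.find hne with hk1
    have hk1s := Nat.find_spec hne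
    rw [← hk1] at hk1s
    have hmono : ∀ d, cw α E 0 k1 + d * α ≤ cw α E 0 (k1 + d) := by
      intro d
      induction d with
      | zero => simp
      | succ d ih =>
        have h1 := cw_zero_succ α E (k1 + d)
        have h2 : (d + 1) * α = d * α + α := by ring
        rw [← add_assoc]
        omega
    have hcov : P ⊆ ((range (ρ + 4)).filter (fun u => k1 % (ρ + 4) ≠ 0 ∧ cw α E u k1 = m)) ∪
        ((range (ρ + 4)).filter (fun u => (k1 + 1) % (ρ + 4) ≠ 0 ∧ cw α E u (k1 + 1) = m)) := by
      intro u hu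
      obtain ⟨hur, k, hk, hkm⟩ := hP u hu
      have hc := cw_compare α E B hB u k
      have huB : u * B ≤ (ρ + 4) * B := Nat.mul_le_mul_right _ hur.le
      have hk2 : cw α E 0 k ≤ m + (ρ + 4) * B ∧ m ≤ cw α E 0 k + (ρ + 4) * B := by omega
      have hk3 : k1 ≤ k := Nat.find_min' hne hk2
      obtain ⟨d, rfl⟩ := Nat.exists_eq_add_of_le hk3
      have hd : d ≤ 1 := by
        by_contra hd
        have h2 : 2 * α ≤ d * α := Nat.mul_le_mul_right _ (by omega)
        have := hmono d
        omega
      rw [mem_union, mem_filter, mem_filter, mem_range]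
      rcases Nat.le_one_iff_eq_zero_or_eq_one.1 hd with rfl | rfl
      · left; exact ⟨hur, by simpa using hk, by simpa using hkm⟩
      · right; exact ⟨hur, hk, hkm⟩
    have key : ∀ k, ((range (ρ + 4)).filter (fun u => k % (ρ + 4) ≠ 0 ∧ cw α E u k = m)).card ≤ 8 := by
      intro k
      by_cases hk : k % (ρ + 4) = 0
      · simp [hk]
      · have := count_le ρ k m E (fun u => cw α E u k) hE hk (fun u => cw_step α E u k)
        refine (card_le_card ?_).trans this
        intro u hu
        rw [mem_filter] at hu ⊢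
        exact ⟨hu.1, hu.2.2⟩
    refine (card_le_card hcov).trans ((card_union_le _ _).trans ?_)
    have h1 := key k1
    have h2 := key (k1 + 1)
    omega
  · have : P = ∅ := by
      rw [eq_empty_iff_forall_notMem]
      intro u hu
      obtain ⟨hur, k, hk, hkm⟩ := hP u hu
      have hc := cw_compare α E B hB u k
      have huB : u * B ≤ (ρ + 4) * B := Nat.mul_le_mul_right _ hur.le
      exact hne ⟨k, by omega, by omega⟩
    rw [this]; simp

end Pool.Agent.Y328.PR
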