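import Pool.Agent.Y328.PR1
import Pool.Agent.H98R3.PD.P3

/-!
# Digits of dyadic integers and the Toeplitz function
-/

set_option autoImplicit false

open Finset

namespace Pool.Agent.Y328.PR

/-- residue modulo `2 ^ n` -/
noncomputable def res (n : ℕ) (w : ℤ_[2]) : ℕ := (PadicInt.toZModPow n w).val

theorem res_lt (n : ℕ) (w : ℤ_[2]) : res n w < 2 ^ n := ZMod.val_lt _

theorem res_nat (n k : ℕ) : res n (k : ℤ_[2]) = k % 2 ^ n := by
  unfold res
  rw [map_natCast, ZMod.val_natCast]

theorem res_add (n : ℕ) (w w' : ℤ_[2]) : res n (w + w') = (res n w + res n w') % 2 ^ n := by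
  unfold res
  rw [map_add, ZMod.val_add]

theorem res_add_nat (n : ℕ) (w : ℤ_[2]) (k : ℕ) : res n (w + k) = (res n w + k) % 2 ^ n := by
  rw [res_add, res_nat, Nat.add_mod_mod]

theorem res_mod {m n : ℕ} (h : m ≤ n) (w : ℤ_[2]) : res m w = res n w % 2 ^ m := by
  have h1 := PadicInt.zmod_cast_comp_toZModPow (p := 2) m n h
  have h2 : PadicInt.toZModPow m w = ((res n w : ℕ) : ZMod (2 ^ m)) := by
    rw [← h1]
    rw [RingHom.comp_apply]
    have h3 : PadicInt.toZModPow n w = ((res n w : ℕ) : ZMod (2 ^ n)) := by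
      unfold res
      rw [ZMod.natCast_zmod_val]
    rw [h3, map_natCast]
  unfold res at h2 ⊢
  rw [h2, ZMod.val_natCast]

theorem res_eq_iff (n : ℕ) (w w' : ℤ_[2]) : res n w = res n w' ↔ (2 : ℤ_[2]) ^ n ∣ w - w' := by
  have h1 := PadicInt.ker_toZModPow (p := 2) n
  have h2 : w - w' ∈ RingHom.ker (PadicInt.toZModPow (p := 2) n) ↔ (2 : ℤ_[2]) ^ n ∣ w - w' := by
    rw [h1, Ideal.mem_span_singleton]
    norm_num
  rw [← h2, RingHom.mem_ker, map_sub, sub_eq_zero]
  unfold res
  exact (ZMod.val_injective _).eq_iff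

theorem res_eq_zero_iff (n : ℕ) (w : ℤ_[2]) : res n w = 0 ↔ (2 : ℤ_[2]) ^ n ∣ w := by
  have h := res_eq_iff n w ((0 : ℕ) : ℤ_[2])
  rw [res_nat] at h
  simpa using h

/-- the digit of level `n` -/
noncomputable def dig (n : ℕ) (w : ℤ_[2]) : ℕ := res (S (n + 1)) w / q n

theorem dig_lt (n : ℕ) (w : ℤ_[2]) : dig n w < r n := by
  unfold dig
  rw [Nat.div_lt_iff_lt_mul (q_pos n), mul_comm]
  have := res_lt (S (n + 1)) w
  rw [← q_succ]
  exact this

theorem S_mono {m n : ℕ} (h : m ≤ n) : S m ≤ S n := by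
  induction h with
  | refl => exact le_rfl
  | @step k _ ih => exact ih.trans (by change S k ≤ S k + (k + 4); omega)

theorem S_ge (n : ℕ) : n ≤ S n := by
  induction n with
  | zero => omega
  | succ n ih => change n + 1 ≤ S n + (n + 4); omega

theorem q_dvd {m n : ℕ} (h : m ≤ n) : q m ∣ q n := pow_dvd_pow 2 (S_mono h)

theorem res_S_mod {m n : ℕ} (h : m ≤ n) (w : ℤ_[2]) : res (S m) w = res (S n) w % q m :=
  res_mod (S_mono h) w

/-- Moving inside a level `v` block. -/
theorem res_add_small {v m : ℕ} (h : v ≤ m) (w : ℤ_[2]) (j : ℕ) (hj : res (S v) w + j < q v) :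
    res (S m) (w + j) = res (S m) w + j := by
  rw [res_add_nat]
  apply Nat.mod_eq_of_lt
  change res (S m) w + j < q m
  have h1 := res_S_mod h w
  obtain ⟨c, hc⟩ := q_dvd h
  have h2 : res (S m) w < q m := res_lt _ _
  have h3 := Nat.div_add_mod (res (S m) w) (q v)
  rw [← h1] at h3
  have h4 : res (S m) w / q v < c := by
    rw [Nat.div_lt_iff_lt_mul (q_pos v), mul_comm, ← hc]
    exact h2
  have h5 : q v * (res (S m) w / q v + 1) ≤ q v * c := Nat.mul_le_mul_left _ h4
  rw [hc]
  nlinarith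

theorem dig_add_small {v m : ℕ} (h : v ≤ m) (w : ℤ_[2]) (j : ℕ) (hj : res (S v) w + j < q v) :
    dig m (w + j) = dig m w := by
  unfold dig
  have hvm : v ≤ m + 1 := by omega
  rw [res_add_small hvm w j hj]
  obtain ⟨c, hc⟩ := q_dvd h
  rw [hc, ← Nat.div_div_eq_div_mul, ← Nat.div_div_eq_div_mul]
  congr 1
  have h1 : res (S v) w = res (S (m + 1)) w % q v := res_S_mod hvm w
  have h3 := Nat.div_add_mod (res (S (m + 1)) w) (q v)
  rw [← h1] at h3
  generalize res (S (m + 1)) w = X at *
  generalize res (S v) w = Y at *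
  rw [Nat.div_eq_of_lt_le]
  · rw [mul_comm]; omega
  · have : (X / q v + 1) * q v = q v * (X / q v) + q v := by ring
    rw [this]; omega

/-- Moving by whole level `v` blocks. -/
theorem dig_add_block (v l : ℕ) (w : ℤ_[2]) :
    dig v (w + ((l * q v : ℕ) : ℤ_[2])) = (dig v w + l) % r v := by
  unfold dig
  rw [res_add_nat]
  change (res (S (v + 1)) w + l * q v) % q (v + 1) / q v = _
  rw [q_succ, Nat.mod_mul_right_div_self, Nat.add_mul_div_right _ _ (q_pos v)]

theorem res_add_block {v m : ℕ} (h : m ≤ v) (l : ℕ) (w : ℤ_[2]) :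
    res (S m) (w + ((l * q v : ℕ) : ℤ_[2])) = res (S m) w := by
  rw [res_add_nat]
  change (res (S m) w + l * q v) % q m = _
  obtain ⟨c, hc⟩ := q_dvd h
  rw [hc, show l * (q m * c) = q m * (l * c) by ring, Nat.add_mul_mod_self_left]
  exact Nat.mod_eq_of_lt (res_lt _ _)

theorem dig_add_block_low {v m : ℕ} (h : m < v) (l : ℕ) (w : ℤ_[2]) :
    dig m (w + ((l * q v : ℕ) : ℤ_[2])) = dig m w := by
  unfold dig
  rw [res_add_block h]

/-! ### variants -/

/-- variant of the level `n` block around `w`, computed from `M` digits -/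
noncomputable def ev : ℕ → ℕ → ℤ_[2] → ℕ
  | 0, _, _ => 0
  | M + 1, n, w => f n (dig n w) (ev M (n + 1) w)

theorem ev_le (M n : ℕ) (w : ℤ_[2]) : ev M n w ≤ R n := by
  induction M generalizing n with
  | zero => exact Nat.zero_le _
  | succ M ih => exact f_le _ _ _ (ih _)

theorem f_indep {n d : ℕ} (h : d < rho n ∨ rho n + 3 ≤ d) (e e' : ℕ) : f n d e = f n d e' := by
  rcases h with h | h
  · rw [f_reg _ _ _ h, f_reg _ _ _ h]
  · rw [f_last _ _ _ h, f_last _ _ _ h]

theorem ev_stable (M n : ℕ) (w : ℤ_[2]) (h : ev M n w ≠ 0) : ev (M + 1) n w = ev M n w := by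
  induction M generalizing n with
  | zero => exact absurd rfl h
  | succ M ih =>
    change f n (dig n w) (ev (M + 1) (n + 1) w) = f n (dig n w) (ev M (n + 1) w)
    by_cases hd : dig n w < rho n
    · rw [f_reg _ _ _ hd, f_reg _ _ _ hd]
    · rw [ih]
      intro h0
      apply h
      change f n (dig n w) (ev M (n + 1) w) = 0
      rw [h0]
      exact f_zero _ _ (not_lt.1 hd)

theorem ev_stable' {M M' n : ℕ} {w : ℤ_[2]} (h : ev M n w ≠ 0) (hM : M ≤ M') :
    ev M' n w = ev M n w := by
  induction hM with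
  | refl => rfl
  | step _ ih => rw [ev_stable _ _ _ (by rw [ih]; exact h), ih]

open Classical in
/-- variant of the level `n` block around `w` -/
noncomputable def en (n : ℕ) (w : ℤ_[2]) : ℕ :=
  if h : ∃ M, ev M n w ≠ 0 then ev (Nat.find h) n w else 0

theorem ev_eventually (n : ℕ) (w : ℤ_[2]) : ∃ M0, ∀ M, M0 ≤ M → ev M n w = en n w := by
  classical
  unfold en
  split_ifs with h
  · exact ⟨Nat.find h, fun M hM => ev_stable' (Nat.find_spec h) hM⟩
  · push Not at h
    exact ⟨0, fun M _ => h M⟩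

theorem en_rec (n : ℕ) (w : ℤ_[2]) : en n w = f n (dig n w) (en (n + 1) w) := by
  obtain ⟨M0, h0⟩ := ev_eventually n w
  obtain ⟨M1, h1⟩ := ev_eventually (n + 1) w
  rw [← h0 (max M0 M1 + 1) (by omega), ← h1 (max M0 M1) (by omega)]
  rfl

theorem en_le (n : ℕ) (w : ℤ_[2]) : en n w ≤ R n := by
  obtain ⟨M0, h0⟩ := ev_eventually n w
  rw [← h0 M0 le_rfl]
  exact ev_le _ _ _

/-- `w` and `w'` lie in the same level `n` block -/
theorem ev_congr {n : ℕ} {w w' : ℤ_[2]} (h : ∀ m, n ≤ m → dig m w = dig m w') (M : ℕ) :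
    ev M n w = ev M n w' := by
  induction M generalizing n with
  | zero => rfl
  | succ M ih =>
    change f n _ _ = f n _ _
    rw [h n le_rfl, ih (fun m hm => h m (by omega))]

theorem en_congr {n : ℕ} {w w' : ℤ_[2]} (h : ∀ m, n ≤ m → dig m w = dig m w') :
    en n w = en n w' := by
  obtain ⟨M0, h0⟩ := ev_eventually n w
  obtain ⟨M1, h1⟩ := ev_eventually n w'
  rw [← h0 (max M0 M1) (by omega), ← h1 (max M0 M1) (by omega)]
  exact ev_congr h _

/-- the variant is determined by the digits up to a regular one -/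
theorem en_congr_reg {n m : ℕ} (hnm : n ≤ m) {w w' : ℤ_[2]}
    (h : ∀ k, n ≤ k → k ≤ m → dig k w = dig k w')
    (hreg : dig m w < rho m ∨ rho m + 3 ≤ dig m w) : en n w = en n w' := by
  obtain ⟨d, rfl⟩ := Nat.exists_eq_add_of_le hnm
  induction d generalizing n with
  | zero =>
    rw [en_rec n w, en_rec n w', ← h n le_rfl (by omega)]
    exact f_indep hreg _ _
  | succ d ih =>
    have e1 : n + (d + 1) = (n + 1) + d := by ring
    rw [en_rec n w, en_rec n w', ← h n le_rfl (by omega)]
    congr 1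
    rw [e1] at h hreg
    exact ih (by omega) (fun k h1 h2 => h k (by omega) h2) hreg

theorem en_reg {n : ℕ} {w : ℤ_[2]} (h : dig n w < rho n) : en n w = dig n w := by
  rw [en_rec, f_reg _ _ _ h]

theorem en_block {v : ℕ} (w : ℤ_[2]) (j : ℕ) (hj : res (S v) w + j < q v) :
    en v (w + j) = en v w :=
  en_congr fun _ hm => dig_add_small hm w j hj

/-! ### the letters -/

/-- one if `w` is in the marked set -/
noncomputable def on (w : ℤ_[2]) : ℕ := if res (S 0) w < en 0 w then 1 else 0

/-- number of ones in a window -/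
noncomputable def cnt (w : ℤ_[2]) (t : ℕ) : ℕ := ∑ j ∈ range t, on (w + j)

theorem cnt_add (w : ℤ_[2]) (t u : ℕ) : cnt w (t + u) = cnt w t + cnt (w + t) u := by
  unfold cnt
  rw [sum_range_add]
  congr 1
  apply sum_congr rfl
  intro j _
  congr 1
  push_cast
  ring

theorem cnt_blocks (w : ℤ_[2]) (k Q : ℕ) :
    cnt w (k * Q) = ∑ l ∈ range k, cnt (w + ((l * Q : ℕ) : ℤ_[2])) Q := by
  induction k with
  | zero => simp [cnt]
  | succ k ih =>
    rw [Nat.succ_mul, cnt_add, ih, sum_range_succ]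

theorem cnt_level0 (b : ℤ_[2]) (hb : res (S 0) b = 0) : cnt b (q 0) = en 0 b := by
  have hq : q 0 = 16 := rfl
  have hR : R 0 = 11 := rfl
  have h1 : ∀ j ∈ range (q 0), on (b + j) = if j < en 0 b then 1 else 0 := by
    intro j hj
    rw [mem_range] at hj
    unfold on
    have hj' : res (S 0) b + j < q 0 := by omega
    rw [res_add_small le_rfl b j hj', en_block b j hj', hb, zero_add]
  unfold cnt
  rw [sum_congr rfl h1]
  have h2 := en_le 0 b
  rw [hR] at h2
  rw [sum_ite, sum_const_zero, add_zero, sum_const, smul_eq_mul, mul_one]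
  have h3 : (range (q 0)).filter (fun j => j < en 0 b) = range (en 0 b) := by
    ext j
    rw [mem_filter, mem_range, mem_range, hq]
    omega
  rw [h3, card_range]

theorem res_mul_block {v : ℕ} (b : ℤ_[2]) (hb : res (S (v + 1)) b = 0) (i : ℕ) (hi : i < r v) :
    res (S (v + 1)) b + i * q v < q (v + 1) := by
  rw [hb, q_succ, zero_add, mul_comm (q v)]
  exact Nat.mul_lt_mul_of_pos_right hi (q_pos v)

/-- number of ones in a block -/
theorem cnt_block (v : ℕ) (b : ℤ_[2]) (hb : res (S v) b = 0) : cnt b (q v) = al v + en v b := by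
  induction v generalizing b with
  | zero => rw [cnt_level0 b hb]; simp [al]
  | succ v ih =>
    rw [q_succ, mul_comm, cnt_blocks]
    have hbv : res (S v) b = 0 := by rw [res_S_mod (Nat.le_succ v), hb, Nat.zero_mod]
    have hdig : dig v b = 0 := by unfold dig; rw [hb, Nat.zero_div]
    have h1 : ∀ i ∈ range (r v), cnt (b + ((i * q v : ℕ) : ℤ_[2])) (q v) =
        al v + f v i (en (v + 1) b) := by
      intro i hi
      rw [mem_range] at hi
      rw [ih _ (by rw [res_add_block le_rfl, hbv]), en_rec, dig_add_block, hdig, zero_add,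
        Nat.mod_eq_of_lt hi, en_block b (i * q v) (res_mul_block b hb i hi)]
    rw [sum_congr rfl h1, sum_add_distrib, sum_const, card_range, smul_eq_mul, sum_f]
    change _ = r v * al v + _ + _
    ring

theorem on_congr {v : ℕ} {w w' : ℤ_[2]} (hw : res (S (v + 1)) w = res (S (v + 1)) w')
    (hreg : dig v w < rho v ∨ rho v + 3 ≤ dig v w) : on w = on w' := by
  have h1 : ∀ m, m ≤ v + 1 → res (S m) w = res (S m) w' := fun m hm => by
    rw [res_S_mod hm w, res_S_mod hm w', hw]
  unfold on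
  rw [h1 0 (by omega), en_congr_reg (Nat.zero_le v) (w := w) (w' := w') _ hreg]
  intro k _ hk
  unfold dig
  rw [h1 (k + 1) (by omega)]

/-- number of ones in a window of the length of a level `v+1` block, at a good position -/
theorem cnt_window (v : ℕ) (z : ℤ_[2]) (hz : dig v z < rho v) :
    cnt z (q (v + 1)) = al (v + 1) + en (v + 1) z := by
  set p := res (S (v + 1)) z with hp
  have hplt : p < q (v + 1) := res_lt _ _
  set b := z - (p : ℤ_[2]) with hb
  have hzb : z = b + p := by rw [hb]; ring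
  have hb0 : res (S (v + 1)) b = 0 := by
    have h1 : res (S (v + 1)) b < q (v + 1) := res_lt _ _
    have h2 := res_add_nat (S (v + 1)) b p
    rw [← hzb, ← hp] at h2
    change p = (res (S (v + 1)) b + p) % q (v + 1) at h2
    by_contra h0
    by_cases h3 : res (S (v + 1)) b + p < q (v + 1)
    · rw [Nat.mod_eq_of_lt h3] at h2; omega
    · rw [Nat.mod_eq_sub_mod (not_lt.1 h3), Nat.mod_eq_of_lt (by omega)] at h2
      omega
  have hen : en (v + 1) z = en (v + 1) b := by
    rw [hzb]; exact en_block b p (by omega)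
  have h1 := cnt_add b p (q (v + 1))
  have h2 := cnt_add b (q (v + 1)) p
  rw [← hzb] at h1
  rw [cnt_block (v + 1) b hb0, Nat.add_comm (q (v + 1)) p] at h2
  have h3 : cnt (b + ((q (v + 1) : ℕ) : ℤ_[2])) p = cnt b p := by
    unfold cnt
    apply sum_congr rfl
    intro i hi
    rw [mem_range] at hi
    have e1 : b + ((q (v + 1) : ℕ) : ℤ_[2]) + (i : ℤ_[2]) =
        (b + i) + ((1 * q (v + 1) : ℕ) : ℤ_[2]) := by push_cast; ring
    rw [e1]
    symm
    apply on_congr (v := v) (res_add_block le_rfl 1 _).symm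
    left
    -- the digit of level v of b + i
    have e2 : res (S (v + 1)) (b + i) = i := by
      rw [res_add_small le_rfl b i (by omega), hb0, zero_add]
    have e3 : dig v (b + i) = i / q v := by unfold dig; rw [e2]
    rw [e3]
    refine lt_of_le_of_lt (Nat.div_le_div_right hi.le) ?_
    exact hz
  rw [h3] at h2
  rw [hen]
  omega

end Pool.Agent.Y328.PR
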