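import Pool.Agent.Y328.PR2

/-!
# Measure estimates for the return times
-/

set_option autoImplicit false

open Finset MeasureTheory Filter Topology
open Pool.Agent.H98R3.PD

namespace Pool.Agent.Y328.PR

theorem isLocallyConstant_res (n : ℕ) : IsLocallyConstant (res n) := by
  rw [IsLocallyConstant.iff_eventually_eq]
  intro w
  have h : IsOpen {z : ℤ_[2] | (2 : ℤ_[2]) ^ n ∣ z - w} :=
    ((isClopen_dvd n).preimage (by fun_prop : Continuous fun z : ℤ_[2] => z - w)).isOpen
  filter_upwards [h.mem_nhds (by simp : w ∈ {z : ℤ_[2] | (2 : ℤ_[2]) ^ n ∣ z - w})] with z hz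
  exact (res_eq_iff n z w).2 hz

theorem continuous_res (n : ℕ) : Continuous (res n) := (isLocallyConstant_res n).continuous

theorem continuous_dig (n : ℕ) : Continuous (dig n) := by
  have : dig n = (fun k : ℕ => k / q n) ∘ res (S (n + 1)) := rfl
  rw [this]
  exact continuous_of_discreteTopology.comp (continuous_res _)

theorem continuous_ev (M n : ℕ) : Continuous (ev M n) := by
  induction M generalizing n with
  | zero => exact continuous_const
  | succ M ih =>
    have : ev (M + 1) n = (fun p : ℕ × ℕ => f n p.1 p.2) ∘ (fun w => (dig n w, ev M (n + 1) w)) :=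
      rfl
    rw [this]
    exact continuous_of_discreteTopology.comp ((continuous_dig n).prodMk (ih _))

theorem measurable_en (n : ℕ) : Measurable (en n) := by
  apply measurable_of_tendsto_metrizable (f := fun M => ev M n)
    (fun M => (continuous_ev M n).measurable)
  rw [tendsto_pi_nhds]
  intro w
  obtain ⟨M0, h0⟩ := ev_eventually n w
  apply tendsto_nhds_of_eventually_eq
  filter_upwards [eventually_ge_atTop M0] with M hM
  exact h0 M hM

theorem measurable_on : Measurable on := by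
  have : on = (fun p : ℕ × ℕ => if p.1 < p.2 then 1 else 0) ∘ (fun w => (res (S 0) w, en 0 w)) :=
    rfl
  rw [this]
  exact (measurable_of_countable _).comp
    ((continuous_res _).measurable.prodMk (measurable_en 0))

theorem measurable_cnt (t : ℕ) : Measurable (fun z => cnt z t) := by
  unfold cnt
  apply Finset.measurable_fun_sum
  intro j _
  exact measurable_on.comp (measurable_id.add_const _)

/-- Digit classes are translates of each other. -/
theorem digit_avg (v : ℕ) (W : Set ℤ_[2]) (hW : MeasurableSet W) (N : ℕ)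
    (h : ∀ z, dig v z = 0 → ∀ P : Finset ℕ,
      (∀ u ∈ P, u < r v ∧ z + ((u * q v : ℕ) : ℤ_[2]) ∈ W) → P.card ≤ N) :
    (r v : ENNReal) * hh W ≤ N := by
  classical
  set D : ℕ → Set ℤ_[2] := fun u => {z | dig v z = u} with hD
  have hDm : ∀ u, MeasurableSet (D u) := fun u =>
    (continuous_dig v).measurable (measurableSet_singleton u)
  have htr : ∀ (V : Set ℤ_[2]) (_ : MeasurableSet V) (u : ℕ), u < r v →
      hh (V ∩ D u) = hh (D 0 ∩ (fun z => z + ((u * q v : ℕ) : ℤ_[2])) ⁻¹' V) := by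
    intro V hV u hu
    have h1 := (measurePreserving_add_right hh ((u * q v : ℕ) : ℤ_[2])).measure_preimage
      (hV.inter (hDm u)).nullMeasurableSet
    rw [← h1]
    congr 1
    ext z
    simp only [Set.mem_preimage, Set.mem_inter_iff, hD, Set.mem_ofPred_eq]
    rw [dig_add_block]
    have h2 := dig_lt v z
    constructor
    · rintro ⟨h3, h4⟩
      refine ⟨?_, h3⟩
      by_cases h5 : dig v z + u < r v
      · rw [Nat.mod_eq_of_lt h5] at h4; omega
      · rw [Nat.mod_eq_sub_mod (not_lt.1 h5), Nat.mod_eq_of_lt (by omega)] at h4; omega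
    · rintro ⟨h3, h4⟩
      exact ⟨h4, by rw [h3, zero_add, Nat.mod_eq_of_lt hu]⟩
  have hsplit : ∀ (V : Set ℤ_[2]) (_ : MeasurableSet V),
      hh V = ∑ u ∈ range (r v), hh (D 0 ∩ (fun z => z + ((u * q v : ℕ) : ℤ_[2])) ⁻¹' V) := by
    intro V hV
    rw [← sum_congr rfl (fun u hu => htr V hV u (mem_range.1 hu))]
    rw [← measure_biUnion_finset]
    · congr 1
      ext z
      simp only [Set.mem_iUnion, Set.mem_inter_iff, mem_range, exists_prop, hD,
        Set.mem_ofPred_eq]
      exact ⟨fun hz => ⟨_, dig_lt v z, hz, rfl⟩, fun ⟨_, _, hz, _⟩ => hz⟩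
    · intro u _ u' _ hne
      rw [Function.onFun, Set.disjoint_left]
      rintro z ⟨_, h1⟩ ⟨_, h2⟩
      exact hne (h1.symm.trans h2)
    · intro u _
      exact hV.inter (hDm u)
  have h1 : (1 : ENNReal) = r v * hh (D 0) := by
    have h2 := hsplit Set.univ MeasurableSet.univ
    rw [measure_univ] at h2
    simp only [Set.preimage_univ, Set.inter_univ, sum_const, card_range, nsmul_eq_mul] at h2
    exact h2
  have h3 : hh W ≤ N * hh (D 0) := by
    rw [hsplit W hW]
    have h4 : ∀ u, hh (D 0 ∩ (fun z => z + ((u * q v : ℕ) : ℤ_[2])) ⁻¹' W) =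
        ∫⁻ z in D 0, ((fun z => z + ((u * q v : ℕ) : ℤ_[2])) ⁻¹' W).indicator 1 z ∂hh := by
      intro u
      have hm : MeasurableSet ((fun z : ℤ_[2] => z + ((u * q v : ℕ) : ℤ_[2])) ⁻¹' W) :=
        (measurable_id.add_const _) hW
      rw [lintegral_indicator_one hm, Measure.restrict_apply hm, Set.inter_comm]
    rw [sum_congr rfl (fun u _ => h4 u), ← lintegral_finsetSum]
    · calc ∫⁻ z in D 0, ∑ u ∈ range (r v),
            ((fun z => z + ((u * q v : ℕ) : ℤ_[2])) ⁻¹' W).indicator 1 z ∂hh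
          ≤ ∫⁻ z in D 0, (N : ENNReal) ∂hh := by
            apply setLIntegral_mono' (hDm 0)
            intro z hz
            have h5 := h z hz ((range (r v)).filter
              (fun u => z + ((u * q v : ℕ) : ℤ_[2]) ∈ W)) (by
                intro u hu
                rw [mem_filter, mem_range] at hu
                exact hu)
            have h6 : ∑ u ∈ range (r v),
                ((fun z => z + ((u * q v : ℕ) : ℤ_[2])) ⁻¹' W).indicator
                  (1 : ℤ_[2] → ENNReal) z =
                (((range (r v)).filter (fun u => z + ((u * q v : ℕ) : ℤ_[2]) ∈ W)).card : ENNReal)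
                := by
              rw [card_filter]
              push_cast
              apply sum_congr rfl
              intro u _
              simp only [Set.indicator_apply, Set.mem_preimage, Pi.one_apply]
            rw [h6]
            exact_mod_cast h5
        _ = N * hh (D 0) := by rw [setLIntegral_const]
    · intro u _
      exact measurable_one.indicator ((measurable_id.add_const _) hW)
  calc (r v : ENNReal) * hh W ≤ r v * (N * hh (D 0)) := by gcongr
    _ = N * (r v * hh (D 0)) := by ring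
    _ = N := by rw [← h1, mul_one]

/-- The adjusting and last positions. -/
def bad (v : ℕ) : Set ℤ_[2] := {z | rho v ≤ dig v z}

theorem measurableSet_bad (v : ℕ) : MeasurableSet (bad v) :=
  (continuous_dig v).measurable (measurableSet_Ici (a := rho v))

theorem hh_bad (v : ℕ) : (r v : ENNReal) * hh (bad v) ≤ (4 : ℕ) := by
  apply digit_avg v _ (measurableSet_bad v)
  intro z hz P hP
  have hsub : P ⊆ Ico (rho v) (r v) := by
    intro u hu
    obtain ⟨h1, h2⟩ := hP u hu
    have h3 : rho v ≤ dig v (z + ((u * q v : ℕ) : ℤ_[2])) := h2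
    rw [dig_add_block, hz, zero_add, Nat.mod_eq_of_lt h1] at h3
    rw [mem_Ico]; exact ⟨h3, h1⟩
  refine (card_le_card hsub).trans ?_
  rw [Nat.card_Ico]
  have := rho_add v
  omega

/-- Good positions whose `m`-th return time could be an exact multiple of `q v`. -/
def WW (v m : ℕ) : Set ℤ_[2] :=
  {z | dig v z < rho v ∧ ∃ k, k % r (v + 1) ≠ 0 ∧ cnt z (k * q (v + 1)) = m}

theorem measurableSet_WW (v m : ℕ) : MeasurableSet (WW v m) := by
  have : WW v m = {z | dig v z < rho v} ∩
      ⋃ k : {k : ℕ // k % r (v + 1) ≠ 0}, {z | cnt z (k.1 * q (v + 1)) = m} := by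
    ext z
    simp only [WW, Set.mem_ofPred_eq, Set.mem_inter_iff, Set.mem_iUnion, Subtype.exists,
      exists_prop]
  rw [this]
  apply MeasurableSet.inter ((continuous_dig v).measurable (measurableSet_Iio (a := rho v)))
  apply MeasurableSet.iUnion
  intro k
  exact (measurable_cnt _) (measurableSet_singleton m)

theorem hh_WW (v m : ℕ) (hv : 2 ≤ v) : (r (v + 1) : ENNReal) * hh (WW v m) ≤ (16 : ℕ) := by
  apply digit_avg (v + 1) _ (measurableSet_WW v m)
  intro z hz P hP
  have hr := rho_add (v + 1)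
  apply few (rho (v + 1)) (al (v + 1)) (R (v + 1)) m
    (fun l => en (v + 1) (z + ((l * q (v + 1) : ℕ) : ℤ_[2])))
  · intro l; exact en_le _ _
  · intro l hl
    rw [hr] at hl ⊢
    have h1 : dig (v + 1) (z + ((l * q (v + 1) : ℕ) : ℤ_[2])) = l % r (v + 1) := by
      rw [dig_add_block, hz, zero_add]
    change en (v + 1) _ = _
    rw [en_reg (by rw [h1]; exact hl), h1]
  · rw [hr]; exact al_gt (by omega)
  · intro u hu
    obtain ⟨h1, h2, k, hk, hkm⟩ := hP u hu
    rw [hr]
    refine ⟨h1, k, hk, ?_⟩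
    rw [← hkm, cnt_blocks]
    unfold cw
    have h3 : ∀ l ∈ range k, cnt (z + ((u * q (v + 1) : ℕ) : ℤ_[2]) +
        ((l * q (v + 1) : ℕ) : ℤ_[2])) (q (v + 1)) =
        al (v + 1) + en (v + 1) (z + (((u + l) * q (v + 1) : ℕ) : ℤ_[2])) := by
      intro l _
      have e1 : z + ((u * q (v + 1) : ℕ) : ℤ_[2]) + ((l * q (v + 1) : ℕ) : ℤ_[2]) =
        z + (((u + l) * q (v + 1) : ℕ) : ℤ_[2]) := by push_cast; ring
      rw [cnt_window v _ (by rw [dig_add_block_low (Nat.lt_succ_self v)]; exact h2), e1]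
    rw [sum_congr rfl h3, sum_add_distrib, sum_const, card_range, smul_eq_mul]

/-- Positions with a visit time which is a positive multiple of `q n`. -/
def QQ (n m : ℕ) : Set ℤ_[2] := {z | ∃ t, t ≠ 0 ∧ q n ∣ t ∧ cnt z t = m}

theorem QQ_subset (n m : ℕ) : QQ (n + 1) m ⊆ ⋃ i : ℕ, (bad (n + i) ∪ WW (n + i) m) := by
  rintro z ⟨t, ht, hd, hc⟩
  -- the largest level dividing t
  have hbound : ∃ v, ¬ q v ∣ t := by
    refine ⟨t, fun hdv => ?_⟩
    have h1 := Nat.le_of_dvd (Nat.pos_of_ne_zero ht) hdv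
    have h2 : t < 2 ^ t := Nat.lt_two_pow_self
    have h3 : 2 ^ t ≤ 2 ^ S t := Nat.pow_le_pow_right (by norm_num) (S_ge t)
    have h4 : q t = 2 ^ S t := rfl
    omega
  classical
  set V := Nat.find hbound with hV
  have hVs := Nat.find_spec hbound
  have hVm : ∀ m' < V, q m' ∣ t := fun m' hm' => by
    have := Nat.find_min hbound hm'
    rwa [not_not] at this
  have hVn : n + 1 < V := by
    by_contra hle
    exact hVs ((q_dvd (not_lt.1 hle)).trans hd)
  obtain ⟨i, hi⟩ := Nat.exists_eq_add_of_lt hVn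
  have hd2 : q (n + i + 1) ∣ t := hVm _ (by omega)
  obtain ⟨k, hk⟩ := hd2
  rw [Set.mem_iUnion]
  refine ⟨i, ?_⟩
  by_cases hb : rho (n + i) ≤ dig (n + i) z
  · left; exact hb
  · right
    refine ⟨not_le.1 hb, k, ?_, by rw [mul_comm, ← hk]; exact hc⟩
    intro h0
    apply hVs
    rw [← hV, hi, show n + 1 + i + 1 = n + i + 1 + 1 by ring, q_succ, hk]
    exact Nat.mul_dvd_mul_left _ (Nat.dvd_of_mod_eq_zero h0)

theorem ennreal_le_of_mul {a b c : ENNReal} (ha : a ≠ 0) (ha' : a ≠ ⊤) (h : a * b ≤ c) :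
    b ≤ c * a⁻¹ := by
  rw [← div_eq_mul_inv, ENNReal.le_div_iff_mul_le (Or.inl ha) (Or.inl ha'), mul_comm]
  exact h

theorem r_inv (v : ℕ) : (r v : ENNReal)⁻¹ = (2⁻¹ : ENNReal) ^ (v + 4) := by
  unfold r
  rw [← ENNReal.inv_pow]
  push_cast
  rfl

theorem hh_QQ (n m : ℕ) (hn : 2 ≤ n) : hh (QQ (n + 1) m) ≤ 24 * (2⁻¹ : ENNReal) ^ (n + 4) := by
  have hr0 : ∀ v, (r v : ENNReal) ≠ 0 := fun v => by
    have := r_ge v
    exact_mod_cast (by omega : r v ≠ 0)
  have hrt : ∀ v, (r v : ENNReal) ≠ ⊤ := fun v => ENNReal.natCast_ne_top _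
  calc hh (QQ (n + 1) m) ≤ hh (⋃ i : ℕ, (bad (n + i) ∪ WW (n + i) m)) :=
        measure_mono (QQ_subset n m)
    _ ≤ ∑' i : ℕ, hh (bad (n + i) ∪ WW (n + i) m) := measure_iUnion_le _
    _ ≤ ∑' i : ℕ, (12 * (2⁻¹ : ENNReal) ^ (n + 4)) * (2⁻¹ : ENNReal) ^ i := by
        apply ENNReal.tsum_le_tsum
        intro i
        refine (measure_union_le _ _).trans ?_
        have h1 := ennreal_le_of_mul (hr0 _) (hrt _) (hh_bad (n + i))
        have h2 := ennreal_le_of_mul (hr0 _) (hrt _) (hh_WW (n + i) m (by omega))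
        rw [r_inv] at h1 h2
        refine (add_le_add h1 h2).trans (le_of_eq ?_)
        have e1 : (2⁻¹ : ENNReal) ^ (n + i + 4) = (2⁻¹ : ENNReal) ^ (n + 4) * (2⁻¹ : ENNReal) ^ i := by
          rw [← pow_add]; congr 1; ring
        have e2 : (2⁻¹ : ENNReal) ^ (n + i + 1 + 4) =
            2⁻¹ * ((2⁻¹ : ENNReal) ^ (n + 4) * (2⁻¹ : ENNReal) ^ i) := by
          rw [← pow_add, ← pow_succ']; congr 1; ring
        rw [e1, e2]
        have e3 : ((16 : ℕ) : ENNReal) * (2⁻¹ * ((2⁻¹ : ENNReal) ^ (n + 4) * (2⁻¹ : ENNReal) ^ i)) =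
            8 * (2 * 2⁻¹) * ((2⁻¹ : ENNReal) ^ (n + 4) * (2⁻¹ : ENNReal) ^ i) := by
          push_cast; ring
        rw [e3, ENNReal.mul_inv_cancel (by norm_num) (by norm_num)]
        push_cast
        ring
    _ = (12 * (2⁻¹ : ENNReal) ^ (n + 4)) * 2 := by
        rw [ENNReal.tsum_mul_left, ENNReal.tsum_geometric]
        congr 1
        rw [ENNReal.one_sub_inv_two, inv_inv]
    _ = 24 * (2⁻¹ : ENNReal) ^ (n + 4) := by ring

end Pool.Agent.Y328.PR
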