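import Pool.Agent.Y328.PR3

/-!
# The symbolic system over the dyadic odometer
-/

set_option autoImplicit false

open Finset MeasureTheory Filter Topology
open scoped symmDiff
open Pool.Agent.H98R3.PD (exists_nat_congr dvd_iff_norm isClopen_dvd dvd_int)

namespace Pool.Agent.Y328.PR

/-- the letter: `false` at the marked positions -/
noncomputable def ltr (w : ℤ_[2]) : Bool := decide (on w = 0)

theorem ltr_false {w : ℤ_[2]} : ltr w = false ↔ on w = 1 := by
  unfold ltr on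
  split_ifs <;> simp

/-- non-singular positions -/
def NS (w : ℤ_[2]) : Prop := ∃ v, dig v w < rho v ∨ rho v + 3 ≤ dig v w

theorem ns_const {w : ℤ_[2]} (h : NS w) :
    ∃ N, ∀ M, N ≤ M → ∀ w' : ℤ_[2], (2 : ℤ_[2]) ^ M ∣ w' - w → ltr w' = ltr w := by
  obtain ⟨v, hv⟩ := h
  refine ⟨S (v + 1), fun M hM w' hd => ?_⟩
  have h1 : (2 : ℤ_[2]) ^ S (v + 1) ∣ w' - w := (pow_dvd_pow 2 hM).trans hd
  have h2 := (res_eq_iff (S (v + 1)) w' w).2 h1
  unfold ltr
  rw [on_congr h2.symm hv]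

theorem ns_nat (k : ℕ) : NS (k : ℤ_[2]) := by
  refine ⟨k, Or.inl ?_⟩
  have h1 : k < q k := by
    have h2 : k < 2 ^ k := Nat.lt_two_pow_self
    exact h2.trans_le (Nat.pow_le_pow_right (by norm_num) (S_ge k))
  have h3 : dig k (k : ℤ_[2]) = 0 := by
    unfold dig
    rw [res_nat]
    have h4 : k % 2 ^ S (k + 1) ≤ k := Nat.mod_le _ _
    exact Nat.div_eq_of_lt (by omega)
  rw [h3]
  have := rho_add k
  have := r_ge k
  omega

theorem ns_neg (k : ℕ) (hk : 0 < k) : NS (-(k : ℤ_[2])) := by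
  refine ⟨k, Or.inr ?_⟩
  have h1 : k < q k := by
    have h2 : k < 2 ^ k := Nat.lt_two_pow_self
    exact h2.trans_le (Nat.pow_le_pow_right (by norm_num) (S_ge k))
  have h2 : q k ≤ q (k + 1) := Nat.le_of_dvd (q_pos _) (q_dvd (Nat.le_succ k))
  have h3 := res_add_nat (S (k + 1)) (-(k : ℤ_[2])) k
  have h4 : res (S (k + 1)) (-(k : ℤ_[2]) + (k : ℤ_[2])) = 0 := by
    have : (-(k : ℤ_[2]) + (k : ℤ_[2])) = ((0 : ℕ) : ℤ_[2]) := by simp
    rw [this, res_nat, Nat.zero_mod]
  rw [h4] at h3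
  have h5 : res (S (k + 1)) (-(k : ℤ_[2])) < q (k + 1) := res_lt _ _
  have h6 : res (S (k + 1)) (-(k : ℤ_[2])) + k = q (k + 1) := by
    have h7 : (res (S (k + 1)) (-(k : ℤ_[2])) + k) % q (k + 1) = 0 := h3.symm
    by_contra hne
    by_cases h8 : res (S (k + 1)) (-(k : ℤ_[2])) + k < q (k + 1)
    · rw [Nat.mod_eq_of_lt h8] at h7; omega
    · rw [Nat.mod_eq_sub_mod (not_lt.1 h8), Nat.mod_eq_of_lt (by omega)] at h7; omega
  unfold dig
  rw [Nat.le_div_iff_mul_le (q_pos k)]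
  have h9 := q_succ k
  have h10 := rho_add k
  have h11 : (rho k + 3) * q k + q k = q (k + 1) := by
    rw [h9, ← h10]; ring
  omega

theorem ns_int (j : ℤ) : NS (j : ℤ_[2]) := by
  rcases Int.eq_nat_or_neg j with ⟨k, rfl | rfl⟩
  · have := ns_nat k
    simpa using this
  · rcases Nat.eq_zero_or_pos k with rfl | hk
    · have := ns_nat 0
      simpa using this
    · have := ns_neg k hk
      simpa using this

/-- dyadic integers all of whose integer translates are non-singular -/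
def GG : Set ℤ_[2] := {z | ∀ j : ℤ, NS (z + (j : ℤ_[2]))}

theorem int_mem_GG (a : ℤ) : (a : ℤ_[2]) ∈ GG := by
  intro j
  have := ns_int (a + j)
  push_cast at this
  exact this

theorem add_mem_GG {z : ℤ_[2]} (hz : z ∈ GG) (a : ℤ) : z + (a : ℤ_[2]) ∈ GG := by
  intro j
  have := hz (a + j)
  have e : z + ((a + j : ℤ) : ℤ_[2]) = z + (a : ℤ_[2]) + (j : ℤ_[2]) := by push_cast; ring
  rwa [e] at this

theorem uniform {z : ℤ_[2]} (hz : z ∈ GG) (J M : ℕ) : ∃ N, M ≤ N ∧
    ∀ w' : ℤ_[2], (2 : ℤ_[2]) ^ N ∣ w' - z → ∀ j : ℤ, |j| ≤ (J : ℤ) →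
      ltr (w' + (j : ℤ_[2])) = ltr (z + (j : ℤ_[2])) := by
  choose F hF using fun j : ℤ => ns_const (hz j)
  refine ⟨max M ((Finset.Icc (-(J : ℤ)) (J : ℤ)).sup F), le_max_left _ _, ?_⟩
  intro w' hd j hj
  apply hF j (max M ((Finset.Icc (-(J : ℤ)) (J : ℤ)).sup F))
  · refine le_trans ?_ (le_max_right _ _)
    apply Finset.le_sup
    rw [Finset.mem_Icc]
    exact abs_le.1 hj
  · have e : w' + (j : ℤ_[2]) - (z + (j : ℤ_[2])) = w' - z := by ring
    rw [e]; exact hd

/-- the ambient space -/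
abbrev WS : Type := ℤ_[2] × (ℤ → Bool)

/-- the point of the ambient space over `z` -/
noncomputable def ph (z : ℤ_[2]) : WS := (z, fun j => ltr (z + (j : ℤ_[2])))

/-- the shift of the ambient space by `a` -/
noncomputable def shW (a : ℤ) (p : WS) : WS := (p.1 + (a : ℤ_[2]), fun j => p.2 (j + a))

theorem continuous_shW (a : ℤ) : Continuous (shW a) := by
  refine Continuous.prodMk (continuous_fst.add continuous_const) ?_
  apply continuous_pi
  intro j
  exact (continuous_apply (j + a)).comp continuous_snd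

theorem shW_ph (a : ℤ) (z : ℤ_[2]) : shW a (ph z) = ph (z + a) := by
  apply Prod.ext
  · rfl
  · funext j
    change ltr (z + ((j + a : ℤ) : ℤ_[2])) = ltr (z + (a : ℤ_[2]) + (j : ℤ_[2]))
    congr 1
    push_cast; ring

theorem shW_shW (a b : ℤ) (p : WS) : shW a (shW b p) = shW (a + b) p := by
  apply Prod.ext
  · change p.1 + (b : ℤ_[2]) + (a : ℤ_[2]) = p.1 + ((a + b : ℤ) : ℤ_[2])
    push_cast; ring
  · funext j
    change p.2 (j + a + b) = p.2 (j + (a + b))
    rw [add_assoc]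

/-- the integer points -/
def Orb : Set WS := Set.range (fun a : ℤ => ph (a : ℤ_[2]))

/-- basic neighbourhoods -/
def nb (p : WS) (M J : ℕ) : Set WS :=
  {p' | (2 : ℤ_[2]) ^ M ∣ p'.1 - p.1 ∧ ∀ j : ℤ, |j| ≤ (J : ℤ) → p'.2 j = p.2 j}

theorem self_mem_nb (p : WS) (M J : ℕ) : p ∈ nb p M J := by
  refine ⟨?_, fun _ _ => rfl⟩
  rw [sub_self]; exact dvd_zero _

theorem isOpen_nb (p : WS) (M J : ℕ) : IsOpen (nb p M J) := by
  have h : nb p M J = ((fun p' : WS => p'.1 - p.1) ⁻¹' {w | (2 : ℤ_[2]) ^ M ∣ w}) ∩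
      ⋂ j ∈ Finset.Icc (-(J : ℤ)) (J : ℤ), (fun p' : WS => p'.2 j) ⁻¹' {p.2 j} := by
    ext p'
    simp only [nb, Set.mem_ofPred_eq, Set.mem_inter_iff, Set.mem_preimage, Set.mem_iInter,
      Finset.mem_Icc, Set.mem_singleton_iff, abs_le]
  rw [h]
  apply IsOpen.inter
  · exact ((isClopen_dvd M).preimage (continuous_fst.sub continuous_const)).isOpen
  · apply isOpen_biInter_finset
    intro j _
    exact (isOpen_discrete _).preimage ((continuous_apply j).comp continuous_snd)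

theorem tendsto_two_pow : Tendsto (fun N : ℕ => (2 : ℝ) ^ (-(N : ℤ))) atTop (𝓝 0) := by
  have h4 : Tendsto (fun N : ℕ => ((1 / 2 : ℝ)) ^ N) atTop (𝓝 0) :=
    (tendsto_pow_atTop_nhds_zero_of_lt_one (by norm_num)
        (by norm_num : (1 / 2 : ℝ) < 1))
  refine h4.congr ?_
  intro N
  rw [zpow_neg, zpow_natCast, one_div, inv_pow]

theorem tendsto_nb (p : WS) (f : ℕ → WS) (h : ∀ N, f N ∈ nb p N N) :
    Tendsto f atTop (𝓝 p) := by
  have h1 : Tendsto (fun N => (f N).1) atTop (𝓝 p.1) := by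
    have h0 : Tendsto (fun N => ((f N).1 - p.1)) atTop (𝓝 0) := by
      rw [tendsto_zero_iff_norm_tendsto_zero]
      exact squeeze_zero (fun _ => norm_nonneg _)
        (fun N => (dvd_iff_norm _ _).mp (h N).1) tendsto_two_pow
    have h6 := h0.add_const p.1
    rw [zero_add] at h6
    refine h6.congr ?_
    intro N
    ring
  have h2 : Tendsto (fun N => (f N).2) atTop (𝓝 p.2) := by
    rw [tendsto_pi_nhds]
    intro j
    apply tendsto_nhds_of_eventually_eq
    filter_upwards [eventually_ge_atTop j.natAbs] with N hN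
    apply (h N).2
    rw [Int.abs_eq_natAbs]
    exact_mod_cast hN
  exact h1.prodMk_nhds h2

/-- the system -/
def XX : Type := {p : WS // p ∈ closure Orb}

instance : TopologicalSpace XX := inferInstanceAs (TopologicalSpace (Subtype _))

theorem isEmbedding_XX : Topology.IsEmbedding (fun x : XX => x.1) :=
  Topology.IsEmbedding.subtypeVal

theorem continuous_XX : Continuous (fun x : XX => x.1) := continuous_subtype_val

instance : TopologicalSpace.MetrizableSpace XX := isEmbedding_XX.metrizableSpace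

instance : CompactSpace XX :=
  isCompact_iff_compactSpace.mp (isClosed_closure (s := Orb)).isCompact

instance : TotallyDisconnectedSpace XX := by
  exact inferInstanceAs (TotallyDisconnectedSpace (Subtype _))

theorem maps_shW (a : ℤ) : Set.MapsTo (shW a) Orb Orb := by
  rintro p ⟨b, rfl⟩
  refine ⟨b + a, ?_⟩
  change ph _ = shW a (ph _)
  rw [shW_ph]
  push_cast
  rfl

/-- the shift by `a` -/
noncomputable def shX (a : ℤ) (x : XX) : XX :=
  ⟨shW a x.1, map_mem_closure (continuous_shW a) x.2 (maps_shW a)⟩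

theorem shX_shX (a b : ℤ) (x : XX) : shX a (shX b x) = shX (a + b) x :=
  Subtype.ext (shW_shW a b x.1)

theorem shX_zero (x : XX) : shX 0 x = x := by
  apply Subtype.ext
  apply Prod.ext
  · change x.1.1 + ((0 : ℤ) : ℤ_[2]) = x.1.1
    simp
  · funext j
    change x.1.2 (j + 0) = x.1.2 j
    rw [add_zero]

theorem continuous_shX (a : ℤ) : Continuous (shX a) :=
  Continuous.subtype_mk ((continuous_shW a).comp continuous_XX) _

/-- The homeomorphism. -/
noncomputable def TX : XX ≃ₜ XX where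
  toFun := shX 1
  invFun := shX (-1)
  left_inv := fun x => by rw [shX_shX]; exact shX_zero x
  right_inv := fun x => by rw [shX_shX]; exact shX_zero x
  continuous_toFun := continuous_shX 1
  continuous_invFun := continuous_shX (-1)

theorem TX_apply (x : XX) : TX x = shX 1 x := rfl

theorem iterate_TX (n : ℕ) (x : XX) : (⇑TX)^[n] x = shX (n : ℤ) x := by
  induction n with
  | zero => simp [shX_zero]
  | succ n ih =>
    rw [Function.iterate_succ_apply', ih, TX_apply, shX_shX]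
    congr 1
    push_cast
    ring

theorem exists_int_nb (y : XX) (M J : ℕ) : ∃ a : ℤ, ph (a : ℤ_[2]) ∈ nb y.1 M J := by
  have h := mem_closure_iff.1 y.2 _ (isOpen_nb y.1 M J) (self_mem_nb y.1 M J)
  obtain ⟨p, hp, a, rfl⟩ := h
  exact ⟨a, hp⟩

/-- Every forward orbit approximates every point. -/
theorem approx (x y : XX) (M J : ℕ) : ∃ n : ℕ, shW (n : ℤ) x.1 ∈ nb y.1 M J := by
  obtain ⟨a, ha1, ha2⟩ := exists_int_nb y M J
  obtain ⟨N, hN, hu⟩ := uniform (int_mem_GG a) J M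
  obtain ⟨b, hb1, hb2⟩ := exists_int_nb x N (J + 2 ^ N)
  obtain ⟨n, hn, hd⟩ := exists_nat_congr ((a : ℤ_[2]) - x.1.1) N
  refine ⟨n, ?_, ?_⟩
  · change (2 : ℤ_[2]) ^ M ∣ x.1.1 + ((n : ℤ) : ℤ_[2]) - y.1.1
    have e : x.1.1 + ((n : ℤ) : ℤ_[2]) - y.1.1 =
        ((a : ℤ_[2]) - y.1.1) - ((a : ℤ_[2]) - x.1.1 - (n : ℤ_[2])) := by push_cast; ring
    rw [e]
    exact dvd_sub ha1 ((pow_dvd_pow 2 hN).trans hd)
  · intro j hj
    change x.1.2 (j + (n : ℤ)) = y.1.2 j
    have h1 : |j + (n : ℤ)| ≤ ((J + 2 ^ N : ℕ) : ℤ) := by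
      refine (abs_add_le _ _).trans ?_
      push_cast
      have : |(n : ℤ)| ≤ 2 ^ N := by
        rw [abs_of_nonneg (by positivity)]
        exact_mod_cast hn.le
      exact add_le_add hj this
    rw [← hb2 _ h1, ← ha2 j hj]
    change ltr ((b : ℤ_[2]) + ((j + (n : ℤ) : ℤ) : ℤ_[2])) = ltr ((a : ℤ_[2]) + (j : ℤ_[2]))
    have h2 := hu ((b : ℤ_[2]) + (n : ℤ_[2])) (by
      have e : (b : ℤ_[2]) + (n : ℤ_[2]) - (a : ℤ_[2]) =
          ((b : ℤ_[2]) - x.1.1) - ((a : ℤ_[2]) - x.1.1 - (n : ℤ_[2])) := by ring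
      rw [e]
      exact dvd_sub hb1 hd) j hj
    rw [← h2]
    congr 1
    push_cast; ring

theorem minimalX (x : XX) :
    Dense {y : XX | ∃ n : ℕ, (⇑TX)^[n] x = y ∨ (⇑TX.symm)^[n] x = y} := by
  intro y
  choose n hn using fun N : ℕ => approx x y N N
  have h : Tendsto (fun N => (⇑TX)^[n N] x) atTop (𝓝 y) := by
    rw [isEmbedding_XX.tendsto_nhds_iff]
    have h2 := tendsto_nb y.1 (fun N => shW (n N : ℤ) x.1) hn
    refine h2.congr ?_
    intro N
    rw [Function.comp_apply, iterate_TX]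
    rfl
  apply mem_closure_of_tendsto h
  apply Eventually.of_forall
  intro N
  exact ⟨n N, Or.inl rfl⟩

theorem perfectX (x : XX) : (𝓝[≠] x).NeBot := by
  choose n hn using fun N : ℕ => approx (shX 1 x) x N N
  have h : Tendsto (fun N => shX ((n N : ℤ) + 1) x) atTop (𝓝[≠] x) := by
    rw [tendsto_nhdsWithin_iff]
    constructor
    · rw [isEmbedding_XX.tendsto_nhds_iff]
      have h2 := tendsto_nb x.1 (fun N => shW (n N : ℤ) (shX 1 x).1) hn
      refine h2.congr ?_
      intro N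
      change shW _ (shW _ x.1) = shW _ x.1
      rw [shW_shW]
    · apply Eventually.of_forall
      intro N h
      have h2 : x.1.1 + (((n N : ℤ) + 1 : ℤ) : ℤ_[2]) = x.1.1 :=
        congrArg (fun y : XX => y.1.1) h
      have h3 : (((n N : ℤ) + 1 : ℤ) : ℤ_[2]) = 0 := by linear_combination h2
      have h4 : ((n N : ℤ) + 1 : ℤ) = 0 := by exact_mod_cast h3
      omega
  exact h.neBot

/-- non-singular points belong to the system -/
theorem ph_mem {z : ℤ_[2]} (hz : z ∈ GG) : ph z ∈ closure Orb := by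
  choose a ha using fun N : ℕ => (show ∃ a : ℤ, ph (a : ℤ_[2]) ∈ nb (ph z) N N by
    obtain ⟨M, hM, hu⟩ := uniform hz N N
    obtain ⟨a, _, hd⟩ := exists_nat_congr z M
    refine ⟨a, ?_, ?_⟩
    · change (2 : ℤ_[2]) ^ N ∣ ((a : ℤ) : ℤ_[2]) - z
      have e : ((a : ℤ) : ℤ_[2]) - z = -(z - (a : ℤ_[2])) := by push_cast; ring
      rw [e]
      exact (dvd_neg).2 ((pow_dvd_pow 2 hM).trans hd)
    · intro j hj
      apply hu _ _ j hj
      have e : ((a : ℤ) : ℤ_[2]) - z = -(z - (a : ℤ_[2])) := by push_cast; ring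
      rw [e]
      exact (dvd_neg).2 hd)
  apply mem_closure_of_tendsto (tendsto_nb (ph z) _ ha)
  apply Eventually.of_forall
  intro N
  exact ⟨a N, rfl⟩

end Pool.Agent.Y328.PR
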