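import Pool.Agent.Y328.PR4

/-!
# The invariant measure, rigidity, and the induced map
-/

set_option autoImplicit false

open Finset MeasureTheory Filter Topology
open scoped symmDiff
open Pool.Agent.H98R3.PD (exists_nat_congr dvd_iff_norm isClopen_dvd dvd_int hh rigid_of_ae
  cc cc_zero cc_succ cc_add cc_mono cc_unique)

namespace Pool.Agent.Y328.PR

noncomputable instance : MeasurableSpace XX := borel _
instance : BorelSpace XX := ⟨rfl⟩

theorem measurable_ltr : Measurable ltr := by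
  have : ltr = (fun k : ℕ => decide (k = 0)) ∘ on := rfl
  rw [this]
  exact (measurable_of_countable _).comp measurable_on

theorem measurable_ph : Measurable ph := by
  refine Measurable.prodMk measurable_id ?_
  rw [measurable_pi_iff]
  intro j
  exact measurable_ltr.comp (measurable_id.add_const _)

theorem measurableSet_NS : MeasurableSet {w : ℤ_[2] | NS w} := by
  have : {w : ℤ_[2] | NS w} = ⋃ v : ℕ, {w | dig v w < rho v ∨ rho v + 3 ≤ dig v w} := by
    ext w
    simp only [NS, Set.mem_ofPred_eq, Set.mem_iUnion]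
  rw [this]
  apply MeasurableSet.iUnion
  intro v
  exact (continuous_dig v).measurable ((Set.to_countable {k : ℕ | k < rho v ∨ rho v + 3 ≤ k}).measurableSet)

theorem measurableSet_GG : MeasurableSet GG := by
  have : GG = ⋂ j : ℤ, (fun z : ℤ_[2] => z + (j : ℤ_[2])) ⁻¹' {w | NS w} := by
    ext z
    simp only [GG, Set.mem_ofPred_eq, Set.mem_iInter, Set.mem_preimage]
  rw [this]
  exact MeasurableSet.iInter fun j => (measurable_id.add_const _) measurableSet_NS

theorem hh_not_NS : hh {w : ℤ_[2] | ¬ NS w} = 0 := by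
  have h1 : ∀ v, hh {w : ℤ_[2] | ¬ NS w} ≤ 4 * (2⁻¹ : ENNReal) ^ (v + 4) := by
    intro v
    refine (measure_mono (t := bad v) ?_).trans ?_
    · intro w hw
      by_contra hb
      exact hw ⟨v, Or.inl (not_le.1 hb)⟩
    · have := ennreal_le_of_mul (a := (r v : ENNReal)) (b := hh (bad v)) (c := (4 : ℕ)) (by
        have := r_ge v
        exact_mod_cast (by omega : r v ≠ 0)) (ENNReal.natCast_ne_top _) (hh_bad v)
      rw [r_inv] at this
      simpa using this
  have h2 : Tendsto (fun v : ℕ => 4 * (2⁻¹ : ENNReal) ^ (v + 4)) atTop (𝓝 (4 * 0)) := by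
    apply ENNReal.Tendsto.const_mul _ (Or.inr (by norm_num))
    have h3 := ENNReal.tendsto_pow_atTop_nhds_zero_of_lt_one (r := (2⁻¹ : ENNReal)) (by
      exact ENNReal.one_half_lt_one)
    exact h3.comp (tendsto_add_atTop_nat 4)
  rw [mul_zero] at h2
  exact le_antisymm (ge_of_tendsto' h2 h1) (zero_le)

theorem ae_GG : ∀ᵐ z ∂hh, z ∈ GG := by
  change ∀ᵐ z ∂hh, ∀ j : ℤ, NS (z + (j : ℤ_[2]))
  rw [ae_all_iff]
  intro j
  have h1 : ∀ᵐ w ∂hh, NS w := hh_not_NS
  exact (measurePreserving_add_right hh (j : ℤ_[2])).quasiMeasurePreserving.ae h1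

/-- the base point -/
noncomputable def x0 : XX := ⟨ph 0, by
  have := ph_mem (int_mem_GG 0)
  simpa using this⟩

open Classical in
/-- section of the projection to the odometer -/
noncomputable def phX (z : ℤ_[2]) : XX := if h : z ∈ GG then ⟨ph z, ph_mem h⟩ else x0

theorem phX_val {z : ℤ_[2]} (h : z ∈ GG) : (phX z).1 = ph z := by
  unfold phX
  rw [dif_pos h]

theorem shX_phX (a : ℤ) {z : ℤ_[2]} (h : z ∈ GG) : shX a (phX z) = phX (z + a) := by
  apply Subtype.ext
  rw [phX_val (add_mem_GG h a)]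
  change shW a (phX z).1 = _
  rw [phX_val h, shW_ph]

theorem measurable_phX : Measurable phX := by
  classical
  have hemb : MeasurableEmbedding (fun x : XX => x.1) := by
    apply Topology.IsClosedEmbedding.measurableEmbedding
    exact (isClosed_closure (s := Orb)).isClosedEmbedding_subtypeVal
  rw [← hemb.measurable_comp_iff]
  have : (fun x : XX => x.1) ∘ phX = fun z => if z ∈ GG then ph z else x0.1 := by
    funext z
    by_cases h : z ∈ GG
    · rw [if_pos h]; exact phX_val h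
    · rw [if_neg h]
      change (phX z).1 = x0.1
      unfold phX
      rw [dif_neg h]
  rw [this]
  exact Measurable.ite measurableSet_GG measurable_ph measurable_const

/-- the invariant measure -/
noncomputable def muX : Measure XX := hh.map phX

instance : IsProbabilityMeasure muX :=
  Measure.isProbabilityMeasure_map measurable_phX.aemeasurable

theorem mp_shX (a : ℤ) : MeasurePreserving (shX a) muX muX := by
  refine ⟨(continuous_shX a).measurable, ?_⟩
  unfold muX
  rw [Measure.map_map (continuous_shX a).measurable measurable_phX]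
  have h2 := (measurePreserving_add_right hh (a : ℤ_[2]))
  have h1 : (shX a ∘ phX) =ᵐ[hh] phX ∘ (fun z : ℤ_[2] => z + (a : ℤ_[2])) := by
    filter_upwards [ae_GG] with z hz
    exact shX_phX a hz
  rw [Measure.map_congr h1, ← Measure.map_map measurable_phX h2.measurable, h2.map_eq]

theorem mp_TX : MeasurePreserving (⇑TX) muX muX := mp_shX 1

theorem tendsto_q (z : ℤ_[2]) (hz : z ∈ GG) :
    Tendsto (fun k : ℕ => shX ((q k : ℕ) : ℤ) (phX z)) atTop (𝓝 (phX z)) := by
  rw [isEmbedding_XX.tendsto_nhds_iff]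
  have hdq : ∀ k, (2 : ℤ_[2]) ^ S k = ((q k : ℕ) : ℤ_[2]) := by
    intro k; unfold q; push_cast; rfl
  have e1 : ∀ k, (shX ((q k : ℕ) : ℤ) (phX z)).1 = ph (z + ((q k : ℕ) : ℤ_[2])) := by
    intro k
    rw [shX_phX _ hz, phX_val (add_mem_GG hz _)]
    congr 1
  have h1 : Tendsto (fun k : ℕ => z + ((q k : ℕ) : ℤ_[2])) atTop (𝓝 z) := by
    have h0 : Tendsto (fun k : ℕ => ((q k : ℕ) : ℤ_[2])) atTop (𝓝 0) := by
      rw [tendsto_zero_iff_norm_tendsto_zero]
      refine squeeze_zero (fun _ => norm_nonneg _) (fun k => ?_) tendsto_two_pow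
      apply (dvd_iff_norm k _).1
      rw [← hdq]
      exact pow_dvd_pow 2 (S_ge k)
    simpa using h0.const_add z
  have h2 : Tendsto (fun k : ℕ => (ph (z + ((q k : ℕ) : ℤ_[2]))).2) atTop (𝓝 (ph z).2) := by
    rw [tendsto_pi_nhds]
    intro j
    apply tendsto_nhds_of_eventually_eq
    obtain ⟨N, hN⟩ := ns_const (hz j)
    filter_upwards [eventually_ge_atTop N] with k hk
    change ltr (z + ((q k : ℕ) : ℤ_[2]) + (j : ℤ_[2])) = ltr (z + (j : ℤ_[2]))
    apply hN (S k) (hk.trans (S_ge k))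
    rw [hdq]
    refine ⟨1, ?_⟩
    ring
  have h3 : Tendsto (fun k : ℕ => ph (z + ((q k : ℕ) : ℤ_[2]))) atTop (𝓝 (ph z)) :=
    h1.prodMk_nhds h2
  rw [phX_val hz]
  refine h3.congr ?_
  intro k
  exact (e1 k).symm

theorem fiber {x : XX} (h : x.1.1 ∈ GG) : x = phX x.1.1 := by
  apply Subtype.ext
  rw [phX_val h]
  apply Prod.ext
  · rfl
  · funext j
    change x.1.2 j = ltr (x.1.1 + (j : ℤ_[2]))
    obtain ⟨N, hN⟩ := ns_const (h j)
    obtain ⟨a, ha1, ha2⟩ := exists_int_nb x N j.natAbs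
    rw [← ha2 j (by rw [Int.abs_eq_natAbs])]
    apply hN N le_rfl
    have e : (a : ℤ_[2]) + (j : ℤ_[2]) - (x.1.1 + (j : ℤ_[2])) = (a : ℤ_[2]) - x.1.1 := by ring
    change (2 : ℤ_[2]) ^ N ∣ (a : ℤ_[2]) + (j : ℤ_[2]) - (x.1.1 + (j : ℤ_[2]))
    rw [e]
    exact ha1

theorem ae_fst_GG : ∀ᵐ x ∂muX, x.1.1 ∈ GG := by
  unfold muX
  rw [ae_map_iff measurable_phX.aemeasurable]
  · filter_upwards [ae_GG] with z hz
    rw [phX_val hz]
    exact hz
  · have : Measurable (fun x : XX => x.1.1) := (continuous_fst.comp continuous_XX).measurable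
    exact this measurableSet_GG

theorem ae_map_GG {P : XX → Prop} (h : ∀ z ∈ GG, P (phX z)) : ∀ᵐ x ∂muX, P x := by
  filter_upwards [ae_fst_GG] with x hx
  rw [fiber hx]
  exact h _ hx

theorem strictMono_q : StrictMono q := by
  apply strictMono_nat_of_lt_succ
  intro n
  rw [q_succ]
  have := r_ge n
  have := q_pos n
  nlinarith

theorem rigid_TX (B : Set XX) (hB : MeasurableSet B) :
    Tendsto (fun k => muX (((⇑TX)^[q k] ⁻¹' B) ∆ B)) atTop (𝓝 0) := by
  have h := rigid_of_ae muX (fun k : ℕ => shX ((q k : ℕ) : ℤ)) (fun k => mp_shX _)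
    (ae_map_GG tendsto_q) B hB
  refine h.congr ?_
  intro k
  have : (⇑TX)^[q k] = shX ((q k : ℕ) : ℤ) := by
    funext x
    exact iterate_TX _ _
  rw [this]

/-- The clopen set. -/
def AX : Set XX := {x | x.1.2 0 = false}

theorem continuous_coordX (j : ℤ) : Continuous (fun x : XX => x.1.2 j) :=
  (continuous_apply j).comp (continuous_snd.comp continuous_XX)

theorem isClopen_AX : IsClopen AX :=
  (isClopen_discrete {false}).preimage (continuous_coordX 0)

theorem res_sixteen {w : ℤ_[2]} (h : res (S 1) w = 16) : on w = 1 := by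
  have h1 : res (S 0) w = 0 := by rw [res_S_mod (Nat.zero_le 1), h]; rfl
  have h2 : dig 0 w = 1 := by
    unfold dig
    rw [h]; rfl
  have h3 : en 0 w = 1 := by
    rw [en_reg (by rw [h2]; decide), h2]
  unfold on
  rw [h1, h3, if_pos (by norm_num)]

theorem measure_AX_ne : muX AX ≠ 0 := by
  unfold muX
  rw [Measure.map_apply measurable_phX isClopen_AX.isOpen.measurableSet]
  have h1 : hh {w : ℤ_[2] | res (S 1) w = 16} ≠ 0 := by
    apply IsOpen.measure_ne_zero
    · exact (isOpen_discrete {16}).preimage (continuous_res (S 1))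
    · refine ⟨((16 : ℕ) : ℤ_[2]), ?_⟩
      change res (S 1) ((16 : ℕ) : ℤ_[2]) = 16
      rw [res_nat]; rfl
  intro h0
  apply h1
  have h2 : hh (phX ⁻¹' AX ∪ GGᶜ) = 0 := by
    apply measure_union_null h0
    exact ae_GG
  refine measure_mono_null ?_ h2
  intro w hw
  by_cases hg : w ∈ GG
  · left
    change (phX w).1.2 0 = false
    rw [phX_val hg]
    change ltr (w + ((0 : ℤ) : ℤ_[2])) = false
    rw [ltr_false]
    have : w + ((0 : ℤ) : ℤ_[2]) = w := by simp
    rw [this]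
    exact res_sixteen hw
  · right; exact hg

theorem exists_visitX (x : XX) : ∃ n : ℕ, 0 < n ∧ x.1.2 (n : ℤ) = false := by
  have h16 : ph ((16 : ℤ) : ℤ_[2]) ∈ closure Orb := subset_closure ⟨16, rfl⟩
  obtain ⟨n, h1, h2⟩ := approx (shX 1 x) ⟨_, h16⟩ 0 0
  refine ⟨n + 1, by omega, ?_⟩
  have h3 := h2 0 (by simp)
  change x.1.2 (0 + (n : ℤ) + 1) = ltr (((16 : ℤ) : ℤ_[2]) + ((0 : ℤ) : ℤ_[2])) at h3
  rw [zero_add] at h3
  push_cast
  rw [h3, ltr_false]
  apply res_sixteen
  have : (((16 : ℤ) : ℤ_[2]) + ((0 : ℤ) : ℤ_[2])) = ((16 : ℕ) : ℤ_[2]) := by norm_num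
  rw [this, res_nat]; rfl

/-- The first return map. -/
noncomputable def SX (x : XX) : XX := by
  classical
  exact shX ((Nat.find (exists_visitX x) : ℕ) : ℤ) x

theorem SX_spec (x : XX) (_hx : x ∈ AX) : ∃ r : ℕ, 0 < r ∧ SX x = (⇑TX)^[r] x ∧
    (⇑TX)^[r] x ∈ AX ∧ ∀ j : ℕ, 0 < j → j < r → (⇑TX)^[j] x ∉ AX := by
  classical
  refine ⟨Nat.find (exists_visitX x), (Nat.find_spec (exists_visitX x)).1, ?_, ?_, ?_⟩
  · rw [iterate_TX]
    rfl
  · rw [iterate_TX]
    change x.1.2 (0 + _) = false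
    rw [zero_add]
    exact (Nat.find_spec (exists_visitX x)).2
  · intro j hj hjr h
    apply Nat.find_min (exists_visitX x) hjr
    refine ⟨hj, ?_⟩
    rw [iterate_TX] at h
    have h2 : x.1.2 (0 + (j : ℤ)) = false := h
    rwa [zero_add] at h2

theorem cc_cnt {z : ℤ_[2]} (h : z ∈ GG) (t : ℕ) : cc (phX z).1.2 0 t = cnt z t := by
  unfold cc cnt
  apply sum_congr rfl
  intro j _
  rw [phX_val h, zero_add]
  change (if ltr (z + ((j : ℤ) : ℤ_[2])) = false then 1 else 0) = on (z + (j : ℤ_[2]))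
  have e : (((j : ℤ) : ℤ_[2])) = ((j : ℕ) : ℤ_[2]) := by push_cast; rfl
  rw [e]
  by_cases h1 : ltr (z + ((j : ℕ) : ℤ_[2])) = false
  · rw [if_pos h1, ltr_false.1 h1]
  · rw [if_neg h1]
    have h2 : on (z + ((j : ℕ) : ℤ_[2])) ≠ 1 := fun h3 => h1 (ltr_false.2 h3)
    unfold on at h2 ⊢
    split_ifs at h2 ⊢ with h3
    · exact absurd rfl h2
    · rfl

theorem iterate_SX (Sm : XX → XX) (hS : ∀ x ∈ AX, ∃ r : ℕ, 0 < r ∧ Sm x = (⇑TX)^[r] x ∧
    (⇑TX)^[r] x ∈ AX ∧ ∀ j : ℕ, 0 < j → j < r → (⇑TX)^[j] x ∉ AX) (m : ℕ) (x : XX) (hx : x ∈ AX) :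
    ∃ t : ℕ, Sm^[m] x = shX (t : ℤ) x ∧ x.1.2 t = false ∧ cc x.1.2 0 t = m := by
  induction m with
  | zero => exact ⟨0, by simp [shX_zero], hx, rfl⟩
  | succ m ih =>
    obtain ⟨t, h1, h2, h3⟩ := ih
    have hy : Sm^[m] x ∈ AX := by
      rw [h1]
      change x.1.2 (0 + (t : ℤ)) = false
      rw [zero_add]
      exact h2
    obtain ⟨r, hr, h4, h5, h6⟩ := hS _ hy
    refine ⟨t + r, ?_, ?_, ?_⟩
    · rw [Function.iterate_succ_apply', h4, h1, iterate_TX, shX_shX]
      congr 1
      push_cast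
      ring
    · rw [h1, iterate_TX] at h5
      have h7 : x.1.2 (0 + (r : ℤ) + (t : ℤ)) = false := h5
      rw [zero_add] at h7
      have : ((t + r : ℕ) : ℤ) = (r : ℤ) + (t : ℤ) := by push_cast; ring
      rw [this]
      exact h7
    · rw [cc_add, h3, zero_add]
      congr 1
      unfold cc
      have hmem : 0 ∈ Finset.range r := Finset.mem_range.mpr hr
      rw [← Finset.add_sum_erase _ _ hmem]
      have hz : ∑ j ∈ (Finset.range r).erase 0,
          (if x.1.2 ((t : ℤ) + (j : ℤ)) = false then 1 else 0) = 0 := by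
        apply Finset.sum_eq_zero
        intro j hj
        rw [Finset.mem_erase, Finset.mem_range] at hj
        have h8 := h6 j (by omega) hj.2
        rw [h1, iterate_TX] at h8
        have h9 : ¬ (x.1.2 (0 + (j : ℤ) + (t : ℤ)) = false) := h8
        rw [zero_add, add_comm] at h9
        rw [if_neg h9]
      rw [hz]
      simp [h2]

/-- Points with a visit count `m` at a positive multiple of `q n`. -/
def QX (n m : ℕ) : Set XX := {x | ∃ t : ℕ, t ≠ 0 ∧ q n ∣ t ∧ cc x.1.2 0 t = m}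

theorem isOpen_QX (n m : ℕ) : IsOpen (QX n m) := by
  have : QX n m = ⋃ t : {t : ℕ // t ≠ 0 ∧ q n ∣ t}, {x | cc x.1.2 0 t = m} := by
    ext x
    simp only [QX, Set.mem_ofPred_eq, Set.mem_iUnion, Subtype.exists, exists_prop, and_assoc]
  rw [this]
  apply isOpen_iUnion
  intro t
  have h : Continuous (fun x : XX => cc x.1.2 0 t) := by
    unfold cc
    apply continuous_finsetSum
    intro j _
    have : (fun x : XX => if x.1.2 (0 + (j : ℤ)) = false then 1 else 0) =
        (fun b : Bool => if b = false then 1 else 0) ∘ (fun x : XX => x.1.2 (0 + (j : ℤ))) := rfl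
    rw [this]
    exact continuous_of_discreteTopology.comp (continuous_coordX _)
  exact (isOpen_discrete {m}).preimage h

theorem measure_QX (n m : ℕ) (hn : 2 ≤ n) :
    muX (QX (n + 1) m) ≤ 24 * (2⁻¹ : ENNReal) ^ (n + 4) := by
  unfold muX
  rw [Measure.map_apply measurable_phX (isOpen_QX _ _).measurableSet]
  have h1 : phX ⁻¹' (QX (n + 1) m) ⊆ QQ (n + 1) m ∪ GGᶜ := by
    intro z hz
    by_cases hg : z ∈ GG
    · left
      obtain ⟨t, h1, h2, h3⟩ := hz
      rw [cc_cnt hg] at h3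
      exact ⟨t, h1, h2, h3⟩
    · right; exact hg
  refine (measure_mono h1).trans ((measure_union_le _ _).trans ?_)
  have h2 : hh GGᶜ = 0 := ae_GG
  rw [h2, add_zero]
  exact hh_QQ n m hn

/-- The residue class pieces of the clopen set. -/
def BX (n i : ℕ) : Set XX := AX ∩ {x | res (S n) x.1.1 = i}

theorem measurable_BX (n i : ℕ) : MeasurableSet (BX n i) := by
  apply isClopen_AX.isOpen.measurableSet.inter
  have : Continuous (fun x : XX => res (S n) x.1.1) :=
    (continuous_res _).comp (continuous_fst.comp continuous_XX)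
  exact ((isOpen_discrete {i}).preimage this).measurableSet

theorem BX_disj (n : ℕ) {i j : ℕ} (h : i ≠ j) : Disjoint (BX n i) (BX n j) := by
  rw [Set.disjoint_left]
  rintro x ⟨_, h1⟩ ⟨_, h2⟩
  have h1' : res (S n) x.1.1 = i := h1
  have h2' : res (S n) x.1.1 = j := h2
  exact h (h1'.symm.trans h2')

theorem sum_BX (n : ℕ) : ∑ i ∈ range (q n), muX (BX n i) = muX AX := by
  rw [← measure_biUnion_finset (fun i _ j _ h => BX_disj n h) (fun i _ => measurable_BX n i)]
  congr 1
  ext x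
  simp only [Set.mem_iUnion, mem_range, exists_prop, BX, Set.mem_inter_iff, Set.mem_ofPred_eq]
  exact ⟨fun ⟨_, _, h, _⟩ => h, fun h => ⟨_, res_lt _ _, h, rfl⟩⟩

theorem return_sub (Sm : XX → XX) (hS : ∀ x ∈ AX, ∃ r : ℕ, 0 < r ∧ Sm x = (⇑TX)^[r] x ∧
    (⇑TX)^[r] x ∈ AX ∧ ∀ j : ℕ, 0 < j → j < r → (⇑TX)^[j] x ∉ AX) (n i m : ℕ) (hm : 0 < m) :
    BX n i ∩ Sm^[m] ⁻¹' (BX n i) ⊆ BX n i ∩ QX n m := by
  rintro x ⟨hx, hx2⟩
  refine ⟨hx, ?_⟩
  obtain ⟨t, h1, h2, h3⟩ := iterate_SX Sm hS m x hx.1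
  refine ⟨t, ?_, ?_, h3⟩
  · rintro rfl
    rw [cc_zero] at h3
    omega
  · rw [Set.mem_preimage, h1] at hx2
    have h4 : res (S n) (x.1.1 + ((t : ℤ) : ℤ_[2])) = i := hx2.2
    have h5 : res (S n) x.1.1 = i := hx.2
    have e : (((t : ℤ) : ℤ_[2])) = ((t : ℕ) : ℤ_[2]) := by push_cast; rfl
    rw [e, res_add_nat, h5] at h4
    have h6 : i < 2 ^ S n := h5 ▸ res_lt _ _
    have h7 : (i + t) % 2 ^ S n = (i + 0) % 2 ^ S n := by
      rw [h4, add_zero, Nat.mod_eq_of_lt h6]
    have h8 : t ≡ 0 [MOD 2 ^ S n] := Nat.ModEq.add_left_cancel' i h7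
    exact (Nat.modEq_zero_iff_dvd).1 h8

theorem not_partially_rigid (Sm : XX → XX)
    (hS : ∀ x ∈ AX, ∃ r : ℕ, 0 < r ∧ Sm x = (⇑TX)^[r] x ∧
    (⇑TX)^[r] x ∈ AX ∧ ∀ j : ℕ, 0 < j → j < r → (⇑TX)^[j] x ∉ AX) (δ : ENNReal) (hδ : 0 < δ)
    (hδ1 : δ ≤ 1) (n : ℕ → ℕ) (hn : ∀ k, 0 < n k)
    (h : ∀ B : Set XX, MeasurableSet B → B ⊆ AX → ∀ c, c < δ * muX B →
      ∀ᶠ k in atTop, c < muX (B ∩ Sm^[n k] ⁻¹' B)) : False := by
  have hδt : δ ≠ ⊤ := ne_top_of_le_ne_top ENNReal.one_ne_top hδ1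
  have key : ∀ l : ℕ, δ / 2 * muX AX ≤ 24 * (2⁻¹ : ENNReal) ^ (l + 2 + 4) := by
    intro l
    set N := l + 2 + 1 with hN
    have h1 : ∀ i ∈ range (q N), ∀ᶠ k in atTop,
        δ / 2 * muX (BX N i) ≤ muX (BX N i ∩ Sm^[n k] ⁻¹' (BX N i)) := by
      intro i _
      by_cases h0 : muX (BX N i) = 0
      · apply Eventually.of_forall
        intro k
        rw [h0, mul_zero]
        exact zero_le
      · have h3 : δ / 2 * muX (BX N i) < δ * muX (BX N i) := by
          rw [ENNReal.mul_lt_mul_iff_left h0 (measure_ne_top _ _)]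
          exact ENNReal.half_lt_self hδ.ne' hδt
        have h4 := h (BX N i) (measurable_BX N i) Set.inter_subset_left _ h3
        filter_upwards [h4] with k hk
        exact hk.le
    have h5 := (Filter.eventually_all_finset (range (q N))).2 h1
    obtain ⟨k, hk⟩ := h5.exists
    calc δ / 2 * muX AX = ∑ i ∈ range (q N), δ / 2 * muX (BX N i) := by
          rw [← Finset.mul_sum, sum_BX]
      _ ≤ ∑ i ∈ range (q N), muX (BX N i ∩ QX N (n k)) := by
          apply Finset.sum_le_sum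
          intro i hi
          exact (hk i hi).trans (measure_mono (return_sub Sm hS N i (n k) (hn k)))
      _ = muX (⋃ i ∈ range (q N), (BX N i ∩ QX N (n k))) := by
          rw [measure_biUnion_finset]
          · intro i _ j _ hij
            exact (BX_disj N hij).mono Set.inter_subset_left Set.inter_subset_left
          · intro i _
            exact (measurable_BX N i).inter (isOpen_QX _ _).measurableSet
      _ ≤ muX (QX N (n k)) := by
          apply measure_mono
          intro x hx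
          simp only [Set.mem_iUnion] at hx
          obtain ⟨i, _, hi⟩ := hx
          exact hi.2
      _ ≤ _ := measure_QX (l + 2) (n k) (by omega)
  have hlim : Tendsto (fun l : ℕ => 24 * (2⁻¹ : ENNReal) ^ (l + 2 + 4)) atTop (𝓝 (24 * 0)) := by
    apply ENNReal.Tendsto.const_mul _ (Or.inr (by norm_num))
    have h3 := ENNReal.tendsto_pow_atTop_nhds_zero_of_lt_one (r := (2⁻¹ : ENNReal)) (by
      exact ENNReal.one_half_lt_one)
    exact h3.comp (tendsto_add_atTop_nat 6)
  rw [mul_zero] at hlim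
  have h0 := ge_of_tendsto' hlim key
  have h1 : δ / 2 * muX AX = 0 := le_antisymm h0 zero_le
  rcases mul_eq_zero.1 h1 with h2 | h2
  · exact (ENNReal.half_pos hδ.ne').ne' h2
  · exact measure_AX_ne h2

end Pool.Agent.Y328.PR
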