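import Pool.Agent.Y328.PEmb3

/-!
# Steinberg families of automorphisms of real algebras of small dimension
-/

set_option autoImplicit false
set_option linter.unusedSectionVars false

namespace Pool.Agent.Y328

open NumberField Filter

section Coeff

variable {A : Type*} [CommRing A] [Algebra ℝ A]

/-- the ring generated by a finite set of reals and a set -/
def cl (C : Finset ℝ) (X : Set A) : Subring A :=
  Subring.closure (algebraMap ℝ A '' (C : Set ℝ) ∪ X)

theorem cl_mono {C C' : Finset ℝ} (h : C ≤ C') {X Y : Set A} (hXY : X ⊆ Y) : cl C X ≤ cl C' Y := by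
  apply Subring.closure_mono
  exact Set.union_subset_union (Set.image_mono (by exact_mod_cast h)) hXY

theorem eventually_mem_cl (X : Set A) (b : A) (hb : b ∈ Algebra.adjoin ℝ X) :
    ∀ᶠ C : Finset ℝ in atTop, b ∈ cl C X := by
  induction hb using Algebra.adjoin_induction with
  | mem x hx => exact Eventually.of_forall fun C => Subring.subset_closure (Or.inr hx)
  | algebraMap r =>
    filter_upwards [eventually_ge_atTop ({r} : Finset ℝ)] with C hC
    exact Subring.subset_closure (Or.inl ⟨r, hC (Finset.mem_singleton_self r), rfl⟩)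
  | add x y _ _ hx hy =>
    filter_upwards [hx, hy] with C h1 h2
    exact add_mem h1 h2
  | mul x y _ _ hx hy =>
    filter_upwards [hx, hy] with C h1 h2
    exact mul_mem h1 h2

theorem isAlgebraic_of_coeffs (S : Subring A) (Q : Polynomial A) (hQ0 : Q ≠ 0)
    (hQ : ∀ n, Q.coeff n ∈ S) (y : A) (h : Q.eval y = 0) : IsAlgebraic S y := by
  have h1 : Q ∈ Polynomial.lifts S.subtype := by
    rw [Polynomial.lifts_iff_coeff_lifts]
    intro n
    exact ⟨⟨_, hQ n⟩, rfl⟩
  obtain ⟨Q', hQ'⟩ := h1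
  refine ⟨Q', ?_, ?_⟩
  · rintro rfl
    apply hQ0
    rw [← hQ']
    exact Polynomial.map_zero _
  · rw [Polynomial.aeval_def, ← h, ← hQ', Polynomial.coe_mapRingHom, Polynomial.eval_map]
    rfl

theorem eventually_isAlgebraic (X : Set A) (y : A) (hy : IsAlgebraic (Algebra.adjoin ℝ X) y) :
    ∀ᶠ C : Finset ℝ in atTop, IsAlgebraic (cl C X) y := by
  obtain ⟨P, hP0, hP⟩ := hy
  have h1 : ∀ᶠ C : Finset ℝ in atTop, ∀ n ∈ P.support, ((P.coeff n : Algebra.adjoin ℝ X) : A) ∈ cl C X :=
    (eventually_all_finset _).2 fun n _ => eventually_mem_cl X _ (P.coeff n).2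
  filter_upwards [h1] with C hC
  refine isAlgebraic_of_coeffs (cl C X) (P.map (algebraMap (Algebra.adjoin ℝ X) A)) ?_ ?_ y ?_
  · exact (Polynomial.map_ne_zero_iff Subtype.val_injective).2 hP0
  · intro n
    rw [Polynomial.coeff_map]
    by_cases hn : n ∈ P.support
    · exact hC n hn
    · rw [Polynomial.notMem_support_iff.1 hn, map_zero]
      exact zero_mem _
  · rw [Polynomial.eval_map_algebraMap]
    exact hP

theorem IsAlgebraic.mono_subring {S T : Subring A} (h : S ≤ T) {y : A} (hy : IsAlgebraic S y) :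
    IsAlgebraic T y := by
  have h1 := hy.ringHom_of_comp_eq (Subring.inclusion h) (RingHom.id A) (Subring.inclusion_injective h)
    (by ext; rfl)
  exact h1

theorem alg_transfer (A₀ : Subring A) (s : Set A₀) (y : A₀)
    (h : IsAlgebraic (Subring.closure (Subtype.val '' s)) (y : A)) :
    IsAlgebraic (Subring.closure s) y := by
  have hmap : (Subring.closure s).map A₀.subtype = Subring.closure (Subtype.val '' s) :=
    RingHom.map_closure _ _
  let f : Subring.closure s →+* Subring.closure (Subtype.val '' s) :=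
    (A₀.subtype.comp (Subring.closure s).subtype).codRestrict _ (fun a => by
      rw [← hmap]
      exact ⟨a.1, a.2, rfl⟩)
  refine IsAlgebraic.of_ringHom_of_comp_eq (S := Subring.closure (Subtype.val '' s)) f A₀.subtype
    h ?_ Subtype.val_injective ?_
  · rintro ⟨b, hb⟩
    rw [← hmap] at hb
    obtain ⟨a, ha, rfl⟩ := hb
    exact ⟨⟨a, ha⟩, rfl⟩
  · ext a; rfl

end Coeff


theorem finiteType_closure {A : Type*} [CommRing A] (s : Set A) (hs : s.Finite) :
    Algebra.FiniteType ℤ (Subring.closure s) := by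
  classical
  have hf : (Subtype.val ⁻¹' s : Set (Subring.closure s)).Finite :=
    hs.preimage Subtype.val_injective.injOn
  refine ⟨⟨hf.toFinset, ?_⟩⟩
  rw [eq_top_iff]
  rintro ⟨b, hb⟩ -
  rw [Set.Finite.coe_toFinset]
  have hb' := hb
  induction hb' using Subring.closure_induction with
  | mem y hy => exact Algebra.subset_adjoin hy
  | zero => exact zero_mem (Algebra.adjoin ℤ (Subtype.val ⁻¹' s : Set (Subring.closure s)))
  | one => exact one_mem (Algebra.adjoin ℤ (Subtype.val ⁻¹' s : Set (Subring.closure s)))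
  | add x y hx hy h1 h2 => exact add_mem (h1 hx) (h2 hy)
  | neg x hx h1 => exact neg_mem (h1 hx)
  | mul x y hx hy h1 h2 => exact mul_mem (h1 hx) (h2 hy)

theorem real_domain (k : Type) [Field k] [NumberField k] [IsTotallyComplex k]
    {ι : Type*} [Fintype ι] [DecidableEq ι] (hn : 3 ≤ Fintype.card ι)
    {A : Type*} [CommRing A] [IsDomain A] [Algebra ℝ A] [Algebra.FiniteType ℝ A]
    (hreal : ∀ h : A, h ≠ 0 → ∃ ρ : A →+* ℝ, ρ h ≠ 0)
    (hdim : Algebra.trdeg ℝ A < ((2 * (Fintype.card ι - 1) : ℕ) : Cardinal))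
    (g : ι → ι → 𝓞 k → (A ≃ₐ[ℝ] A)) (c : ℕ) (hc : 0 < c) (hg : GStb c g) :
    ∃ M : ℕ, 0 < M ∧ ∀ i j (a : 𝓞 k), i ≠ j → g i j (M * a) = 1 := by
  classical
  have hinjR : Function.Injective (algebraMap ℝ A) := (algebraMap ℝ A).injective
  have hcA : CharZero A := charZero_of_injective_algebraMap hinjR
  obtain ⟨m, x, hx, hm⟩ : ∃ (m : ℕ) (x : Fin m → A), IsTranscendenceBasis ℝ x ∧
      m < 2 * (Fintype.card ι - 1) := by
    obtain ⟨κ, v, hv⟩ := exists_isTranscendenceBasis' ℝ A
    have h2 := hv.lift_cardinalMk_eq_trdeg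
    have hfin : Finite κ := by
      rw [← Cardinal.mk_lt_aleph0_iff, ← Cardinal.lift_lt_aleph0, h2, Cardinal.lift_lt_aleph0]
      exact trdeg_lt_aleph0_of_finiteType
    have hft := Fintype.ofFinite κ
    refine ⟨Fintype.card κ, v ∘ (Fintype.equivFin κ).symm, hv.comp_equiv _, ?_⟩
    rw [← Cardinal.lift_lt, ← h2, Cardinal.mk_fintype, Cardinal.lift_natCast,
      Cardinal.lift_natCast] at hdim
    exact_mod_cast hdim
  have halgx : Algebra.IsAlgebraic (Algebra.adjoin ℝ (Set.range x)) A := hx.isAlgebraic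
  obtain ⟨S0, hS0⟩ := (Algebra.FiniteType.out (R := ℝ) (A := A))
  let X : Finset A := S0 ∪ Finset.univ.image x
  have hX : Algebra.adjoin ℝ (X : Set A) = ⊤ := by
    rw [eq_top_iff, ← hS0]
    exact Algebra.adjoin_mono (by simp [X])
  have hxX : Set.range x ⊆ (X : Set A) := by
    rintro _ ⟨i, rfl⟩
    simp [X]
  obtain ⟨E, hE⟩ := (Module.Finite.fg_top : (⊤ : Submodule ℤ (𝓞 k)).FG)
  have hEc : AddSubgroup.closure (E : Set (𝓞 k)) = ⊤ := by
    rw [← Submodule.span_int_eq_addSubgroupClosure, hE]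
    rfl
  -- choice of the coefficients
  have hev : ∀ᶠ C : Finset ℝ in atTop, (∀ y ∈ X, IsAlgebraic (cl C (Set.range x)) y) ∧
      ∀ i ∈ (Finset.univ : Finset ι), ∀ j ∈ (Finset.univ : Finset ι), ∀ e ∈ E, ∀ y ∈ X,
        g i j e y ∈ cl C (X : Set A) ∧ g i j (-e) y ∈ cl C (X : Set A) := by
    refine Eventually.and ?_ ?_
    · exact (eventually_all_finset _).2 fun y _ =>
        eventually_isAlgebraic _ _ (Algebra.IsAlgebraic.isAlgebraic y)
    · refine (eventually_all_finset _).2 fun i _ => (eventually_all_finset _).2 fun j _ =>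
        (eventually_all_finset _).2 fun e _ => (eventually_all_finset _).2 fun y _ => ?_
      exact (eventually_mem_cl _ _ (by rw [hX]; exact Algebra.mem_top)).and
        (eventually_mem_cl _ _ (by rw [hX]; exact Algebra.mem_top))
  obtain ⟨C, hC1, hC2⟩ := hev.exists
  let A₀ : Subring A := cl C (X : Set A)
  -- stability
  have hst1 : ∀ i j (a : 𝓞 k), (∀ y ∈ X, g i j a y ∈ A₀) → ∀ b ∈ A₀, g i j a b ∈ A₀ := by
    intro i j a h b hb
    unfold A₀ cl at hb
    induction hb using Subring.closure_induction with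
    | mem y hy =>
      rcases hy with ⟨r, hr, rfl⟩ | hy
      · rw [AlgEquiv.commutes]
        exact Subring.subset_closure (Or.inl ⟨r, hr, rfl⟩)
      · exact h y hy
    | zero => rw [map_zero]; exact zero_mem _
    | one => rw [map_one]; exact one_mem _
    | add x y _ _ hx hy => rw [map_add]; exact add_mem hx hy
    | neg x _ hx => rw [map_neg]; exact neg_mem hx
    | mul x y _ _ hx hy => rw [map_mul]; exact mul_mem hx hy
  have hst : ∀ i j, i ≠ j → ∀ a : 𝓞 k, (∀ b ∈ A₀, g i j a b ∈ A₀) ∧ (∀ b ∈ A₀, g i j (-a) b ∈ A₀) := by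
    intro i j hij a
    have ha : a ∈ AddSubgroup.closure (E : Set (𝓞 k)) := by rw [hEc]; exact AddSubgroup.mem_top a
    induction ha using AddSubgroup.closure_induction with
    | mem e he =>
      have h1 := hC2 i (Finset.mem_univ _) j (Finset.mem_univ _) e he
      exact ⟨hst1 i j e fun y hy => (h1 y hy).1, hst1 i j (-e) fun y hy => (h1 y hy).2⟩
    | zero =>
      rw [neg_zero, hg.zero hij]
      exact ⟨fun b hb => hb, fun b hb => hb⟩
    | add a b _ _ ha hb =>
      rw [neg_add, hg.add _ _ _ _ hij, hg.add _ _ _ _ hij]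
      exact ⟨fun z hz => ha.1 _ (hb.1 _ hz), fun z hz => ha.2 _ (hb.2 _ hz)⟩
    | neg a _ ha =>
      rw [neg_neg]
      exact ⟨ha.2, ha.1⟩
  have hinv : ∀ i j, i ≠ j → ∀ (a : 𝓞 k) (b : A), g i j (-a) (g i j a b) = b := by
    intro i j hij a b
    have h1 := hg.add i j (-a) a hij
    rw [neg_add_cancel, hg.zero hij] at h1
    exact (DFunLike.congr_fun h1 b).symm
  have hinv' : ∀ i j, i ≠ j → ∀ (a : 𝓞 k) (b : A), g i j a (g i j (-a) b) = b := by
    intro i j hij a b
    have := hinv i j hij (-a) b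
    rwa [neg_neg] at this
  let g₀' : ∀ i j, i ≠ j → 𝓞 k → (A₀ ≃+* A₀) := fun i j hij a =>
    { toFun := fun b => ⟨g i j a b.1, (hst i j hij a).1 _ b.2⟩
      invFun := fun b => ⟨g i j (-a) b.1, (hst i j hij a).2 _ b.2⟩
      left_inv := fun b => Subtype.ext (hinv i j hij a b.1)
      right_inv := fun b => Subtype.ext (hinv' i j hij a b.1)
      map_mul' := fun a b => Subtype.ext (map_mul _ _ _)
      map_add' := fun a b => Subtype.ext (map_add _ _ _) }
  let g₀ : ι → ι → 𝓞 k → (A₀ ≃+* A₀) := fun i j a => if hij : i ≠ j then g₀' i j hij a else 1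
  have hg₀ : ∀ i j a (b : A₀), i ≠ j → ((g₀ i j a b : A₀) : A) = g i j a b := by
    intro i j a b hij
    simp only [g₀, dif_pos hij]
    rfl
  have hgS : GStb c g₀ := by
    refine ⟨fun i j a b hij => ?_, fun i j l a b hij hjl hil => ?_, fun i j l q a b hij hlq hjl hiq => ?_⟩
    · apply RingEquiv.ext
      intro z
      apply Subtype.ext
      rw [hg₀ _ _ _ _ hij, hg.add _ _ _ _ hij]
      change _ = ((g₀ i j a (g₀ i j b z) : A₀) : A)
      rw [hg₀ _ _ _ _ hij, hg₀ _ _ _ _ hij]
      rfl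
    · apply RingEquiv.ext
      intro z
      apply Subtype.ext
      change ((g₀ i j a (g₀ j l b z) : A₀) : A) =
        ((g₀ i l ((c : 𝓞 k) * (a * b)) (g₀ j l b (g₀ i j a z)) : A₀) : A)
      rw [hg₀ _ _ _ _ hij, hg₀ _ _ _ _ hjl, hg₀ _ _ _ _ hil, hg₀ _ _ _ _ hjl, hg₀ _ _ _ _ hij]
      exact DFunLike.congr_fun (hg.comm3 i j l a b hij hjl hil) (z : A)
    · apply RingEquiv.ext
      intro z
      apply Subtype.ext
      change ((g₀ i j a (g₀ l q b z) : A₀) : A) = ((g₀ l q b (g₀ i j a z) : A₀) : A)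
      rw [hg₀ _ _ _ _ hij, hg₀ _ _ _ _ hlq, hg₀ _ _ _ _ hlq, hg₀ _ _ _ _ hij]
      exact DFunLike.congr_fun (hg.comm0 i j l q a b hij hlq hjl hiq) (z : A)
  -- the ring `A₀`
  have hdA : IsDomain A₀ := inferInstance
  have hcA0 : CharZero A₀ := charZero_of_injective_algebraMap (R := ℤ) (by
    intro a b hab
    have h1 := congrArg (Subtype.val) hab
    simpa using h1)
  have hft0 : Algebra.FiniteType ℤ A₀ :=
    finiteType_closure _ ((C.finite_toSet.image _).union X.finite_toSet)
  have hreal0 : ∀ h : A₀, h ≠ 0 → ∃ ρ : A₀ →+* ℝ, ρ h ≠ 0 := by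
    intro h hh
    obtain ⟨ρ, hρ⟩ := hreal h.1 (fun h0 => hh (Subtype.ext h0))
    exact ⟨ρ.comp A₀.subtype, hρ⟩
  obtain ⟨p, hp, hp2, hpk, ψ, hψ⟩ := exists_embedding k hreal0 2
  have hxA : ∀ i, x i ∈ A₀ := fun i => Subring.subset_closure (Or.inr (hxX ⟨i, rfl⟩))
  let x₀ : Fin m → A₀ := fun i => ⟨x i, hxA i⟩
  let C₀ : Set A₀ := {a | (a : A) ∈ algebraMap ℝ A '' (C : Set ℝ)}
  have hval : Subtype.val '' (C₀ ∪ Set.range x₀) = algebraMap ℝ A '' (C : Set ℝ) ∪ Set.range x := by
    rw [Set.image_union]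
    congr 1
    · ext a
      constructor
      · rintro ⟨b, hb, rfl⟩
        exact hb
      · intro ha
        exact ⟨⟨a, Subring.subset_closure (Or.inl ha)⟩, ha, rfl⟩
    · rw [← Set.range_comp]
      rfl
  have halg0 : ∀ a : A₀, IsAlgebraic (Subring.closure (C₀ ∪ Set.range x₀)) a := by
    intro a
    apply alg_transfer
    rw [hval]
    change IsAlgebraic (cl C (Set.range x)) (a : A)
    have ha := a.2
    generalize (a : A) = b at ha
    unfold A₀ cl at ha
    induction ha using Subring.closure_induction with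
    | mem y hy =>
      rcases hy with hy | hy
      · exact isAlgebraic_algebraMap (⟨y, Subring.subset_closure (Or.inl hy)⟩ : cl C (Set.range x))
      · exact hC1 y hy
    | zero => exact isAlgebraic_zero
    | one => exact isAlgebraic_one
    | add x y _ _ hx hy => exact hx.add hy
    | neg x _ hx => exact hx.neg
    | mul x y _ _ hx hy => exact hx.mul hy
  obtain ⟨M, hM0, hM⟩ := padic_domain hn hpk (by omega) ψ hψ C₀ x₀ halg0 hm g₀ c hc hgS (by
    intro i j a hij b hb
    apply Subtype.ext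
    rw [hg₀ _ _ _ _ hij]
    obtain ⟨r, -, hr⟩ := hb
    rw [← hr, AlgEquiv.commutes])
  refine ⟨M, hM0, fun i j a hij => ?_⟩
  have h1 : ∀ b ∈ A₀, g i j (M * a) b = b := by
    intro b hb
    have h2 := hg₀ i j (M * a) ⟨b, hb⟩ hij
    rw [hM i j a hij] at h2
    exact h2.symm
  have h3 : (g i j (M * a) : A ≃ₐ[ℝ] A).toAlgHom = AlgHom.id ℝ A := by
    refine AlgHom.ext_of_adjoin_eq_top hX ?_
    intro y hy
    exact h1 y (Subring.subset_closure (Or.inr hy))
  ext b
  exact DFunLike.congr_fun h3 b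

end Pool.Agent.Y328
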