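import Pool.Agent.Y328.PReal

/-!
# Steinberg families of automorphisms of real algebras of small dimension: the reducible case
-/

set_option autoImplicit false
set_option linter.unusedSectionVars false

namespace Pool.Agent.Y328

open NumberField Filter

theorem map_mem_minimalPrimes {A : Type*} [CommRing A] (h : A ≃+* A) {P : Ideal A}
    (hP : P ∈ minimalPrimes A) : P.comap (h : A →+* A) ∈ minimalPrimes A := by
  have hPp : P.IsPrime := hP.1.1
  refine ⟨⟨Ideal.comap_isPrime _ P, bot_le⟩, ?_⟩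
  rintro Q ⟨hQ, -⟩ hQP
  have hQ' : (Q.comap (h.symm : A →+* A)).IsPrime := Ideal.comap_isPrime _ Q
  have h1 : Q.comap (h.symm : A →+* A) ≤ P := by
    intro x hx
    have h2 := hQP hx
    have h3 : h (h.symm x) ∈ P := h2
    rwa [h.apply_symm_apply] at h3
  have h4 := hP.2 ⟨hQ', bot_le⟩ h1
  intro x hx
  have h5 : h.symm (h x) ∈ Q := h4 hx
  rwa [h.symm_apply_apply] at h5

/-- the action on minimal primes -/
def minHom (A : Type*) [CommRing A] : (A ≃+* A) →* Equiv.Perm (minimalPrimes A) where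
  toFun h :=
    { toFun := fun P => ⟨P.1.comap ((h⁻¹ : A ≃+* A) : A →+* A), map_mem_minimalPrimes _ P.2⟩
      invFun := fun P => ⟨P.1.comap (h : A →+* A), map_mem_minimalPrimes _ P.2⟩
      left_inv := fun P => by
        apply Subtype.ext
        ext x
        change h⁻¹ (h x) ∈ P.1 ↔ _
        have h1 : (h⁻¹ : A ≃+* A) (h x) = x := h.symm_apply_apply x
        rw [h1]
      right_inv := fun P => by
        apply Subtype.ext
        ext x
        change h ((h⁻¹ : A ≃+* A) x) ∈ P.1 ↔ _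
        have h1 : h ((h⁻¹ : A ≃+* A) x) = x := h.apply_symm_apply x
        rw [h1] }
  map_one' := by ext P; rfl
  map_mul' g h := by ext P; rfl

theorem exists_minimal_exponent {A : Type*} [CommRing A] [IsNoetherianRing A] :
    ∃ M : ℕ, 0 < M ∧ ∀ h : A ≃+* A, ∀ P ∈ minimalPrimes A, ∀ x, (h ^ M) x ∈ P ↔ x ∈ P := by
  have hf : Finite (minimalPrimes A) := (minimalPrimes.finite_of_isNoetherianRing A).to_subtype
  refine ⟨Nat.card (Equiv.Perm (minimalPrimes A)), Nat.card_pos, fun h P hP x => ?_⟩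
  have h1 : minHom A (h ^ Nat.card (Equiv.Perm (minimalPrimes A))) = 1 := by
    rw [map_pow, pow_card_eq_one']
  have h2 := Equiv.congr_fun h1 ⟨P, hP⟩
  have h3 := congrArg (fun Q : minimalPrimes A =>
    (h ^ Nat.card (Equiv.Perm (minimalPrimes A))) x ∈ Q.1) h2
  change (((h ^ Nat.card (Equiv.Perm (minimalPrimes A)))⁻¹ : A ≃+* A)
    ((h ^ Nat.card (Equiv.Perm (minimalPrimes A))) x) ∈ P) =
    ((h ^ Nat.card (Equiv.Perm (minimalPrimes A))) x ∈ P) at h3
  have h4 : ((h ^ Nat.card (Equiv.Perm (minimalPrimes A)))⁻¹ : A ≃+* A)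
    ((h ^ Nat.card (Equiv.Perm (minimalPrimes A))) x) = x := RingEquiv.symm_apply_apply _ _
  rw [h4] at h3
  exact h3.symm.to_iff

/-- real points are dense in every irreducible component -/
theorem real_quotient {A : Type*} [CommRing A] [IsNoetherianRing A]
    (hreal : ∀ h : A, h ≠ 0 → ∃ ρ : A →+* ℝ, ρ h ≠ 0) (P : Ideal A) (hP : P ∈ minimalPrimes A) :
    ∀ h : A ⧸ P, h ≠ 0 → ∃ ρ : A ⧸ P →+* ℝ, ρ h ≠ 0 := by
  classical
  have hPp : P.IsPrime := hP.1.1
  have hf : (minimalPrimes A).Finite := minimalPrimes.finite_of_isNoetherianRing A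
  obtain ⟨u, huP, hu⟩ : ∃ u : A, u ∉ P ∧ ∀ Q ∈ minimalPrimes A, Q ≠ P → u ∈ Q := by
    by_contra hcon
    push Not at hcon
    have h1 : (hf.toFinset.erase P).inf id ≤ P := by
      intro u hu
      by_contra huP
      obtain ⟨Q, hQ, hQP, huQ⟩ := hcon u huP
      apply huQ
      have h2 : (hf.toFinset.erase P).inf id ≤ Q :=
        Finset.inf_le (f := id) (Finset.mem_erase.2 ⟨hQP, hf.mem_toFinset.2 hQ⟩)
      exact h2 hu
    obtain ⟨Q, hQ, hQP⟩ := (Ideal.IsPrime.inf_le' hPp).1 h1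
    rw [Finset.mem_erase, hf.mem_toFinset] at hQ
    exact hQ.1 (le_antisymm hQP (hP.2 hQ.2.1 hQP))
  intro h hh
  obtain ⟨h', rfl⟩ := Ideal.Quotient.mk_surjective h
  have hh' : h' ∉ P := fun h0 => hh (Ideal.Quotient.eq_zero_iff_mem.2 h0)
  have hne : h' * u ≠ 0 := by
    intro h0
    rcases hPp.mem_or_mem (show h' * u ∈ P by rw [h0]; exact zero_mem _) with h1 | h1
    · exact hh' h1
    · exact huP h1
  obtain ⟨ρ, hρ⟩ := hreal _ hne
  rw [map_mul] at hρ
  have hk : (RingHom.ker ρ).IsPrime := RingHom.ker_isPrime ρ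
  obtain ⟨Q, hQ, hQk⟩ := Ideal.exists_minimalPrimes_le (bot_le : (⊥ : Ideal A) ≤ RingHom.ker ρ)
  have hQP : Q = P := by
    by_contra hne
    exact right_ne_zero_of_mul hρ (hQk (hu Q hQ hne))
  rw [hQP] at hQk
  refine ⟨Ideal.Quotient.lift P ρ fun a ha => hQk ha, ?_⟩
  rw [Ideal.Quotient.lift_mk]
  exact left_ne_zero_of_mul hρ

theorem iInf_minimal {A : Type*} [CommRing A] (hreal : ∀ h : A, h ≠ 0 → ∃ ρ : A →+* ℝ, ρ h ≠ 0)
    (a : A) (h : ∀ P ∈ minimalPrimes A, a ∈ P) : a = 0 := by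
  by_contra h0
  obtain ⟨ρ, hρ⟩ := hreal a h0
  have hk : (RingHom.ker ρ).IsPrime := RingHom.ker_isPrime ρ
  obtain ⟨Q, hQ, hQk⟩ := Ideal.exists_minimalPrimes_le (bot_le : (⊥ : Ideal A) ≤ RingHom.ker ρ)
  exact hρ (hQk (h Q hQ))


theorem real_reduced (k : Type) [Field k] [NumberField k] [IsTotallyComplex k]
    {ι : Type*} [Fintype ι] [DecidableEq ι] (hn : 3 ≤ Fintype.card ι)
    {A : Type*} [CommRing A] [Algebra ℝ A] [Algebra.FiniteType ℝ A]
    (hreal : ∀ h : A, h ≠ 0 → ∃ ρ : A →+* ℝ, ρ h ≠ 0)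
    (hdim : Algebra.trdeg ℝ A < ((2 * (Fintype.card ι - 1) : ℕ) : Cardinal))
    (g : ι → ι → 𝓞 k → (A ≃ₐ[ℝ] A)) (c : ℕ) (hc : 0 < c) (hg : GStb c g) :
    ∃ M : ℕ, 0 < M ∧ ∀ i j (a : 𝓞 k), i ≠ j → g i j (M * a) = 1 := by
  classical
  have hN : IsNoetherianRing A := Algebra.FiniteType.isNoetherianRing ℝ A
  have hf : (minimalPrimes A).Finite := minimalPrimes.finite_of_isNoetherianRing A
  obtain ⟨r, hr0, hr⟩ := exists_minimal_exponent (A := A)
  have hpow : ∀ (h : A ≃ₐ[ℝ] A) (n : ℕ), ((h ^ n : A ≃ₐ[ℝ] A) : A ≃+* A) = (h : A ≃+* A) ^ n := by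
    intro h n
    induction n with
    | zero => rfl
    | succ n ih =>
      rw [pow_succ, pow_succ, ← ih]
      rfl
  have hst : ∀ i j (a : 𝓞 k), i ≠ j → ∀ P ∈ minimalPrimes A, ∀ x, g i j (r * a) x ∈ P ↔ x ∈ P := by
    intro i j a hij P hP x
    rw [hg.nsmul hij]
    have h1 := hr (g i j a : A ≃+* A) P hP x
    rw [← hpow] at h1
    exact h1
  have key : ∀ P ∈ minimalPrimes A, ∃ M : ℕ, 0 < M ∧ ∀ i j (a : 𝓞 k), i ≠ j → ∀ b : A,
      g i j (r * (M * a)) b - b ∈ P := by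
    intro P hP
    have hPp : P.IsPrime := hP.1.1
    have hmap : ∀ i j (a : 𝓞 k), i ≠ j → P = P.map ((g i j (r * a) : A ≃ₐ[ℝ] A) : A →+* A) := by
      intro i j a hij
      apply le_antisymm
      · intro x hx
        have h1 : g i j (r * a) ((g i j (r * a)).symm x) = x := AlgEquiv.apply_symm_apply _ _
        rw [← h1]
        refine Ideal.mem_map_of_mem _ ?_
        rw [← hst i j a hij P hP, h1]
        exact hx
      · rw [Ideal.map_le_iff_le_comap]
        intro x hx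
        exact (hst i j a hij P hP x).2 hx
    let g' : ι → ι → 𝓞 k → ((A ⧸ P) ≃ₐ[ℝ] (A ⧸ P)) := fun i j a =>
      if hij : i ≠ j then Ideal.quotientEquivAlg P P (g i j (r * a)) (hmap i j a hij) else 1
    have hg' : ∀ i j (a : 𝓞 k) (b : A), i ≠ j →
        g' i j a (Ideal.Quotient.mk P b) = Ideal.Quotient.mk P (g i j (r * a) b) := by
      intro i j a b hij
      simp only [g', dif_pos hij]
      rfl
    have hgS : GStb (c * r) g' := by
      refine ⟨fun i j a b hij => ?_, fun i j l a b hij hjl hil => ?_,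
        fun i j l q a b hij hlq hjl hiq => ?_⟩
      · ext z
        obtain ⟨z, rfl⟩ := Ideal.Quotient.mk_surjective z
        change _ = g' i j a (g' i j b (Ideal.Quotient.mk P z))
        rw [hg' _ _ _ _ hij, hg' _ _ _ _ hij, hg' _ _ _ _ hij, mul_add, hg.add _ _ _ _ hij]
        rfl
      · ext z
        obtain ⟨z, rfl⟩ := Ideal.Quotient.mk_surjective z
        change g' i j a (g' j l b (Ideal.Quotient.mk P z)) =
          g' i l (((c * r : ℕ) : 𝓞 k) * (a * b)) (g' j l b (g' i j a (Ideal.Quotient.mk P z)))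
        rw [hg' _ _ _ _ hij, hg' _ _ _ _ hjl, hg' _ _ _ _ hij, hg' _ _ _ _ hjl, hg' _ _ _ _ hil]
        congr 1
        have h1 := DFunLike.congr_fun (hg.comm3 i j l (r * a) (r * b) hij hjl hil) z
        have h2 : (c : 𝓞 k) * (r * a * (r * b)) = r * (((c * r : ℕ) : 𝓞 k) * (a * b)) := by
          push_cast
          ring
        rw [h2] at h1
        exact h1
      · ext z
        obtain ⟨z, rfl⟩ := Ideal.Quotient.mk_surjective z
        change g' i j a (g' l q b (Ideal.Quotient.mk P z)) =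
          g' l q b (g' i j a (Ideal.Quotient.mk P z))
        rw [hg' _ _ _ _ hij, hg' _ _ _ _ hlq, hg' _ _ _ _ hij, hg' _ _ _ _ hlq]
        congr 1
        exact DFunLike.congr_fun (hg.comm0 i j l q (r * a) (r * b) hij hlq hjl hiq) z
    have hdim' : Algebra.trdeg ℝ (A ⧸ P) < ((2 * (Fintype.card ι - 1) : ℕ) : Cardinal) :=
      (trdeg_le_of_surjective (Ideal.Quotient.mkₐ ℝ P) Ideal.Quotient.mk_surjective).trans_lt hdim
    obtain ⟨M, hM0, hM⟩ := real_domain k hn (real_quotient hreal P hP) hdim' g' (c * r)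
      (Nat.mul_pos hc hr0) hgS
    refine ⟨M, hM0, fun i j a hij b => ?_⟩
    rw [← Ideal.Quotient.eq, ← hg' _ _ _ _ hij, hM i j a hij]
    rfl
  choose! M hM0 hM using key
  refine ⟨r * ∏ P ∈ hf.toFinset, M P, Nat.mul_pos hr0 (Finset.prod_pos fun P hP =>
    hM0 P (hf.mem_toFinset.1 hP)), fun i j a hij => ?_⟩
  ext b
  rw [← sub_eq_zero]
  refine iInf_minimal hreal _ fun P hP => ?_
  have h1 : (((r * ∏ P ∈ hf.toFinset, M P : ℕ)) : 𝓞 k) * a =
      r * (M P * (((∏ Q ∈ hf.toFinset.erase P, M Q : ℕ) : 𝓞 k) * a)) := by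
    rw [← Finset.mul_prod_erase _ _ (hf.mem_toFinset.2 hP)]
    push_cast
    ring
  rw [h1]
  exact hM P hP i j _ hij b

end Pool.Agent.Y328
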